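import Pool.Agent.Q117.FQ.Stm
import Pool.Agent.Y843.HG.VGold

/-!
Project FQ (helper117), job GS: the sieve on the sphere with prescribed classes, lower and upper bound.
The main part is adapted from `sieve_main` of `Pool/Agent/W65/FS/Sieve.lean`.
-/

set_option autoImplicit false
set_option linter.all false

namespace Pool.Agent.Q117.FQ.GSa

open Finset Filter
open Pool.Agent.W65.FS
open Pool.Agent.Y843.HS (Pr Pr_mem Pr_prime)
open Pool.Agent.Y843.HG (V1 V1_bounds V1_pos)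

/-- the density of the classes -/
noncomputable def dn (B : ℕ → Finset (Fin 4 → ℤ)) (n l : ℕ) : ℝ := ((B l).card : ℝ) / (Gl n l).card

lemma dn_bound (B : ℕ → Finset (Fin 4 → ℤ)) (κ : ℕ) (n l : ℕ) (hl : l.Prime) (hl2 : l ≠ 2)
    (h : (B l).card ≤ κ * l ^ 2) : 0 ≤ dn B n l ∧ dn B n l ≤ κ / ((l : ℝ) - 1) := by
  have hl3 : (3 : ℝ) ≤ l := by
    have : 3 ≤ l := by
      have := hl.two_le
      omega
    exact_mod_cast this
  have h1 := count_lower l hl hl2 n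
  have hpos : 0 < (l : ℝ) ^ 3 - l := by nlinarith [mul_pos (show (0:ℝ) < l by linarith) (show (0:ℝ) < l by linarith)]
  have h2 : ((B l).card : ℝ) ≤ κ * (l : ℝ) ^ 2 := by exact_mod_cast h
  refine ⟨by unfold dn; positivity, ?_⟩
  unfold dn
  have hκ : (0 : ℝ) ≤ κ := by positivity
  calc ((B l).card : ℝ) / (Gl n l).card ≤ (κ * (l : ℝ) ^ 2) / ((l : ℝ) ^ 3 - l) :=
        div_le_div₀ (by positivity) h2 hpos h1
    _ ≤ κ / ((l : ℝ) - 1) := by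
      rw [div_le_div_iff₀ hpos (by linarith)]
      have : (l : ℝ) ^ 2 * (l - 1) ≤ (l : ℝ) ^ 3 - l := by nlinarith
      calc κ * (l : ℝ) ^ 2 * (l - 1) = κ * ((l : ℝ) ^ 2 * (l - 1)) := by ring
        _ ≤ κ * ((l : ℝ) ^ 3 - l) := by gcongr

lemma dn_le_one (B : ℕ → Finset (Fin 4 → ℤ)) (n l : ℕ) (h : B l ⊆ Gl n l) : dn B n l ≤ 1 := by
  unfold dn
  apply div_le_one_of_le₀ _ (by positivity)
  exact_mod_cast Finset.card_le_card h

lemma dn_nonneg (B : ℕ → Finset (Fin 4 → ℤ)) (n l : ℕ) : 0 ≤ dn B n l := by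
  unfold dn; positivity

lemma dn_sdiff (B : ℕ → Finset (Fin 4 → ℤ)) (n l : ℕ) (h : B l ⊆ Gl n l) (hne : B l ≠ Gl n l) :
    ((Gl n l \ B l).card : ℝ) / (Gl n l).card = 1 - dn B n l := by
  have h1 : 0 < (Gl n l).card := by
    rw [Finset.card_pos]
    by_contra hc
    rw [Finset.not_nonempty_iff_eq_empty] at hc
    rw [hc, Finset.subset_empty] at h
    exact hne (h.trans hc.symm)
  have h2 : (0 : ℝ) < (Gl n l).card := by exact_mod_cast h1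
  rw [Finset.card_sdiff_of_subset h, Nat.cast_sub (Finset.card_le_card h)]
  unfold dn
  rw [sub_div, div_self h2.ne']

open Classical in
/-- the expected number at the level `y` -/
noncomputable def Mz (n : ℕ) (P0 : Finset ℕ) (S B : ℕ → Finset (Fin 4 → ℤ)) (y : ℕ) : ℝ :=
  ((preps n).card : ℝ) * (∏ l ∈ P0, ((S l).card : ℝ) / (Gl n l).card) *
    ∏ l ∈ (Icc 3 y).filter (fun l => l.Prime ∧ l ∉ P0), (1 - dn B n l)

lemma Mn_eq (n : ℕ) (P0 : Finset ℕ) (S B : ℕ → Finset (Fin 4 → ℤ)) : Mn n P0 S B = Mz n P0 S B n := by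
  unfold Mn Mz dn
  rfl

lemma mem_preps' {n : ℕ} {X : Fin 4 → ℤ} (h : X ∈ preps n) : ∑ i, X i ^ 2 = n ∧ gc X = 1 := by
  rw [← prc_one] at h
  unfold prc at h
  rw [Finset.mem_filter, mem_repsc] at h
  exact ⟨h.1.1, h.2⟩

lemma est (C0 κ t : ℕ) (ht : t = 100 * (2 * (16 * (C0 * C0) + 1) + 15 + 4 + 4 * κ)) (C c1 c3 c5 K0 M0 z n : ℝ)
    (hC : 0 < C) (hc1 : 0 < c1) (hc3pos : 0 < c3) (hc5 : c5 = c1 / K0 ^ 4 * c3) (hc5pos : 0 < c5)
    (hK0r : 1 ≤ K0) (hM0r : 1 ≤ M0) (hM0le : M0 ≤ n ^ (1 / (t : ℝ)) * K0) (hzr : 2 ≤ z)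
    (hJ1 : z ≤ n ^ (2 / (t : ℝ))) (hnr : 1 ≤ n) (hn1' : 8 * C * K0 ^ 15 / c5 ≤ n ^ (1 / 50 : ℝ)) :
    c5 * n ^ (98 / 100 : ℝ) ≤ (c1 * n ^ (1 - 1 / 100 : ℝ)) * (1 / M0 ^ 4) * (c3 * z ^ (-(2 * κ : ℝ))) ∧
    2 * C * M0 ^ 15 * (z ^ (16 * (C0 * C0) + 1) * n ^ (19 / 20 : ℝ)) ≤ 1 / 4 * (c5 * n ^ (98 / 100 : ℝ)) := by
  have hn0 : 0 < n := by linarith
  have hz0r : 0 < z := by linarith
  have htr : (0 : ℝ) < t := by
    have : 0 < t := by omega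
    exact_mod_cast this
  have hexp1 : z ^ (16 * (C0 * C0) + 1) * M0 ^ 15 ≤ n ^ (1 / 100 : ℝ) * K0 ^ 15 := by
    calc z ^ (16 * (C0 * C0) + 1) * M0 ^ 15 ≤
        (n ^ (2 / (t : ℝ))) ^ (16 * (C0 * C0) + 1) * (n ^ (1 / (t : ℝ)) * K0) ^ 15 := by gcongr
      _ = n ^ (((2 * (16 * (C0 * C0) + 1) + 15 : ℕ) : ℝ) / (t : ℝ)) * K0 ^ 15 := by
        rw [mul_pow, ← Real.rpow_natCast (n ^ (2 / (t : ℝ))), ← Real.rpow_mul hn0.le,
          ← Real.rpow_natCast (n ^ (1 / (t : ℝ))), ← Real.rpow_mul hn0.le, ← mul_assoc,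
          ← Real.rpow_add hn0]
        congr 2
        push_cast
        ring
      _ ≤ _ := by
        apply mul_le_mul_of_nonneg_right _ (by positivity)
        apply Real.rpow_le_rpow_of_exponent_le hnr
        rw [div_le_div_iff₀ htr (by norm_num)]
        have : (2 * (16 * (C0 * C0) + 1) + 15) * 100 ≤ 1 * t := by omega
        exact_mod_cast this
  have hexp2 : n ^ (-(1 / 100) : ℝ) / K0 ^ 4 ≤ 1 / M0 ^ 4 * z ^ (-(2 * κ : ℝ)) := by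
    have h1 : M0 ^ 4 * z ^ (2 * κ : ℝ) ≤ n ^ (1 / 100 : ℝ) * K0 ^ 4 := by
      calc M0 ^ 4 * z ^ (2 * κ : ℝ) ≤
          (n ^ (1 / (t : ℝ)) * K0) ^ 4 * (n ^ (2 / (t : ℝ))) ^ (2 * κ : ℝ) := by gcongr
        _ = n ^ (((4 + 4 * κ : ℕ) : ℝ) / (t : ℝ)) * K0 ^ 4 := by
          rw [mul_pow, ← Real.rpow_mul hn0.le, ← Real.rpow_natCast (n ^ (1 / (t : ℝ))),
            ← Real.rpow_mul hn0.le]
          have : n ^ (((4 + 4 * κ : ℕ) : ℝ) / (t : ℝ)) =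
              n ^ (1 / (t : ℝ) * ((4 : ℕ) : ℝ)) * n ^ (2 / (t : ℝ) * (2 * κ)) := by
            rw [← Real.rpow_add hn0]
            congr 1
            push_cast
            ring
          rw [this]
          ring
        _ ≤ _ := by
          apply mul_le_mul_of_nonneg_right _ (by positivity)
          apply Real.rpow_le_rpow_of_exponent_le hnr
          rw [div_le_div_iff₀ htr (by norm_num)]
          have : (4 + 4 * κ) * 100 ≤ 1 * t := by omega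
          exact_mod_cast this
    have h2 : 0 < M0 ^ 4 * z ^ (2 * κ : ℝ) := by positivity
    rw [Real.rpow_neg hn0.le, Real.rpow_neg hz0r.le]
    calc (n ^ (1 / 100 : ℝ))⁻¹ / K0 ^ 4 = (n ^ (1 / 100 : ℝ) * K0 ^ 4)⁻¹ := by
          rw [mul_inv, div_eq_mul_inv]
      _ ≤ (M0 ^ 4 * z ^ (2 * κ : ℝ))⁻¹ := inv_anti₀ h2 h1
      _ = _ := by rw [mul_inv, one_div]
  constructor
  · calc c5 * n ^ (98 / 100 : ℝ) = (c1 * n ^ (1 - 1 / 100 : ℝ)) * (c3 * (n ^ (-(1 / 100) : ℝ) / K0 ^ 4)) := by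
          have : n ^ (98 / 100 : ℝ) = n ^ (1 - 1 / 100 : ℝ) * n ^ (-(1 / 100) : ℝ) := by
            rw [← Real.rpow_add hn0]; congr 1; norm_num
          rw [this, hc5]; ring
      _ ≤ (c1 * n ^ (1 - 1 / 100 : ℝ)) * (c3 * (1 / M0 ^ 4 * z ^ (-(2 * κ : ℝ)))) := by gcongr
      _ = _ := by ring
  · rw [div_le_iff₀ hc5pos] at hn1'
    calc 2 * C * M0 ^ 15 * (z ^ (16 * (C0 * C0) + 1) * n ^ (19 / 20 : ℝ))
        = 2 * C * (z ^ (16 * (C0 * C0) + 1) * M0 ^ 15) * n ^ (19 / 20 : ℝ) := by ring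
      _ ≤ 2 * C * (n ^ (1 / 100 : ℝ) * K0 ^ 15) * n ^ (19 / 20 : ℝ) := by gcongr
      _ = 1 / 4 * (8 * C * K0 ^ 15) * (n ^ (1 / 100 : ℝ) * n ^ (19 / 20 : ℝ)) := by ring
      _ ≤ 1 / 4 * (n ^ (1 / 50 : ℝ) * c5) * (n ^ (1 / 100 : ℝ) * n ^ (19 / 20 : ℝ)) := by gcongr
      _ = 1 / 4 * (c5 * n ^ (98 / 100 : ℝ)) := by
        have : n ^ (98 / 100 : ℝ) = n ^ (1 / 50 : ℝ) * (n ^ (1 / 100 : ℝ) * n ^ (19 / 20 : ℝ)) := by
          rw [← Real.rpow_add hn0, ← Real.rpow_add hn0]; congr 1; norm_num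
        rw [this]; ring

lemma cnd_aux {n z0 z : ℕ} {P0 Q0 T0 P : Finset ℕ} {S B S' : ℕ → Finset (Fin 4 → ℤ)}
    (hQ0 : Q0 = (Icc 3 z0).filter Nat.Prime) (hQ0p : ∀ l ∈ Q0, l.Prime ∧ l ≠ 2 ∧ l ≤ z0)
    (hT0 : T0 = P0 ∪ Q0) (hS' : S' = fun l => if l ∈ P0 then S l else Gl n l \ B l)
    (hP : P = (Ioc z0 z).filter (fun l => l.Prime ∧ l ∉ P0))
    (hPp : ∀ p ∈ P, p.Prime ∧ z0 < p ∧ p ≤ z ∧ p ∉ P0) (hP2 : ∀ p ∈ P, p ≠ 2) (hJ0 : z0 ≤ z) (h10 : 2 ≤ z0) :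
    Cnd n P0 S B (z : ℝ) = ((preps n).filter (fun X => ∀ l ∈ T0, red l X ∈ S' l)).filter
      (fun X => ∀ p ∈ P, red p X ∉ B p) := by
  ext X
  unfold Cnd
  simp only [Finset.mem_filter]
  constructor
  · rintro ⟨h1, h2, h3⟩
    obtain ⟨hX1, hX2⟩ := mem_preps' h1
    refine ⟨⟨h1, fun l hl => ?_⟩, fun p hp => ?_⟩
    · rw [hS']
      simp only
      by_cases hlP : l ∈ P0
      · rw [if_pos hlP]; exact h2 l hlP
      · rw [if_neg hlP]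
        rw [hT0, Finset.mem_union] at hl
        obtain ⟨h4, h5, h6⟩ := hQ0p l (hl.resolve_left hlP)
        rw [Finset.mem_sdiff]
        refine ⟨red_mem n l h4 X hX1 hX2, h3 l h4 h5 hlP ?_⟩
        exact_mod_cast h6.trans hJ0
    · apply h3 p (hPp p hp).1 (hP2 p hp) (hPp p hp).2.2.2
      exact_mod_cast (hPp p hp).2.2.1
  · rintro ⟨⟨h1, h2⟩, h3⟩
    refine ⟨h1, fun l hl => ?_, fun l hl hl2 hlP hlz => ?_⟩
    · have := h2 l (by rw [hT0]; exact Finset.mem_union_left _ hl)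
      rw [hS'] at this
      simp only at this
      rwa [if_pos hl] at this
    · have hlz' : l ≤ z := by exact_mod_cast hlz
      by_cases hlz0 : l ≤ z0
      · have h4 : l ∈ Q0 := by
          rw [hQ0, Finset.mem_filter, Finset.mem_Icc]
          have := hl.two_le
          exact ⟨⟨by omega, hlz0⟩, hl⟩
        have := h2 l (by rw [hT0]; exact Finset.mem_union_right _ h4)
        rw [hS'] at this
        simp only at this
        rw [if_neg hlP, Finset.mem_sdiff] at this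
        exact this.2
      · apply h3 l
        rw [hP, Finset.mem_filter, Finset.mem_Ioc]
        exact ⟨⟨by omega, hlz'⟩, hl, hlP⟩

lemma mz_aux {n z0 z κ : ℕ} {P0 Q0 T0 P : Finset ℕ} {S B S' : ℕ → Finset (Fin 4 → ℤ)} {A : ℝ}
    (hQ0 : Q0 = (Icc 3 z0).filter Nat.Prime) (hQ0p : ∀ l ∈ Q0, l.Prime ∧ l ≠ 2 ∧ l ≤ z0)
    (hT0 : T0 = P0 ∪ Q0) (hS' : S' = fun l => if l ∈ P0 then S l else Gl n l \ B l)
    (hP : P = (Ioc z0 z).filter (fun l => l.Prime ∧ l ∉ P0))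
    (hPp : ∀ p ∈ P, p.Prime ∧ z0 < p ∧ p ≤ z ∧ p ∉ P0) (hJ0 : z0 ≤ z) (h10 : 2 ≤ z0)
    (hB : ∀ l : ℕ, l.Prime → l ≠ 2 → l ∉ P0 → B l ⊆ Gl n l ∧ B l ≠ Gl n l ∧ (B l).card ≤ κ * l ^ 2)
    (hA : A = ((preps n).card : ℝ) * ∏ l ∈ T0, (((S' l).card : ℝ) / (Gl n l).card)) :
    Mz n P0 S B z = A * ∏ p ∈ P, (1 - dn B n p) := by
  unfold Mz
  have h1 : (Icc 3 z).filter (fun l => l.Prime ∧ l ∉ P0) = (Q0 \ P0) ∪ P := by
    ext l
    rw [hQ0, hP]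
    simp only [Finset.mem_filter, Finset.mem_union, Finset.mem_sdiff, Finset.mem_Icc, Finset.mem_Ioc]
    constructor
    · rintro ⟨⟨h1, h2⟩, h3, h4⟩
      by_cases h5 : l ≤ z0
      · left; exact ⟨⟨⟨h1, h5⟩, h3⟩, h4⟩
      · right; exact ⟨⟨by omega, h2⟩, h3, h4⟩
    · rintro (⟨⟨⟨h1, h2⟩, h3⟩, h4⟩ | ⟨⟨h1, h2⟩, h3, h4⟩)
      · exact ⟨⟨h1, by omega⟩, h3, h4⟩
      · exact ⟨⟨by omega, h2⟩, h3, h4⟩
  have h2 : Disjoint (Q0 \ P0) P := by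
    rw [Finset.disjoint_left]
    intro a ha hb
    rw [Finset.mem_sdiff] at ha
    have h3 := (hQ0p a ha.1).2.2
    have h4 := (hPp a hb).2.1
    omega
  have h3 : ∏ l ∈ T0, (((S' l).card : ℝ) / (Gl n l).card) =
      (∏ l ∈ P0, ((S l).card : ℝ) / (Gl n l).card) * ∏ l ∈ Q0 \ P0, (1 - dn B n l) := by
    have h4 : T0 = P0 ∪ (Q0 \ P0) := by rw [hT0, Finset.union_sdiff_self_eq_union]
    rw [h4, Finset.prod_union Finset.disjoint_sdiff]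
    congr 1
    · apply Finset.prod_congr rfl
      intro l hl
      rw [hS']
      simp only
      rw [if_pos hl]
    · apply Finset.prod_congr rfl
      intro l hl
      rw [Finset.mem_sdiff] at hl
      rw [hS']
      simp only
      rw [if_neg hl.2]
      obtain ⟨h5, h6, -⟩ := hQ0p l hl.1
      obtain ⟨h7, h8, -⟩ := hB l h5 h6 hl.2
      exact dn_sdiff B n l h7 h8
  rw [h1, Finset.prod_union h2, hA, h3]
  ring

lemma err_aux {C0 J z n : ℕ} {C M0 : ℝ} {P : Finset ℕ} {err : Finset ℕ → ℝ} (hz : z = 2 ^ 2 ^ J)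
    (hPp : ∀ p ∈ P, p.Prime) (hC : 0 < C) (hM0r : 1 ≤ M0)
    (herr : err = fun T => C * M0 ^ 15 * ((∏ l ∈ T, l : ℕ) : ℝ) ^ 15 * (n : ℝ) ^ (19 / 20 : ℝ)) :
    ((J : ℝ) + 2) * ∑ T ∈ P.powerset.filter (fun T : Finset ℕ => ∏ p ∈ T, p ≤ z ^ (C0 * C0)), err T ≤
      2 * C * M0 ^ 15 * ((z : ℝ) ^ (16 * (C0 * C0) + 1) * (n : ℝ) ^ (19 / 20 : ℝ)) := by
  have hM00 : 0 < M0 := by linarith
  have h1 : ∀ T ∈ P.powerset.filter (fun T : Finset ℕ => ∏ p ∈ T, p ≤ z ^ (C0 * C0)), err T ≤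
      C * M0 ^ 15 * ((z : ℝ) ^ (C0 * C0)) ^ 15 * (n : ℝ) ^ (19 / 20 : ℝ) := by
    intro T hT
    have h2 := (Finset.mem_filter.1 hT).2
    have h3 : ((∏ l ∈ T, l : ℕ) : ℝ) ≤ (z : ℝ) ^ (C0 * C0) := by exact_mod_cast h2
    rw [herr]
    simp only
    gcongr
  have h2 := Finset.sum_le_sum h1
  rw [Finset.sum_const, nsmul_eq_mul] at h2
  have h3 := card_sets P hPp (z ^ (C0 * C0))
  have h4 : (((P.powerset.filter (fun T : Finset ℕ => ∏ p ∈ T, p ≤ z ^ (C0 * C0))).card : ℕ) : ℝ) ≤ (z : ℝ) ^ (C0 * C0) := by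
    exact_mod_cast h3
  have hJz : (J : ℝ) + 2 ≤ 2 * z := by
    have h5 : J + 2 ≤ 2 * z := by
      have h6 : J < 2 ^ J := Nat.lt_two_pow_self
      have h7 : 2 ^ J < 2 ^ 2 ^ J := Nat.lt_two_pow_self
      omega
    exact_mod_cast h5
  calc ((J : ℝ) + 2) * ∑ T ∈ P.powerset.filter (fun T : Finset ℕ => ∏ p ∈ T, p ≤ z ^ (C0 * C0)), err T
      ≤ (2 * z) * ((z : ℝ) ^ (C0 * C0) * (C * M0 ^ 15 * ((z : ℝ) ^ (C0 * C0)) ^ 15 * (n : ℝ) ^ (19 / 20 : ℝ))) := by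
        apply mul_le_mul hJz (h2.trans (by gcongr)) _ (by positivity)
        apply Finset.sum_nonneg
        intro T _
        rw [herr]
        positivity
    _ = _ := by ring

lemma av_aux {n κ M0 : ℕ} {z c1 c3 c5 A V : ℝ} {T0 : Finset ℕ} {S' : ℕ → Finset (Fin 4 → ℤ)}
    (hA : A = ((preps n).card : ℝ) * ∏ l ∈ T0, (((S' l).card : ℝ) / (Gl n l).card))
    (hM0 : M0 = ∏ l ∈ T0, l) (hT0p : ∀ l ∈ T0, l.Prime ∧ l ≠ 2 ∧ S' l ⊆ Gl n l ∧ (S' l).Nonempty)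
    (h5 : c1 * (n : ℝ) ^ (1 - 1 / 100 : ℝ) ≤ (preps n).card) (hV : c3 * z ^ (-(2 * κ : ℝ)) ≤ V)
    (est1 : c5 * (n : ℝ) ^ (98 / 100 : ℝ) ≤
      (c1 * (n : ℝ) ^ (1 - 1 / 100 : ℝ)) * (1 / (M0 : ℝ) ^ 4) * (c3 * z ^ (-(2 * κ : ℝ))))
    (hc1 : 0 ≤ c1) (hc3 : 0 ≤ c3) (hn : (1 : ℝ) ≤ n) (hz : 0 ≤ z) :
    c5 * (n : ℝ) ^ (98 / 100 : ℝ) ≤ A * V := by
  have h3 : 1 / (M0 : ℝ) ^ 4 ≤ ∏ l ∈ T0, (((S' l).card : ℝ) / (Gl n l).card) := by
    have h4 : 1 / (M0 : ℝ) ^ 4 = ∏ l ∈ T0, (1 / (l : ℝ) ^ 4) := by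
      rw [hM0]
      push_cast
      rw [Finset.prod_div_distrib, Finset.prod_const_one, Finset.prod_pow]
    rw [h4]
    apply Finset.prod_le_prod
    · intro l _; positivity
    · intro l hl
      obtain ⟨h5, h6, h7, h8⟩ := hT0p l hl
      have h9 : (0 : ℝ) < (Gl n l).card := by exact_mod_cast Finset.card_pos.2 (h8.mono h7)
      apply div_le_div₀ (by positivity) _ h9 _
      · exact_mod_cast Finset.card_pos.2 h8
      · exact_mod_cast card_Gl_le n l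
  have k1 : 0 ≤ c1 * (n : ℝ) ^ (1 - 1 / 100 : ℝ) := mul_nonneg hc1 (Real.rpow_nonneg (by linarith) _)
  have k2 : 0 ≤ 1 / (M0 : ℝ) ^ 4 := div_nonneg zero_le_one (pow_nonneg (Nat.cast_nonneg _) _)
  have k3 : 0 ≤ c3 * z ^ (-(2 * κ : ℝ)) := mul_nonneg hc3 (Real.rpow_nonneg hz _)
  refine est1.trans ?_
  rw [hA]
  refine mul_le_mul (mul_le_mul h5 h3 k2 (k1.trans h5)) hV k3 ?_
  exact mul_nonneg (k1.trans h5) (k2.trans h3)

theorem core (κ : ℕ) : ∃ t : ℕ, 2 ≤ t ∧ ∃ z0 : ℕ, 2 * κ + 10 ≤ z0 ∧ ∃ n0 : ℕ, ∀ n : ℕ, Odd n → n0 ≤ n →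
    ∀ (P0 : Finset ℕ) (S B : ℕ → Finset (Fin 4 → ℤ)),
    (∀ l ∈ P0, l.Prime ∧ l ≠ 2 ∧ S l ⊆ Gl n l ∧ (S l).Nonempty) →
    ((∏ l ∈ P0, l : ℕ) : ℝ) ≤ (n : ℝ) ^ (1 / (t : ℝ)) →
    (∀ l : ℕ, l.Prime → l ≠ 2 → l ∉ P0 → B l ⊆ Gl n l ∧ B l ≠ Gl n l ∧ (B l).card ≤ κ * l ^ 2) →
    ∀ J : ℕ, z0 ≤ 2 ^ 2 ^ J → ((2 ^ 2 ^ J : ℕ) : ℝ) ≤ (n : ℝ) ^ (2 / (t : ℝ)) →
      1 / 4 * Mz n P0 S B (2 ^ 2 ^ J) ≤ ((Cnd n P0 S B ((2 ^ 2 ^ J : ℕ) : ℝ)).card : ℝ) ∧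
      ((Cnd n P0 S B ((2 ^ 2 ^ J : ℕ) : ℝ)).card : ℝ) ≤ 2 * Mz n P0 S B (2 ^ 2 ^ J) := by
  classical
  obtain ⟨C0, hC0, hFL⟩ := Pool.Agent.H20R2.fLem κ
  obtain ⟨C, hC, hdist⟩ := distribution
  obtain ⟨c1, hc1, hlow⟩ := preps_lower (1 / 100) (by norm_num)
  obtain ⟨z0, hz0⟩ : ∃ z0 : ℕ, z0 = C0 + 2 * κ + 10 := ⟨_, rfl⟩
  obtain ⟨Q0, hQ0⟩ : ∃ Q : Finset ℕ, Q = (Icc 3 z0).filter Nat.Prime := ⟨_, rfl⟩
  obtain ⟨K0, hK0⟩ : ∃ K : ℕ, K = ∏ l ∈ Q0, l := ⟨_, rfl⟩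
  have hQ0p : ∀ l ∈ Q0, l.Prime ∧ l ≠ 2 ∧ l ≤ z0 := by
    intro l hl
    rw [hQ0, Finset.mem_filter, Finset.mem_Icc] at hl
    exact ⟨hl.2, by omega, hl.1.2⟩
  have hK0pos : 0 < K0 := by
    rw [hK0]
    exact Finset.prod_pos fun l hl => (hQ0p l hl).1.pos
  have hK0r : (1 : ℝ) ≤ K0 := by exact_mod_cast hK0pos
  obtain ⟨t, ht⟩ : ∃ t : ℕ, t = 100 * (2 * (16 * (C0 * C0) + 1) + 15 + 4 + 4 * κ) := ⟨_, rfl⟩
  have ht100 : 100 ≤ t := by omega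
  have htr : (0 : ℝ) < t := by
    have : 0 < t := by omega
    exact_mod_cast this
  obtain ⟨c3, hc3⟩ : ∃ c : ℝ, c = Real.exp (-(2 * κ)) := ⟨_, rfl⟩
  have hc3pos : 0 < c3 := by rw [hc3]; exact Real.exp_pos _
  obtain ⟨c5, hc5⟩ : ∃ c : ℝ, c = c1 / (K0 : ℝ) ^ 4 * c3 := ⟨_, rfl⟩
  have hc5pos : 0 < c5 := by rw [hc5]; positivity
  obtain ⟨n1, hn1⟩ := large_rpow (8 * C * (K0 : ℝ) ^ 15 / c5) (1 / 50) (by norm_num)
  refine ⟨t, by omega, z0, by omega, n1 + 1, ?_⟩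
  intro n hno hnbig P0 S B hS hM hB J hJ0 hJ1
  have hn : 1 ≤ n := hno.pos
  have hnr : (1 : ℝ) ≤ n := by exact_mod_cast hn
  have hn0 : (0 : ℝ) < n := by linarith
  have hn1' := hn1 n (by omega)
  obtain ⟨z, hz⟩ : ∃ z : ℕ, z = 2 ^ 2 ^ J := ⟨_, rfl⟩
  rw [← hz] at hJ0 hJ1 ⊢
  have hz2 : 2 ≤ z := by omega
  have hzr : (2 : ℝ) ≤ z := by exact_mod_cast hz2
  have hz0r : (0 : ℝ) < z := by linarith
  -- the small primes
  obtain ⟨T0, hT0⟩ : ∃ T : Finset ℕ, T = P0 ∪ Q0 := ⟨_, rfl⟩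
  obtain ⟨S', hS'⟩ : ∃ S' : ℕ → Finset (Fin 4 → ℤ), S' = fun l => if l ∈ P0 then S l else Gl n l \ B l := ⟨_, rfl⟩
  obtain ⟨M0, hM0⟩ : ∃ M : ℕ, M = ∏ l ∈ T0, l := ⟨_, rfl⟩
  have hT0p : ∀ l ∈ T0, l.Prime ∧ l ≠ 2 ∧ S' l ⊆ Gl n l ∧ (S' l).Nonempty := by
    intro l hl
    rw [hS']
    simp only
    by_cases hlP : l ∈ P0
    · rw [if_pos hlP]
      exact hS l hlP
    · rw [if_neg hlP]
      rw [hT0, Finset.mem_union] at hl
      have hlQ := hl.resolve_left hlP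
      obtain ⟨h1, h2, h3⟩ := hQ0p l hlQ
      obtain ⟨h4, h5, -⟩ := hB l h1 h2 hlP
      refine ⟨h1, h2, Finset.sdiff_subset, ?_⟩
      rw [Finset.sdiff_nonempty]
      exact fun h6 => h5 (Finset.Subset.antisymm h4 h6)
  have hM0pos : 0 < M0 := by
    rw [hM0]
    exact Finset.prod_pos fun l hl => (hT0p l hl).1.pos
  have hM0r : (1 : ℝ) ≤ M0 := by exact_mod_cast hM0pos
  have hM0le : (M0 : ℝ) ≤ (n : ℝ) ^ (1 / (t : ℝ)) * K0 := by
    have h1 : M0 * ∏ l ∈ P0 ∩ Q0, l = (∏ l ∈ P0, l) * K0 := by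
      rw [hM0, hT0, hK0]
      exact Finset.prod_union_inter
    have h2 : 1 ≤ ∏ l ∈ P0 ∩ Q0, l := Finset.prod_pos fun l hl => (hS l (Finset.mem_inter.1 hl).1).1.pos
    have h3 : M0 ≤ (∏ l ∈ P0, l) * K0 := by
      calc M0 = M0 * 1 := (mul_one _).symm
        _ ≤ M0 * ∏ l ∈ P0 ∩ Q0, l := Nat.mul_le_mul_left _ h2
        _ = _ := h1
    have h4 : (M0 : ℝ) ≤ ((∏ l ∈ P0, l : ℕ) : ℝ) * K0 := by exact_mod_cast h3
    exact h4.trans (mul_le_mul_of_nonneg_right hM (by linarith))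
  -- the large primes
  obtain ⟨P, hP⟩ : ∃ P : Finset ℕ, P = (Ioc z0 z).filter (fun l => l.Prime ∧ l ∉ P0) := ⟨_, rfl⟩
  have hPp : ∀ p ∈ P, p.Prime ∧ z0 < p ∧ p ≤ z ∧ p ∉ P0 := by
    intro p hp
    rw [hP, Finset.mem_filter, Finset.mem_Ioc] at hp
    exact ⟨hp.2.1, hp.1.1, hp.1.2, hp.2.2⟩
  have hP2 : ∀ p ∈ P, p ≠ 2 := fun p hp => by have := (hPp p hp).2.1; omega
  have hPB : ∀ p ∈ P, B p ⊆ Gl n p ∧ B p ≠ Gl n p ∧ (B p).card ≤ κ * p ^ 2 := fun p hp =>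
    hB p (hPp p hp).1 (hP2 p hp) (hPp p hp).2.2.2
  have hPT : ∀ p ∈ P, p ∉ T0 := by
    intro p hp hpT
    rw [hT0, Finset.mem_union] at hpT
    rcases hpT with h | h
    · exact (hPp p hp).2.2.2 h
    · have h1 := (hQ0p p h).2.2
      have h2 := (hPp p hp).2.1
      omega
  have hPne : ∀ p ∈ P, (Gl n p).Nonempty := by
    intro p hp
    by_contra hc
    rw [Finset.not_nonempty_iff_eq_empty] at hc
    have h1 := (hPB p hp).1
    rw [hc, Finset.subset_empty] at h1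
    exact (hPB p hp).2.1 (h1.trans hc.symm)
  have hgb : ∀ p ∈ P, 0 ≤ dn B n p ∧ dn B n p ≤ κ / ((p : ℝ) - 1) := fun p hp =>
    dn_bound B κ n p (hPp p hp).1 (hP2 p hp) (hPB p hp).2.2
  obtain ⟨A, hA⟩ : ∃ A : ℝ, A = ((preps n).card : ℝ) * ∏ l ∈ T0, (((S' l).card : ℝ) / (Gl n l).card) := ⟨_, rfl⟩
  have hA0 : 0 ≤ A := by rw [hA]; positivity
  obtain ⟨e, he⟩ := exists_injective_nat (Fin 4 → ℤ)
  obtain ⟨AS, hAS⟩ : ∃ AS : Finset (Fin 4 → ℤ), AS = (preps n).filter (fun X => ∀ l ∈ T0, red l X ∈ S' l) := ⟨_, rfl⟩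
  obtain ⟨Ω, hΩ⟩ : ∃ Ω : Finset ℕ, Ω = AS.map ⟨e, he⟩ := ⟨_, rfl⟩
  obtain ⟨hit, hhit⟩ : ∃ hit : ℕ → ℕ → Prop, hit = fun p m => ∀ X, e X = m → red p X ∈ B p := ⟨_, rfl⟩
  have hhit' : ∀ p X, hit p (e X) ↔ red p X ∈ B p := by
    intro p X
    rw [hhit]
    constructor
    · intro h; exact h X rfl
    · intro h Y hY
      rw [he hY]; exact h
  obtain ⟨err, herr⟩ : ∃ err : Finset ℕ → ℝ, err = fun T => C * (M0 : ℝ) ^ 15 * ((∏ l ∈ T, l : ℕ) : ℝ) ^ 15 * (n : ℝ) ^ (19 / 20 : ℝ) := ⟨_, rfl⟩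
  have hfl := hFL C0 J z0 P (dn B n) le_rfl (by omega)
    (fun p hp => ⟨(hPp p hp).1, (hPp p hp).2.1, by rw [← hz]; exact (hPp p hp).2.2.1⟩)
    (fun p hp => hgb p hp) Ω (fun _ => 1) hit A err (fun _ _ => zero_le_one) hA0
    (fun T hT _ => by
      have hdis : Disjoint T0 T := by
        rw [Finset.disjoint_left]
        intro a ha hb
        exact hPT a (hT hb) ha
      have h1 := hdist n 1 hn one_pos odd_one squarefree_one 0 (good_one n) (T0 ∪ T)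
        (fun l hl => by
          rw [Finset.mem_union] at hl
          rcases hl with hl | hl
          · obtain ⟨h2, h3, h4, h5⟩ := hT0p l hl
            exact ⟨h2, fun h => h2.one_lt.ne' (Nat.dvd_one.1 h), h3, h5.mono h4⟩
          · have h2 := (hPp l (hT hl)).1
            exact ⟨h2, fun h => h2.one_lt.ne' (Nat.dvd_one.1 h), hP2 l (hT hl), hPne l (hT hl)⟩)
        (fun l => if l ∈ T0 then S' l else B l) (fun l hl => by
          split_ifs with h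
          · exact (hT0p l h).2.2.1
          · rw [Finset.mem_union] at hl
            exact (hPB l (hT (hl.resolve_left h))).1)
      rw [prc_one, Finset.prod_union hdis, Finset.prod_union hdis] at h1
      have h2 : ∑ m ∈ Ω.filter (fun m => ∀ p ∈ T, hit p m), (1 : ℝ) =
          (((preps n).filter (fun X => ∀ l ∈ T0 ∪ T, red l X ∈ (if l ∈ T0 then S' l else B l))).card : ℝ) := by
        rw [Finset.sum_const, nsmul_eq_mul, mul_one, hΩ, Finset.filter_map, Finset.card_map]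
        congr 2
        ext X
        simp only [Finset.mem_filter, Function.comp, Function.Embedding.coeFn_mk, hhit', hAS]
        constructor
        · rintro ⟨⟨h3, h4⟩, h5⟩
          refine ⟨h3, fun l hl => ?_⟩
          split_ifs with h
          · exact h4 l h
          · exact h5 l ((Finset.mem_union.1 hl).resolve_left h)
        · rintro ⟨h3, h4⟩
          refine ⟨⟨h3, fun l hl => ?_⟩, fun l hl => ?_⟩
          · have := h4 l (Finset.mem_union_left _ hl)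
            rwa [if_pos hl] at this
          · have := h4 l (Finset.mem_union_right _ hl)
            rwa [if_neg (hPT l (hT hl))] at this
      rw [h2]
      have h3 : ∏ l ∈ T0, ((((if l ∈ T0 then S' l else B l) : Finset (Fin 4 → ℤ)).card : ℝ) / (Gl n l).card) =
          ∏ l ∈ T0, (((S' l).card : ℝ) / (Gl n l).card) :=
        Finset.prod_congr rfl fun l hl => by rw [if_pos hl]
      have h4 : ∏ l ∈ T, ((((if l ∈ T0 then S' l else B l) : Finset (Fin 4 → ℤ)).card : ℝ) / (Gl n l).card) =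
          ∏ l ∈ T, dn B n l :=
        Finset.prod_congr rfl fun l hl => by rw [if_neg (hPT l (hT hl))]; rfl
      rw [h3, h4, ← mul_assoc, ← hA, ← hM0] at h1
      refine h1.trans (le_of_eq ?_)
      rw [herr]
      push_cast
      ring)
  -- the sifted set
  have hmain : (Cnd n P0 S B (z : ℝ)) = AS.filter (fun X => ∀ p ∈ P, red p X ∉ B p) :=
    by
    rw [hAS]
    exact cnd_aux hQ0 hQ0p hT0 hS' hP hPp hP2 hJ0 (by omega)
  obtain ⟨V, hVdef⟩ : ∃ V : ℝ, V = ∏ p ∈ P, (1 - dn B n p) := ⟨_, rfl⟩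
  have hMz : Mz n P0 S B z = A * V := by
    rw [hVdef]
    exact mz_aux hQ0 hQ0p hT0 hS' hP hPp hJ0 (by omega) hB hA
  have hScard : ∑ m ∈ Ω.filter (fun m => ∀ p ∈ P, ¬ hit p m), (1 : ℝ) = ((Cnd n P0 S B (z : ℝ)).card : ℝ) := by
    rw [Finset.sum_const, nsmul_eq_mul, mul_one, hΩ, Finset.filter_map, Finset.card_map, hmain]
    congr 2
    ext X
    simp only [Finset.mem_filter, Function.comp, Function.Embedding.coeFn_mk, hhit']
  have hfl' : |((Cnd n P0 S B (z : ℝ)).card : ℝ) - A * V| ≤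
      (1 / 2 : ℝ) ^ C0 * (A * V) +
        ((J : ℝ) + 2) * ∑ T ∈ P.powerset.filter (fun T : Finset ℕ => ∏ p ∈ T, p ≤ z ^ (C0 * C0)), err T := by
    rw [← hScard, hz, hVdef]
    convert hfl using 3
  -- bounds
  have hz0le : 2 * (κ : ℝ) + 1 ≤ z0 := by
    rw [hz0]; push_cast
    have : (0:ℝ) ≤ C0 := by positivity
    linarith
  have hV : c3 * (z : ℝ) ^ (-(2 * κ : ℝ)) ≤ V := by
    rw [hc3, hVdef]
    apply prod_lower κ z (by omega) P (fun p hp => ⟨(hPp p hp).1.two_le, (hPp p hp).2.2.1⟩) (dn B n)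
      (fun p hp => (hgb p hp).1) (fun p hp => (hgb p hp).2)
    intro p hp
    refine (hgb p hp).2.trans ?_
    have h1 : (z0 : ℝ) < p := by exact_mod_cast (hPp p hp).2.1
    rw [div_le_div_iff₀ (by linarith) (by norm_num)]
    linarith
  have hV0 : 0 ≤ V := le_trans (mul_nonneg hc3pos.le (Real.rpow_nonneg hz0r.le _)) hV
  have hhalf : (1 / 2 : ℝ) ^ C0 ≤ 1 / 2 := by
    calc (1 / 2 : ℝ) ^ C0 ≤ (1 / 2 : ℝ) ^ 1 := pow_le_pow_of_le_one (by norm_num) (by norm_num) hC0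
      _ = 1 / 2 := pow_one _
  have hErr := err_aux (C0 := C0) (J := J) (z := z) (n := n) hz (fun p hp => (hPp p hp).1) hC hM0r herr
  obtain ⟨est1, est2⟩ := est C0 κ t ht C c1 c3 c5 K0 M0 z n hC hc1 hc3pos hc5 hc5pos hK0r hM0r hM0le hzr hJ1 hnr hn1'
  have hAV : c5 * (n : ℝ) ^ (98 / 100 : ℝ) ≤ A * V :=
    av_aux hA hM0 hT0p (hlow n hno) hV est1 hc1.le hc3pos.le hnr hz0r.le
  have hEV : 2 * C * (M0 : ℝ) ^ 15 * ((z : ℝ) ^ (16 * (C0 * C0) + 1) * (n : ℝ) ^ (19 / 20 : ℝ)) ≤ 1 / 4 * (A * V) :=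
    est2.trans (mul_le_mul_of_nonneg_left hAV (by norm_num))
  have hAV0 : 0 ≤ A * V := mul_nonneg hA0 hV0
  have h1 := abs_le.1 hfl'
  have h2 : (1 / 2 : ℝ) ^ C0 * (A * V) ≤ 1 / 2 * (A * V) := mul_le_mul_of_nonneg_right hhalf hAV0
  rw [hMz]
  constructor
  · linarith [h1.1]
  · linarith [h1.2]

lemma Cnd_anti (n : ℕ) (P0 : Finset ℕ) (S B : ℕ → Finset (Fin 4 → ℤ)) {z z' : ℝ} (h : z ≤ z') :
    Cnd n P0 S B z' ⊆ Cnd n P0 S B z := by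
  classical
  intro X hX
  simp only [Cnd, Finset.mem_filter] at hX ⊢
  exact ⟨hX.1, hX.2.1, fun l h1 h2 h3 h4 => hX.2.2 l h1 h2 h3 (h4.trans h)⟩

/-- the primes between two levels -/
def Rg (P0 : Finset ℕ) (y y' : ℕ) : Finset ℕ := (Ioc y y').filter (fun l => l.Prime ∧ l ∉ P0)

lemma Mz_split (n : ℕ) (P0 : Finset ℕ) (S B : ℕ → Finset (Fin 4 → ℤ)) {y y' : ℕ} (hy : 2 ≤ y) (h : y ≤ y') :
    Mz n P0 S B y' = Mz n P0 S B y * ∏ l ∈ Rg P0 y y', (1 - dn B n l) := by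
  unfold Mz Rg
  have h1 : (Icc 3 y').filter (fun l => l.Prime ∧ l ∉ P0) =
      (Icc 3 y).filter (fun l => l.Prime ∧ l ∉ P0) ∪ (Ioc y y').filter (fun l => l.Prime ∧ l ∉ P0) := by
    ext l
    simp only [Finset.mem_filter, Finset.mem_union, Finset.mem_Icc, Finset.mem_Ioc]
    constructor
    · rintro ⟨⟨h1, h2⟩, h3⟩
      by_cases h5 : l ≤ y
      · left; exact ⟨⟨h1, h5⟩, h3⟩
      · right; exact ⟨⟨by omega, h2⟩, h3⟩
    · rintro (⟨⟨h1, h2⟩, h3⟩ | ⟨⟨h1, h2⟩, h3⟩)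
      · exact ⟨⟨h1, by omega⟩, h3⟩
      · exact ⟨⟨by omega, h2⟩, h3⟩
  have h2 : Disjoint ((Icc 3 y).filter (fun l => l.Prime ∧ l ∉ P0)) ((Ioc y y').filter (fun l => l.Prime ∧ l ∉ P0)) := by
    rw [Finset.disjoint_left]
    intro a ha hb
    rw [Finset.mem_filter, Finset.mem_Icc] at ha
    rw [Finset.mem_filter, Finset.mem_Ioc] at hb
    omega
  rw [h1, Finset.prod_union h2]
  ring

lemma Mz_nonneg {n κ : ℕ} {P0 : Finset ℕ} {S B : ℕ → Finset (Fin 4 → ℤ)}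
    (hB : ∀ l : ℕ, l.Prime → l ≠ 2 → l ∉ P0 → B l ⊆ Gl n l ∧ B l ≠ Gl n l ∧ (B l).card ≤ κ * l ^ 2) (y : ℕ) :
    0 ≤ Mz n P0 S B y := by
  unfold Mz
  apply mul_nonneg
  · apply mul_nonneg (Nat.cast_nonneg _)
    exact Finset.prod_nonneg fun l _ => div_nonneg (Nat.cast_nonneg _) (Nat.cast_nonneg _)
  · apply Finset.prod_nonneg
    intro l hl
    rw [Finset.mem_filter, Finset.mem_Icc] at hl
    have := dn_le_one B n l (hB l hl.2.1 (by omega) hl.2.2).1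
    linarith

lemma pow_fac (κ : ℕ) (l : ℝ) (hl : 4 * (κ : ℝ) + 4 ≤ l) : (1 - 1 / l) ^ (4 * κ) ≤ 1 - κ / (l - 1) := by
  have hκ : (0 : ℝ) ≤ κ := Nat.cast_nonneg _
  have hl0 : 0 < l := by linarith
  have h1 : 1 + ((4 * κ : ℕ) : ℝ) * (1 / l) ≤ (1 + 1 / l) ^ (4 * κ) :=
    one_add_mul_le_pow (by have : 0 ≤ 1 / l := by positivity
                           linarith) _
  have h2 : (1 - 1 / l) ^ (4 * κ) * (1 + 1 / l) ^ (4 * κ) ≤ 1 := by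
    rw [← mul_pow]
    apply pow_le_one₀
    · have h3 : 1 / l ≤ 1 := by rw [div_le_one hl0]; linarith
      have h4 : 0 ≤ 1 / l := by positivity
      apply mul_nonneg <;> linarith
    · have h4 : 0 ≤ 1 / l := by positivity
      nlinarith
  have h3 : 0 ≤ (1 - 1 / l) ^ (4 * κ) := by
    apply pow_nonneg
    have h3 : 1 / l ≤ 1 := by rw [div_le_one hl0]; linarith
    linarith
  have h4 : (1 - 1 / l) ^ (4 * κ) * (1 + 4 * κ / l) ≤ 1 := by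
    have h5 : 1 + 4 * (κ : ℝ) / l ≤ (1 + 1 / l) ^ (4 * κ) := by
      refine le_trans (le_of_eq ?_) h1
      push_cast
      ring
    exact (mul_le_mul_of_nonneg_left h5 h3).trans h2
  have h5 : (0 : ℝ) < 1 + 4 * κ / l := by positivity
  have h6 : (1 - 1 / l) ^ (4 * κ) ≤ 1 / (1 + 4 * κ / l) := by
    rw [le_div_iff₀ h5]; exact h4
  refine h6.trans ?_
  rw [div_le_iff₀ h5]
  have h7 : 0 < l - 1 := by linarith
  have h8 : (1 - κ / (l - 1)) * (1 + 4 * κ / l) = ((l - 1 - κ) * (l + 4 * κ)) / ((l - 1) * l) := by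
    field_simp
  rw [h8, le_div_iff₀ (mul_pos h7 hl0)]
  nlinarith

lemma tail {n κ : ℕ} {P0 : Finset ℕ} {B : ℕ → Finset (Fin 4 → ℤ)} {y y' : ℕ} (hy : 4 * κ + 4 ≤ y) (h : y ≤ y')
    (hB : ∀ l : ℕ, l.Prime → l ≠ 2 → l ∉ P0 → B l ⊆ Gl n l ∧ B l ≠ Gl n l ∧ (B l).card ≤ κ * l ^ 2) :
    (V1 y' / V1 y) ^ (4 * κ) ≤ ∏ l ∈ Rg P0 y y', (1 - dn B n l) := by
  have hsplit : V1 y' = V1 y * ∏ l ∈ Pr y y', (1 - 1 / (l : ℝ)) := by
    unfold V1
    have h1 : Pr 0 y' = Pr 0 y ∪ Pr y y' := by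
      ext l
      rw [Finset.mem_union, Pr_mem, Pr_mem, Pr_mem]
      constructor
      · rintro ⟨⟨h1, h2⟩, h3⟩
        by_cases h5 : l ≤ y
        · left; exact ⟨⟨h1, h5⟩, h3⟩
        · right; exact ⟨⟨by omega, h2⟩, h3⟩
      · rintro (⟨⟨h1, h2⟩, h3⟩ | ⟨⟨h1, h2⟩, h3⟩)
        · exact ⟨⟨h1, by omega⟩, h3⟩
        · exact ⟨⟨by omega, h2⟩, h3⟩
    have h2 : Disjoint (Pr 0 y) (Pr y y') := by
      rw [Finset.disjoint_left]
      intro a ha hb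
      rw [Pr_mem] at ha hb
      omega
    rw [h1, Finset.prod_union h2]
  have hfac : ∀ l ∈ Pr y y', 0 ≤ 1 - 1 / (l : ℝ) ∧ 1 - 1 / (l : ℝ) ≤ 1 := by
    intro l hl
    rw [Pr_mem] at hl
    have h1 : (1 : ℝ) ≤ l := by exact_mod_cast hl.2.one_lt.le
    have h2 : 1 / (l : ℝ) ≤ 1 := by rw [div_le_one (by linarith)]; exact h1
    have h3 : 0 ≤ 1 / (l : ℝ) := by positivity
    constructor <;> linarith
  have hsub : Rg P0 y y' ⊆ Pr y y' := by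
    intro l hl
    unfold Rg at hl
    rw [Finset.mem_filter, Finset.mem_Ioc] at hl
    rw [Pr_mem]
    exact ⟨hl.1, hl.2.1⟩
  have h1 : V1 y' / V1 y ≤ ∏ l ∈ Rg P0 y y', (1 - 1 / (l : ℝ)) := by
    rw [hsplit, mul_div_cancel_left₀ _ (V1_pos y).ne', ← Finset.prod_sdiff hsub]
    apply mul_le_of_le_one_left
    · exact Finset.prod_nonneg fun l hl => (hfac l (hsub hl)).1
    · exact Finset.prod_le_one (fun l hl => (hfac l (Finset.mem_sdiff.1 hl).1).1)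
        (fun l hl => (hfac l (Finset.mem_sdiff.1 hl).1).2)
  calc (V1 y' / V1 y) ^ (4 * κ) ≤ (∏ l ∈ Rg P0 y y', (1 - 1 / (l : ℝ))) ^ (4 * κ) :=
        pow_le_pow_left₀ (div_nonneg (V1_pos y').le (V1_pos y).le) h1 _
    _ = ∏ l ∈ Rg P0 y y', (1 - 1 / (l : ℝ)) ^ (4 * κ) := (Finset.prod_pow _ _ _).symm
    _ ≤ _ := by
      apply Finset.prod_le_prod
      · intro l hl
        exact pow_nonneg (hfac l (hsub hl)).1 _
      · intro l hl
        unfold Rg at hl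
        rw [Finset.mem_filter, Finset.mem_Ioc] at hl
        have h2 : 4 * (κ : ℝ) + 4 ≤ l := by
          have : 4 * κ + 4 ≤ l := by omega
          exact_mod_cast this
        have h3 := (dn_bound B κ n l hl.2.1 (by omega) (hB l hl.2.1 (by omega) hl.2.2).2.2).2
        have h4 := pow_fac κ l h2
        linarith

lemma exists_scale' (z : ℝ) (hz : 2 < z) : ∃ J : ℕ, ((2 ^ 2 ^ J : ℕ) : ℝ) < z ∧ z ≤ ((2 ^ 2 ^ (J + 1) : ℕ) : ℝ) := by
  classical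
  have hex : ∃ J : ℕ, z ≤ ((2 ^ 2 ^ J : ℕ) : ℝ) := by
    refine ⟨⌈z⌉₊, (Nat.le_ceil z).trans ?_⟩
    have h1 : ⌈z⌉₊ ≤ 2 ^ 2 ^ ⌈z⌉₊ :=
      (Nat.lt_two_pow_self (n := ⌈z⌉₊)).le.trans (Nat.lt_two_pow_self (n := 2 ^ ⌈z⌉₊)).le
    exact_mod_cast h1
  have h1 := Nat.find_spec hex
  have h0 : Nat.find hex ≠ 0 := by
    intro h
    rw [h] at h1
    norm_num at h1
    linarith
  refine ⟨Nat.find hex - 1, ?_, ?_⟩
  · have := Nat.find_min hex (m := Nat.find hex - 1) (by omega)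
    exact not_le.1 this
  · rw [show Nat.find hex - 1 + 1 = Nat.find hex by omega]
    exact h1

end Pool.Agent.Q117.FQ.GSa

namespace Pool.Agent.Q117.FQ

open Finset Filter
open Pool.Agent.W65.FS
open Pool.Agent.Y843.HS (Pr Pr_mem Pr_prime)
open Pool.Agent.Y843.HG (V1 V1_bounds V1_pos)
open Pool.Agent.Q117.FQ.GSa

/-- **GS** -/
theorem gs : St_GS := by
  intro κ
  obtain ⟨t, ht, z0, hz0, n0, hcore⟩ := core κ
  obtain ⟨c, C, hc, hC, hV⟩ := V1_bounds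
  refine ⟨t, by omega, fun T hT => ?_⟩
  have hT0 : (0 : ℝ) < T := by
    have : 0 < T := by omega
    exact_mod_cast this
  have htr : (0 : ℝ) < t := by
    have : 0 < t := by omega
    exact_mod_cast this
  obtain ⟨δ, hδ⟩ : ∃ δ : ℝ, δ = c / C / (2 * T) := ⟨_, rfl⟩
  have hδ0 : 0 < δ := by rw [hδ]; positivity
  obtain ⟨n1, hn1⟩ := large_rpow (((z0 + 4 * κ + 4 : ℕ) : ℝ) ^ 2) (1 / (T : ℝ)) (by positivity)
  refine ⟨1 / 4, by norm_num, 2 / δ ^ (4 * κ), by positivity, n0 + n1 + 2, ?_⟩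
  intro n hno hn P0 S B hS hM hB z hz1 hz2
  have hnr : (1 : ℝ) ≤ n := by exact_mod_cast hno.pos
  have hn0 : (0 : ℝ) < n := by linarith
  have hbig : ((z0 + 4 * κ + 4 : ℕ) : ℝ) ^ 2 ≤ z := (hn1 n (by omega)).trans hz1
  have hz4 : 2 < z := by
    have h1 : (4 : ℝ) ≤ ((z0 + 4 * κ + 4 : ℕ) : ℝ) := by
      have : 4 ≤ z0 + 4 * κ + 4 := by omega
      exact_mod_cast this
    nlinarith
  have hz0' : 0 < z := by linarith
  obtain ⟨J, hJ1, hJ2⟩ := exists_scale' z hz4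
  obtain ⟨w, hw⟩ : ∃ w : ℕ, w = 2 ^ 2 ^ J := ⟨_, rfl⟩
  have hw2 : 2 ^ 2 ^ (J + 1) = w ^ 2 := by rw [hw, pow_succ, pow_mul]
  have hwr : (0 : ℝ) ≤ (w : ℝ) := Nat.cast_nonneg _
  rw [hw2] at hJ2
  rw [← hw] at hJ1
  have hww : z0 + 4 * κ + 4 ≤ w := by
    by_contra hc
    push Not at hc
    have h1 : (w : ℝ) < ((z0 + 4 * κ + 4 : ℕ) : ℝ) := by exact_mod_cast hc
    have h2 : (w : ℝ) ^ 2 < ((z0 + 4 * κ + 4 : ℕ) : ℝ) ^ 2 := pow_lt_pow_left₀ h1 hwr (by norm_num)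
    push_cast at hJ2 h2 hbig
    linarith
  have hww2 : w ≤ w ^ 2 := by nlinarith
  have hsq : (n : ℝ) ^ (2 / (t : ℝ)) = ((n : ℝ) ^ (1 / (t : ℝ))) ^ 2 := by
    rw [← Real.rpow_natCast, ← Real.rpow_mul hn0.le]
    congr 1
    push_cast
    ring
  have hone : 1 ≤ (n : ℝ) ^ (1 / (t : ℝ)) := Real.one_le_rpow hnr (by positivity)
  have hwn : (w : ℝ) ≤ (n : ℝ) ^ (1 / (t : ℝ)) := hJ1.le.trans hz2
  have hw2n : ((w ^ 2 : ℕ) : ℝ) ≤ (n : ℝ) ^ (2 / (t : ℝ)) := by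
    rw [hsq]
    push_cast
    exact pow_le_pow_left₀ hwr hwn 2
  have hw2le : w ^ 2 ≤ n := by
    have h1 : ((w ^ 2 : ℕ) : ℝ) ≤ n := by
      refine hw2n.trans ?_
      calc (n : ℝ) ^ (2 / (t : ℝ)) ≤ (n : ℝ) ^ (1 : ℝ) := by
            apply Real.rpow_le_rpow_of_exponent_le hnr
            rw [div_le_one htr]
            exact_mod_cast ht
        _ = n := Real.rpow_one _
    exact_mod_cast h1
  rw [Mn_eq]
  constructor
  · have h1 := (hcore n hno (by omega) P0 S B hS hM hB (J + 1) (by rw [hw2]; omega) (by rw [hw2]; exact hw2n)).1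
    rw [hw2] at h1
    have h2 : ((Cnd n P0 S B ((w ^ 2 : ℕ) : ℝ)).card : ℝ) ≤ (Cnd n P0 S B z).card := by
      exact_mod_cast Finset.card_le_card (Cnd_anti n P0 S B hJ2)
    have h3 : Mz n P0 S B n ≤ Mz n P0 S B (w ^ 2) := by
      rw [Mz_split n P0 S B (by omega : 2 ≤ w ^ 2) hw2le]
      apply mul_le_of_le_one_right (Mz_nonneg hB _)
      apply Finset.prod_le_one
      · intro l hl
        unfold Rg at hl
        rw [Finset.mem_filter, Finset.mem_Ioc] at hl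
        have := dn_le_one B n l (hB l hl.2.1 (by omega) hl.2.2).1
        linarith
      · intro l _
        have := dn_nonneg B n l
        linarith
    linarith
  · have h1 := (hcore n hno (by omega) P0 S B hS hM hB J (by omega) (by
      rw [← hw, hsq]
      refine hwn.trans ?_
      nlinarith)).2
    rw [← hw] at h1
    have h2 : ((Cnd n P0 S B z).card : ℝ) ≤ (Cnd n P0 S B (w : ℝ)).card := by
      exact_mod_cast Finset.card_le_card (Cnd_anti n P0 S B hJ1.le)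
    have h3 := tail (n := n) (κ := κ) (P0 := P0) (B := B) (y := w) (y' := n) (by omega) (by omega) hB
    have h4 := (hV n (by omega)).1
    have h5 := (hV w (by omega)).2
    have hw1 : (1 : ℝ) < w := by
      have : 1 < w := by omega
      exact_mod_cast this
    have hlw : 0 < Real.log w := Real.log_pos hw1
    have hln : Real.log n ≤ 2 * T * Real.log w := by
      have h6 : (n : ℝ) ^ (1 / (T : ℝ)) ≤ (w : ℝ) ^ 2 := by
        refine hz1.trans ?_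
        exact_mod_cast hJ2
      have h7 := Real.log_le_log (Real.rpow_pos_of_pos hn0 _) h6
      rw [Real.log_rpow hn0, Real.log_pow] at h7
      have h8 : Real.log n = T * (1 / (T : ℝ) * Real.log n) := by
        field_simp
      rw [h8]
      calc (T : ℝ) * (1 / (T : ℝ) * Real.log n) ≤ T * (((2 : ℕ) : ℝ) * Real.log w) :=
            mul_le_mul_of_nonneg_left h7 hT0.le
        _ = _ := by push_cast; ring
    have hln0 : 0 < Real.log n := by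
      apply Real.log_pos
      have : 1 < n := by omega
      exact_mod_cast this
    have h9 : δ ≤ V1 n / V1 w := by
      rw [le_div_iff₀ (V1_pos w)]
      refine le_trans ?_ h4
      rw [le_div_iff₀ hln0]
      calc δ * V1 w * Real.log n ≤ δ * (C / Real.log w) * (2 * T * Real.log w) := by
            apply mul_le_mul (mul_le_mul_of_nonneg_left h5 hδ0.le) hln hln0.le
            positivity
        _ = c := by
          rw [hδ]
          field_simp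
    have h10 : δ ^ (4 * κ) ≤ ∏ l ∈ Rg P0 w n, (1 - dn B n l) := (pow_le_pow_left₀ hδ0.le h9 _).trans h3
    have h11 : δ ^ (4 * κ) * Mz n P0 S B w ≤ Mz n P0 S B n := by
      rw [Mz_split n P0 S B (by omega : 2 ≤ w) (by omega : w ≤ n), mul_comm]
      exact mul_le_mul_of_nonneg_left h10 (Mz_nonneg hB _)
    have h12 : (0 : ℝ) < δ ^ (4 * κ) := by positivity
    calc ((Cnd n P0 S B z).card : ℝ) ≤ 2 * Mz n P0 S B w := h2.trans h1
      _ = 2 / δ ^ (4 * κ) * (δ ^ (4 * κ) * Mz n P0 S B w) := by field_simp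
      _ ≤ _ := mul_le_mul_of_nonneg_left h11 (by positivity)

end Pool.Agent.Q117.FQ
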