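import Pool.Agent.Q117.FQ.Stm

/-!
Project FQ: every value not divisible by `l` is attained on the sphere modulo `l`.
-/

set_option autoImplicit false

namespace Pool.Agent.Q117.FQ

open Finset Filter
open Pool.Agent.W65.FS

namespace HIT

set_option synthInstance.maxSize 1000 in
set_option maxRecDepth 100000 in
lemma small3 : ∀ n : Fin 3, ∀ t : Fin 2, ∃ x y z w : Fin 3, (x.val ^ 2 + y.val ^ 2 + z.val ^ 2 + w.val ^ 2) % 3 = n.val ∧
    (x.val ≠ 0 ∨ y.val ≠ 0 ∨ z.val ≠ 0 ∨ w.val ≠ 0) ∧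
    (x.val ^ 2 + 3 * y.val ^ 2 + 5 * z.val ^ 2 + 7 * w.val ^ 2) % 3 = t.val + 1 := by decide

set_option synthInstance.maxSize 1000 in
set_option maxRecDepth 100000 in
lemma small5 : ∀ n : Fin 5, ∀ t : Fin 4, ∃ x y z w : Fin 5, (x.val ^ 2 + y.val ^ 2 + z.val ^ 2 + w.val ^ 2) % 5 = n.val ∧
    (x.val ≠ 0 ∨ y.val ≠ 0 ∨ z.val ≠ 0 ∨ w.val ≠ 0) ∧
    (x.val ^ 2 + 3 * y.val ^ 2 + 5 * z.val ^ 2 + 7 * w.val ^ 2) % 5 = t.val + 1 := by decide

lemma wit (l n : ℕ) (τ : ℤ) (x y z w : ℕ) (hx : x < l) (hy : y < l) (hz : z < l) (hw : w < l)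
    (h1 : (x ^ 2 + y ^ 2 + z ^ 2 + w ^ 2) % l = n % l) (h2 : x ≠ 0 ∨ y ≠ 0 ∨ z ≠ 0 ∨ w ≠ 0)
    (h3 : ((x ^ 2 + 3 * y ^ 2 + 5 * z ^ 2 + 7 * w ^ 2 : ℕ) : ℤ) ≡ τ [ZMOD l]) :
    (Tl n l τ).Nonempty := by
  have hnd : ∀ t : ℕ, t ≠ 0 → t < l → ¬ (l : ℤ) ∣ (t : ℤ) := by
    intro t ht0 htl h
    have : l ∣ t := by exact_mod_cast h
    exact absurd (Nat.le_of_dvd (Nat.pos_of_ne_zero ht0) this) (by omega)
  refine ⟨![(x : ℤ), y, z, w], ?_⟩
  unfold Tl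
  rw [Finset.mem_filter, mem_Gl]
  refine ⟨⟨?_, ?_, ?_⟩, ?_⟩
  · intro i
    fin_cases i <;> simp <;> omega
  · rw [Fin.sum_univ_four]
    simp only [Matrix.cons_val_zero, Matrix.cons_val_one, Matrix.cons_val]
    have h : (n : ℕ) ≡ x ^ 2 + y ^ 2 + z ^ 2 + w ^ 2 [MOD l] := h1.symm
    have h := (Nat.modEq_iff_dvd.1 h)
    push_cast at h
    exact h
  · rcases h2 with h | h | h | h
    · exact ⟨0, by simpa using hnd x h hx⟩
    · exact ⟨1, by simpa using hnd y h hy⟩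
    · exact ⟨2, by simpa using hnd z h hz⟩
    · exact ⟨3, by simpa using hnd w h hw⟩
  · have h5 := (Int.modEq_iff_dvd.1 h3.symm)
    push_cast at h5
    simpa [pf] using h5

lemma red (l : ℕ) (hl : 0 < l) (τ : ℤ) (h : ¬ (l : ℤ) ∣ τ) : ∃ t : Fin l, t.val ≠ 0 ∧ (t.val : ℤ) ≡ τ [ZMOD l] := by
  have hl' : (0 : ℤ) < l := by exact_mod_cast hl
  have h0 := Int.emod_nonneg τ hl'.ne'
  have h1 := Int.emod_lt_of_pos τ hl'
  refine ⟨⟨(τ % l).toNat, by omega⟩, ?_, ?_⟩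
  · intro h2
    apply h
    apply Int.dvd_of_emod_eq_zero
    have : (τ % l).toNat = 0 := h2
    omega
  · show (((τ % l).toNat : ℕ) : ℤ) ≡ τ [ZMOD l]
    rw [Int.toNat_of_nonneg h0]
    exact Int.mod_modEq _ _

end HIT

theorem hit : St_HIT := by
  intro hc l hl hl2 n τ hτ
  by_cases h3 : l = 3
  · subst h3
    obtain ⟨t, ht0, ht⟩ := HIT.red 3 (by norm_num) τ hτ
    obtain ⟨x, y, z, w, h1, h2, h3⟩ := HIT.small3 ⟨n % 3, Nat.mod_lt _ (by norm_num)⟩ ⟨t.val - 1, by omega⟩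
    refine HIT.wit 3 n τ x y z w x.2 y.2 z.2 w.2 h1 h2 (Int.ModEq.trans ?_ ht)
    have h4 : (x.val ^ 2 + 3 * y.val ^ 2 + 5 * z.val ^ 2 + 7 * w.val ^ 2) % 3 = t.val := by
      rw [h3]; show t.val - 1 + 1 = t.val; omega
    rw [← h4]
    push_cast
    exact (Int.mod_modEq _ _).symm
  by_cases h5 : l = 5
  · subst h5
    obtain ⟨t, ht0, ht⟩ := HIT.red 5 (by norm_num) τ hτ
    obtain ⟨x, y, z, w, h1, h2, h3⟩ := HIT.small5 ⟨n % 5, Nat.mod_lt _ (by norm_num)⟩ ⟨t.val - 1, by omega⟩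
    refine HIT.wit 5 n τ x y z w x.2 y.2 z.2 w.2 h1 h2 (Int.ModEq.trans ?_ ht)
    have h4 : (x.val ^ 2 + 3 * y.val ^ 2 + 5 * z.val ^ 2 + 7 * w.val ^ 2) % 5 = t.val := by
      rw [h3]; show t.val - 1 + 1 = t.val; omega
    rw [← h4]
    push_cast
    exact (Int.mod_modEq _ _).symm
  have h7 : 7 ≤ l := by
    have h2 := hl.two_le
    by_contra hlt
    have h46 : l = 4 ∨ l = 6 := by omega
    rcases h46 with h | h
    · subst h; exact absurd hl (by decide)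
    · subst h; exact absurd hl (by decide)
  rw [Finset.nonempty_iff_ne_empty]
  intro he
  have h := hc l hl (by omega) n τ (fun h => hτ h.2)
  rw [he, Finset.card_empty, Nat.cast_zero, zero_sub, abs_neg, abs_of_nonneg (by positivity)] at h
  have h8 : (7 : ℝ) ≤ l := by exact_mod_cast h7
  nlinarith

end Pool.Agent.Q117.FQ
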