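import Pool.Agent.Q117.FQ.Stm

set_option autoImplicit false

/-!
Project FQ (helper117), job LOC (helper222): the singular product of a union of two sets of shifts.
-/

namespace Pool.Agent.Q117.FQ.LOC

open Finset
open Pool.Agent.W65.FS
open Pool.Agent.Q117.LF (GN oF)

theorem mem_BE (E : Finset ℤ) (n l : ℕ) (c : Fin 4 → ℤ) : c ∈ BE E n l ↔ c ∈ Gl n l ∧ ∃ e ∈ E, (l : ℤ) ∣ pf c + e := by
  unfold BE
  rw [Finset.mem_filter]

theorem mem_Tl (n l : ℕ) (τ : ℤ) (c : Fin 4 → ℤ) : c ∈ Tl n l τ ↔ c ∈ Gl n l ∧ (l : ℤ) ∣ pf c - τ := by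
  unfold Tl
  rw [Finset.mem_filter]

theorem BE_sub (E : Finset ℤ) (n l : ℕ) : BE E n l ⊆ Gl n l := fun c hc => ((mem_BE E n l c).1 hc).1

theorem BE_mono {E D : Finset ℤ} (h : E ⊆ D) (n l : ℕ) : BE E n l ⊆ BE D n l := by
  intro c hc
  obtain ⟨h1, e, he, h2⟩ := (mem_BE E n l c).1 hc
  exact (mem_BE D n l c).2 ⟨h1, e, h he, h2⟩

theorem gE_nonneg (E : Finset ℤ) (n l : ℕ) : 0 ≤ gE E n l := by
  unfold gE
  positivity

theorem gE_le_one (E : Finset ℤ) (n l : ℕ) : gE E n l ≤ 1 := by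
  unfold gE
  apply div_le_one_of_le₀ _ (by positivity)
  exact_mod_cast Finset.card_le_card (BE_sub E n l)

theorem gE_mono {E D : Finset ℤ} (h : E ⊆ D) (n l : ℕ) : gE E n l ≤ gE D n l := by
  unfold gE
  apply div_le_div_of_nonneg_right _ (by positivity)
  exact_mod_cast Finset.card_le_card (BE_mono h n l)

theorem card_BE (E : Finset ℤ) (n l : ℕ) (hl : l.Prime) (hl2 : l ≠ 2) : (BE E n l).card ≤ E.card * (4 * l ^ 2) := by
  classical
  have h1 : BE E n l ⊆ E.biUnion (fun e => (Gl n l).filter (fun c => (l : ℤ) ∣ pf c - (-e))) := by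
    intro c hc
    obtain ⟨h1, e, he, h2⟩ := (mem_BE E n l c).1 hc
    rw [Finset.mem_biUnion]
    refine ⟨e, he, Finset.mem_filter.2 ⟨h1, ?_⟩⟩
    rwa [sub_neg_eq_add]
  refine (Finset.card_le_card h1).trans (Finset.card_biUnion_le_card_mul _ _ _ ?_)
  intro e _
  exact bad_tau l hl hl2 n (-e) _ (fun c hc => Finset.mem_filter.1 hc)

/-- upper bound for the number of the classes on the sphere -/
theorem card_Gl_up (l : ℕ) (hlp : l.Prime) (hl2 : l ≠ 2) (n : ℕ) : ((Gl n l).card : ℝ) ≤ (l : ℝ) ^ 3 + (l : ℝ) ^ 2 := by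
  classical
  have : NeZero l := ⟨hlp.ne_zero⟩
  have : Fact l.Prime := ⟨hlp⟩
  have hlo : Odd l := hlp.odd_of_ne_two hl2
  have hl0 : (0 : ℝ) < l := by exact_mod_cast hlp.pos
  set S := univ.filter (fun u : Fin 4 → ZMod l => ∑ i, u i ^ 2 = (n : ZMod l)) with hS
  have h1 := count_quad l hlo (n : ZMod l)
  rw [← hS] at h1
  have h2 : (S.card : ℝ) * l = (l : ℝ) ^ 4 + (l : ℝ) ^ 2 * ((if (n : ZMod l) = 0 then (l : ℝ) else 0) - 1) := by
    have h3 : (((S.card : ℝ) * l : ℝ) : ℂ) = (((l : ℝ) ^ 4 + (l : ℝ) ^ 2 * ((if (n : ZMod l) = 0 then (l : ℝ) else 0) - 1) : ℝ) : ℂ) := by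
      push_cast
      rw [h1]
      split_ifs <;> push_cast <;> ring
    exact_mod_cast h3
  have h4 : (Gl n l).card ≤ S.card := by
    apply Finset.card_le_card_of_injOn (fun c i => ((c i : ℤ) : ZMod l))
    · intro c hc
      rw [Finset.mem_coe, mem_Gl] at hc
      rw [Finset.mem_coe, hS, Finset.mem_filter]
      refine ⟨Finset.mem_univ _, ?_⟩
      have h5 := (ZMod.intCast_zmod_eq_zero_iff_dvd _ l).2 hc.2.1
      push_cast at h5
      exact sub_eq_zero.1 h5
    · intro c hc c' hc' h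
      rw [Finset.mem_coe, mem_Gl] at hc hc'
      funext i
      have h5 := congrArg ZMod.val (congrFun h i)
      simp only at h5
      have h6 : (((c i : ZMod l).val : ℕ) : ℤ) = (((c' i : ZMod l).val : ℕ) : ℤ) := by rw [h5]
      rw [ZMod.val_intCast, ZMod.val_intCast, Int.emod_eq_of_lt (hc.1 i).1 (hc.1 i).2, Int.emod_eq_of_lt (hc'.1 i).1 (hc'.1 i).2] at h6
      exact h6
  have h4' : ((Gl n l).card : ℝ) ≤ (S.card : ℝ) := by exact_mod_cast h4
  have h7 : (S.card : ℝ) * l ≤ ((l : ℝ) ^ 3 + (l : ℝ) ^ 2) * l := by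
    rw [h2]
    split_ifs
    · nlinarith [sq_nonneg (l : ℝ)]
    · nlinarith [sq_nonneg (l : ℝ), pow_pos hl0 3]
  exact h4'.trans (le_of_mul_le_mul_right h7 hl0)

open Classical in
/-- the lower bound for the union at a good prime -/
theorem good_card (hC : St_CNT) (n : ℕ) (E F : Finset ℤ) (s : ℤ) (l : ℕ) (hl : l.Prime) (h5 : 5 ≤ l)
    (h1 : ∀ f ∈ F, ¬ ((l : ℤ) ∣ n ∧ (l : ℤ) ∣ s + f)) (h2 : ∀ f ∈ F, ∀ e ∈ E, ¬ (l : ℤ) ∣ s + f - e) :
    ((BE E n l).card : ℝ) + (oF F l : ℝ) * ((l : ℝ) ^ 2 - 6 * l) ≤ ((BE (E ∪ F.image (fun f => s + f)) n l).card : ℝ) := by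
  set R := F.image (fun f : ℤ => f % (l : ℤ)) with hR
  have hlz : (0 : ℤ) < l := by exact_mod_cast hl.pos
  have hmod : ∀ r ∈ R, ∃ f ∈ F, (l : ℤ) ∣ f - r ∧ 0 ≤ r ∧ r < l := by
    intro r hr
    rw [hR, Finset.mem_image] at hr
    obtain ⟨f, hf, rfl⟩ := hr
    exact ⟨f, hf, Int.dvd_self_sub_emod, Int.emod_nonneg _ (ne_of_gt hlz), Int.emod_lt_of_pos _ hlz⟩
  have hdis : Set.PairwiseDisjoint (R : Set ℤ) (fun r => Tl n l (-(s + r))) := by
    intro r hr r' hr' hne
    rw [Function.onFun, Finset.disjoint_left]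
    intro c hc hc'
    rw [mem_Tl] at hc hc'
    obtain ⟨_, _, _, hr0, hr1⟩ := hmod r hr
    obtain ⟨_, _, _, hr0', hr1'⟩ := hmod r' hr'
    have h3 : (l : ℤ) ∣ r - r' := by
      have := dvd_sub hc.2 hc'.2
      have e : pf c - -(s + r) - (pf c - -(s + r')) = r - r' := by ring
      rwa [e] at this
    apply hne
    have h4 := Int.emod_eq_of_lt hr0 hr1
    have h4' := Int.emod_eq_of_lt hr0' hr1'
    calc r = r % l := h4.symm
      _ = r' % l := Int.emod_eq_emod_iff_emod_sub_eq_zero.2 (Int.emod_eq_zero_of_dvd h3)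
      _ = r' := h4'
  have hdis2 : Disjoint (BE E n l) (R.biUnion (fun r => Tl n l (-(s + r)))) := by
    rw [Finset.disjoint_left]
    intro c hc hc'
    rw [Finset.mem_biUnion] at hc'
    obtain ⟨r, hr, hcr⟩ := hc'
    rw [mem_Tl] at hcr
    obtain ⟨f, hf, hfr, -, -⟩ := hmod r hr
    obtain ⟨-, e, he, hce⟩ := (mem_BE E n l c).1 hc
    apply h2 f hf e he
    have := dvd_add (dvd_sub hcr.2 hce) hfr
    have e1 : pf c - -(s + r) - (pf c + e) + (f - r) = s + f - e := by ring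
    rwa [e1] at this
  have hsub : BE E n l ∪ R.biUnion (fun r => Tl n l (-(s + r))) ⊆ BE (E ∪ F.image (fun f => s + f)) n l := by
    apply Finset.union_subset (BE_mono Finset.subset_union_left n l)
    intro c hc
    rw [Finset.mem_biUnion] at hc
    obtain ⟨r, hr, hcr⟩ := hc
    rw [mem_Tl] at hcr
    obtain ⟨f, hf, hfr, -, -⟩ := hmod r hr
    rw [mem_BE]
    refine ⟨hcr.1, s + f, Finset.mem_union_right _ (Finset.mem_image_of_mem _ hf), ?_⟩
    have := dvd_add hcr.2 hfr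
    have e1 : pf c - -(s + r) + (f - r) = pf c + (s + f) := by ring
    rwa [e1] at this
  have hcard := Finset.card_le_card hsub
  rw [Finset.card_union_of_disjoint hdis2, Finset.card_biUnion hdis] at hcard
  have hcard' : ((BE E n l).card : ℝ) + ∑ r ∈ R, ((Tl n l (-(s + r))).card : ℝ) ≤ ((BE (E ∪ F.image (fun f => s + f)) n l).card : ℝ) := by
    exact_mod_cast hcard
  refine le_trans ?_ hcard'
  have hs : (oF F l : ℝ) * ((l : ℝ) ^ 2 - 6 * l) ≤ ∑ r ∈ R, ((Tl n l (-(s + r))).card : ℝ) := by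
    have e : (oF F l : ℝ) * ((l : ℝ) ^ 2 - 6 * l) = ∑ r ∈ R, ((l : ℝ) ^ 2 - 6 * l) := by
      rw [Finset.sum_const, nsmul_eq_mul, hR]
      rfl
    rw [e]
    apply Finset.sum_le_sum
    intro r hr
    obtain ⟨f, hf, hfr, -, -⟩ := hmod r hr
    have h3 := hC l hl h5 n (-(s + r)) (by
      rintro ⟨ha, hb⟩
      apply h1 f hf
      refine ⟨ha, ?_⟩
      have := dvd_sub hfr hb
      have e1 : f - r - -(s + r) = s + f := by ring
      rwa [e1] at this)
    have h4 := (abs_le.1 h3).1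
    linarith
  linarith

/-- the numerical inequality at a good prime -/
theorem num_good {k l G b d o : ℝ} (hk : 0 ≤ k) (hl : 100 * k + 100 ≤ l) (hG1 : l ^ 3 - l ≤ G) (hG2 : G ≤ l ^ 3 + l ^ 2)
    (hb0 : 0 ≤ b) (hb : b ≤ k * (4 * l ^ 2)) (ho0 : 0 ≤ o) (ho : o ≤ k) (hd : b + o * (l ^ 2 - 6 * l) ≤ d) :
    1 - d / G ≤ (1 + 28 * k / l ^ 2) * ((1 - b / G) * (1 - o / l)) ∧ 0 ≤ 1 - b / G ∧ 0 ≤ 1 - o / l := by
  have hl100 : 100 ≤ l := by linarith
  have hl0 : 0 < l := by linarith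
  have hG0 : 0 < l ^ 3 - l := by nlinarith [mul_pos hl0 hl0]
  have hGp : 0 < G := lt_of_lt_of_le hG0 hG1
  have e1 : b / G ≤ 1 / 4 := by
    rw [div_le_iff₀ hGp]
    have : k * (4 * l ^ 2) ≤ 1 / 4 * (l ^ 3 - l) := by nlinarith [mul_pos hl0 hl0]
    linarith
  have e2 : o / l ≤ 1 / 4 := by
    rw [div_le_iff₀ hl0]
    nlinarith
  have e3 : o / l - 7 * k / l ^ 2 ≤ o * (l ^ 2 - 6 * l) / G := by
    have h1 : o * (l ^ 2 - 6 * l) / (l ^ 3 + l ^ 2) ≤ o * (l ^ 2 - 6 * l) / G := by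
      apply div_le_div_of_nonneg_left _ hGp hG2
      apply mul_nonneg ho0
      nlinarith
    refine le_trans ?_ h1
    have h2 : o / l - 7 * o / l ^ 2 ≤ o * (l ^ 2 - 6 * l) / (l ^ 3 + l ^ 2) := by
      rw [div_sub_div _ _ (by positivity) (by positivity), div_le_div_iff₀ (by positivity) (by positivity)]
      have : 0 ≤ o * l ^ 3 * (7 * l) := by positivity
      nlinarith [mul_nonneg ho0 (pow_nonneg hl0.le 3), mul_nonneg ho0 (pow_nonneg hl0.le 4)]
    have h3 : 7 * o / l ^ 2 ≤ 7 * k / l ^ 2 := by gcongr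
    linarith
  have e4 : (b + o * (l ^ 2 - 6 * l)) / G ≤ d / G := by gcongr
  rw [add_div] at e4
  have h0b : 0 ≤ b / G := by positivity
  have h0o : 0 ≤ o / l := by positivity
  have e5 : 1 / 4 ≤ (1 - b / G) * (1 - o / l) := by nlinarith
  have e6 : 7 * k / l ^ 2 ≤ 28 * k / l ^ 2 * ((1 - b / G) * (1 - o / l)) := by
    have h1 : 7 * k / l ^ 2 = 28 * k / l ^ 2 * (1 / 4) := by ring
    rw [h1]
    gcongr
  refine ⟨?_, by linarith, by linarith⟩
  have e7 : (1 - b / G) * (1 - o / l) = 1 - b / G - o / l + b / G * (o / l) := by ring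
  have e8 : 0 ≤ b / G * (o / l) := by positivity
  nlinarith


/-- the numerical inequality at an exceptional prime -/
theorem num_bad {k l x y o : ℝ} (hk : 0 ≤ k) (hl : 100 * k + 100 ≤ l) (ho0 : 0 ≤ o) (ho : o ≤ k) (hx : 0 ≤ x) (hy : y ≤ x) :
    y ≤ x * (1 - o / l) * (1 + 2 * k / l) := by
  have hl0 : 0 < l := by linarith
  have h1 : 1 ≤ (1 - o / l) * (1 + 2 * k / l) := by
    have e : (1 - o / l) * (1 + 2 * k / l) = 1 + ((2 * k - o) * l - 2 * k * o) / l ^ 2 := by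
      field_simp
      ring
    rw [e]
    have : 0 ≤ ((2 * k - o) * l - 2 * k * o) / l ^ 2 := by
      apply div_nonneg _ (by positivity)
      nlinarith [mul_nonneg hk ho0]
    linarith
  calc y ≤ x := hy
    _ = x * 1 := (mul_one x).symm
    _ ≤ x * ((1 - o / l) * (1 + 2 * k / l)) := mul_le_mul_of_nonneg_left h1 hx
    _ = _ := by ring

/-- the local factor -/
noncomputable def gl (l : ℕ) (m : ℤ) : ℝ := if (l : ℤ) ∣ m then 1 + 2 / (l : ℝ) else 1

theorem one_le_gl (l : ℕ) (m : ℤ) : 1 ≤ gl l m := by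
  unfold gl
  split_ifs
  · have : (0 : ℝ) ≤ 2 / (l : ℝ) := by positivity
    linarith
  · exact le_rfl

theorem gl_pos (l : ℕ) (m : ℤ) : 0 < gl l m := lt_of_lt_of_le one_pos (one_le_gl l m)

theorem prod_gl (n : ℕ) (m : ℤ) : ∏ l ∈ (Icc 3 n).filter Nat.Prime, gl l m ≤ GN 2 n m := by
  classical
  have e : ∏ l ∈ (Icc 3 n).filter Nat.Prime, gl l m = ∏ l ∈ ((Icc 3 n).filter Nat.Prime).filter (fun l : ℕ => (l : ℤ) ∣ m), (1 + 2 / (l : ℝ)) := by
    rw [Finset.prod_filter (fun l : ℕ => (l : ℤ) ∣ m)]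
    rfl
  rw [e]
  unfold GN
  apply Finset.prod_le_prod_of_subset_of_one_le
  · intro l hl
    rw [Finset.mem_filter, Finset.mem_filter, Finset.mem_Icc] at hl
    rw [Finset.mem_filter, Finset.mem_Icc]
    exact ⟨⟨by omega, hl.1.1.2⟩, hl.1.2, hl.2⟩
  · intro l _
    positivity
  · intro l _ _
    have : (0 : ℝ) ≤ 2 / (l : ℝ) := by positivity
    linarith

/-- the local factor of all the linear forms -/
noncomputable def hh (n : ℕ) (E F : Finset ℤ) (s : ℤ) (l : ℕ) : ℝ :=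
  ∏ f ∈ F, (gl l (if s + f = 0 then (n : ℤ) else s + f) * ∏ e ∈ E, gl l (s + f - e))

theorem one_le_inner (n : ℕ) (E : Finset ℤ) (s f : ℤ) (l : ℕ) :
    1 ≤ gl l (if s + f = 0 then (n : ℤ) else s + f) * ∏ e ∈ E, gl l (s + f - e) := by
  have h1 : 1 ≤ ∏ e ∈ E, gl l (s + f - e) := Finset.one_le_prod (fun e _ => one_le_gl l _)
  exact one_le_mul_of_one_le_of_one_le (one_le_gl l _) h1

theorem one_le_hh (n : ℕ) (E F : Finset ℤ) (s : ℤ) (l : ℕ) : 1 ≤ hh n E F s l :=
  Finset.one_le_prod (fun f _ => one_le_inner n E s f l)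

theorem hh_bad (n : ℕ) (E F : Finset ℤ) (s : ℤ) (l : ℕ)
    (h : ¬ ((∀ f ∈ F, ¬ ((l : ℤ) ∣ n ∧ (l : ℤ) ∣ s + f)) ∧ ∀ f ∈ F, ∀ e ∈ E, ¬ (l : ℤ) ∣ s + f - e)) :
    1 + 2 / (l : ℝ) ≤ hh n E F s l := by
  have key : ∃ f ∈ F, 1 + 2 / (l : ℝ) ≤ gl l (if s + f = 0 then (n : ℤ) else s + f) * ∏ e ∈ E, gl l (s + f - e) := by
    rw [not_and_or] at h
    rcases h with h | h
    · push Not at h
      obtain ⟨f, hf, h1, h2⟩ := h
      refine ⟨f, hf, ?_⟩
      have h3 : (l : ℤ) ∣ (if s + f = 0 then (n : ℤ) else s + f) := by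
        split_ifs
        · exact h1
        · exact h2
      have h4 : 1 + 2 / (l : ℝ) = gl l (if s + f = 0 then (n : ℤ) else s + f) := by
        rw [gl, if_pos h3]
      rw [h4]
      exact le_mul_of_one_le_right (gl_pos l _).le (Finset.one_le_prod (fun e _ => one_le_gl l _))
    · push Not at h
      obtain ⟨f, hf, e, he, h1⟩ := h
      refine ⟨f, hf, ?_⟩
      have h4 : 1 + 2 / (l : ℝ) = gl l (s + f - e) := by
        rw [gl, if_pos h1]
      rw [h4]
      have h5 : gl l (s + f - e) ≤ ∏ e ∈ E, gl l (s + f - e) := by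
        have := Finset.prod_le_prod_of_subset_of_one_le (f := fun e => gl l (s + f - e)) (Finset.singleton_subset_iff.2 he) (fun _ _ => (gl_pos l _).le) (fun _ _ _ => one_le_gl l _)
        rwa [Finset.prod_singleton] at this
      exact h5.trans (le_mul_of_one_le_left (le_trans zero_le_one (Finset.one_le_prod (fun e _ => one_le_gl l _))) (one_le_gl l _))
  obtain ⟨f, hf, h1⟩ := key
  refine h1.trans ?_
  have := Finset.prod_le_prod_of_subset_of_one_le (f := fun f => gl l (if s + f = 0 then (n : ℤ) else s + f) * ∏ e ∈ E, gl l (s + f - e))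
    (Finset.singleton_subset_iff.2 hf) (fun _ _ => le_trans zero_le_one (one_le_inner n E s _ l)) (fun _ _ _ => one_le_inner n E s _ l)
  rwa [Finset.prod_singleton] at this

theorem prod_hh (n : ℕ) (E F : Finset ℤ) (s : ℤ) :
    ∏ l ∈ (Icc 3 n).filter Nat.Prime, hh n E F s l ≤ ∏ f ∈ F, (GN 2 n (if s + f = 0 then (n : ℤ) else s + f) * ∏ e ∈ E, GN 2 n (s + f - e)) := by
  unfold hh
  rw [Finset.prod_comm]
  apply Finset.prod_le_prod
  · intro f _
    exact Finset.prod_nonneg (fun l _ => le_trans zero_le_one (one_le_inner n E s f l))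
  · intro f _
    rw [Finset.prod_mul_distrib, Finset.prod_comm]
    apply mul_le_mul (prod_gl n _)
    · exact Finset.prod_le_prod (fun e _ => Finset.prod_nonneg (fun l _ => (gl_pos l _).le)) (fun e _ => prod_gl n _)
    · exact Finset.prod_nonneg (fun e _ => Finset.prod_nonneg (fun l _ => (gl_pos l _).le))
    · exact le_trans (Finset.prod_nonneg (fun l _ => (gl_pos l _).le)) (prod_gl n _)

theorem oF_le (F : Finset ℤ) (l : ℕ) : oF F l ≤ F.card := by
  classical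
  unfold oF
  exact Finset.card_image_le

theorem oF_lt (F : Finset ℤ) (l : ℕ) (hl : 0 < l) (h : ∃ r : ℤ, ∀ f ∈ F, ¬ (l : ℤ) ∣ r + f) : oF F l + 1 ≤ l := by
  classical
  obtain ⟨r, hr⟩ := h
  have hlz : (0 : ℤ) < l := by exact_mod_cast hl
  have hsub : F.image (fun e : ℤ => e % (l : ℤ)) ⊆ (Finset.Ico (0 : ℤ) l).erase ((-r) % l) := by
    intro x hx
    rw [Finset.mem_image] at hx
    obtain ⟨f, hf, rfl⟩ := hx
    rw [Finset.mem_erase, Finset.mem_Ico]
    refine ⟨?_, Int.emod_nonneg _ (ne_of_gt hlz), Int.emod_lt_of_pos _ hlz⟩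
    intro h1
    apply hr f hf
    have h2 := Int.emod_emod_of_dvd
    have h3 : (l : ℤ) ∣ f - (-r) := Int.dvd_of_emod_eq_zero (Int.emod_eq_emod_iff_emod_sub_eq_zero.1 h1)
    have e : f - (-r) = r + f := by ring
    rwa [e] at h3
  have hm : (-r) % (l : ℤ) ∈ Finset.Ico (0 : ℤ) l := by
    rw [Finset.mem_Ico]
    exact ⟨Int.emod_nonneg _ (ne_of_gt hlz), Int.emod_lt_of_pos _ hlz⟩
  have h1 := Finset.card_le_card hsub
  rw [Finset.card_erase_of_mem hm] at h1
  have h2 : (Finset.Ico (0 : ℤ) l).card = l := by simp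
  rw [h2] at h1
  have h3 : oF F l = (F.image (fun e : ℤ => e % (l : ℤ))).card := by
    unfold oF
    congr!
  omega

theorem tele (n : ℕ) : ∑ l ∈ Icc 3 n, (1 / ((l : ℝ) - 1) - 1 / (l : ℝ)) ≤ 1 := by
  rcases Nat.lt_or_ge n 2 with h | h
  · rw [Finset.Icc_eq_empty (by omega)]
    simp
  · have key : ∑ l ∈ Icc 3 n, (1 / ((l : ℝ) - 1) - 1 / (l : ℝ)) ≤ 1 - 1 / (n : ℝ) := by
      induction n, h using Nat.le_induction with
      | base => norm_num
      | succ m hm ih =>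
        rw [Finset.sum_Icc_succ_top (by omega)]
        push_cast
        have : ((m : ℝ) + 1 - 1) = m := by ring
        rw [this]
        linarith
    have : (0 : ℝ) ≤ 1 / (n : ℝ) := by positivity
    linarith

/-- the constants -/
noncomputable def LA (k l : ℕ) : ℝ := if l ≤ 100 * k + 100 then (l : ℝ) else 1 + 28 * k / (l : ℝ) ^ 2

theorem LA_le (k l : ℕ) (hl : 3 ≤ l) :
    LA k l ≤ (if l ≤ 100 * k + 100 then (l : ℝ) else 1) * Real.exp (28 * k * (1 / ((l : ℝ) - 1) - 1 / (l : ℝ))) := by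
  have hl3 : (3 : ℝ) ≤ l := by exact_mod_cast hl
  have h0 : 1 / (l : ℝ) ^ 2 ≤ 1 / ((l : ℝ) - 1) - 1 / (l : ℝ) := by
    rw [div_sub_div _ _ (by linarith) (by linarith), div_le_div_iff₀ (by positivity) (by nlinarith)]
    nlinarith
  have h00 : 0 ≤ 1 / (l : ℝ) ^ 2 := by positivity
  have hk : (0 : ℝ) ≤ k := by positivity
  unfold LA
  split_ifs
  · have h1 : 1 ≤ Real.exp (28 * k * (1 / ((l : ℝ) - 1) - 1 / (l : ℝ))) := by
      rw [Real.one_le_exp_iff]
      apply mul_nonneg (by positivity) (h00.trans h0)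
    exact le_mul_of_one_le_right (by positivity) h1
  · rw [one_mul]
    have h1 : 28 * (k : ℝ) / (l : ℝ) ^ 2 ≤ 28 * k * (1 / ((l : ℝ) - 1) - 1 / (l : ℝ)) := by
      have e : 28 * (k : ℝ) / (l : ℝ) ^ 2 = 28 * k * (1 / (l : ℝ) ^ 2) := by ring
      rw [e]
      exact mul_le_mul_of_nonneg_left h0 (by positivity)
    have h2 := Real.add_one_le_exp (28 * (k : ℝ) * (1 / ((l : ℝ) - 1) - 1 / (l : ℝ)))
    linarith

theorem prod_LA (k n : ℕ) : ∏ l ∈ (Icc 3 n).filter Nat.Prime, LA k l ≤ (∏ l ∈ Icc 1 (100 * k + 100), (l : ℝ)) * Real.exp (28 * k) := by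
  classical
  have h1 : ∏ l ∈ (Icc 3 n).filter Nat.Prime, LA k l ≤ ∏ l ∈ (Icc 3 n).filter Nat.Prime,
      ((if l ≤ 100 * k + 100 then (l : ℝ) else 1) * Real.exp (28 * k * (1 / ((l : ℝ) - 1) - 1 / (l : ℝ)))) := by
    apply Finset.prod_le_prod
    · intro l _
      unfold LA
      split_ifs <;> positivity
    · intro l hl
      rw [Finset.mem_filter, Finset.mem_Icc] at hl
      exact LA_le k l hl.1.1
  refine h1.trans ?_
  rw [Finset.prod_mul_distrib, ← Real.exp_sum]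
  apply mul_le_mul
  · rw [← Finset.prod_filter]
    apply Finset.prod_le_prod_of_subset_of_one_le
    · intro l hl
      rw [Finset.mem_filter, Finset.mem_filter, Finset.mem_Icc] at hl
      rw [Finset.mem_Icc]
      omega
    · intro l _
      positivity
    · intro l hl _
      rw [Finset.mem_Icc] at hl
      exact_mod_cast hl.1
  · rw [Real.exp_le_exp, ← Finset.mul_sum]
    have h2 : ∑ l ∈ (Icc 3 n).filter Nat.Prime, (1 / ((l : ℝ) - 1) - 1 / (l : ℝ)) ≤ ∑ l ∈ Icc 3 n, (1 / ((l : ℝ) - 1) - 1 / (l : ℝ)) := by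
      apply Finset.sum_le_sum_of_subset_of_nonneg (Finset.filter_subset _ _)
      intro l hl _
      rw [Finset.mem_Icc] at hl
      have hl3 : (3 : ℝ) ≤ l := by exact_mod_cast hl.1
      rw [sub_nonneg]
      apply one_div_le_one_div_of_le (by linarith) (by linarith)
    have h3 := h2.trans (tele n)
    calc 28 * (k : ℝ) * ∑ l ∈ (Icc 3 n).filter Nat.Prime, (1 / ((l : ℝ) - 1) - 1 / (l : ℝ)) ≤ 28 * k * 1 :=
        mul_le_mul_of_nonneg_left h3 (by positivity)
      _ = 28 * k := mul_one _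
  · positivity
  · exact Finset.prod_nonneg (fun l _ => by positivity)

end Pool.Agent.Q117.FQ.LOC

namespace Pool.Agent.Q117.FQ

open Finset
open Pool.Agent.W65.FS
open Pool.Agent.Q117.LF (GN oF)
open Pool.Agent.Q117.FQ.LOC

open Classical in
/-- the local inequality -/
theorem LOC.local_ineq (hC : St_CNT) (k n : ℕ) (E F : Finset ℤ) (hE : E.card ≤ k) (hF : F.card ≤ k)
    (hadm : ∀ l : ℕ, l.Prime → l ≠ 2 → ∃ r : ℤ, ∀ f ∈ F, ¬ (l : ℤ) ∣ r + f) (s : ℤ) (l : ℕ) (hl : l.Prime) (hl3 : 3 ≤ l) :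
    1 - gE (E ∪ F.image (fun f => s + f)) n l ≤ LA k l * ((1 - gE E n l) * (1 - (oF F l : ℝ) / l) * (hh n E F s l) ^ k) := by
  have hl2 : l ≠ 2 := by omega
  have hlR : (3 : ℝ) ≤ l := by exact_mod_cast hl3
  have hmono : 1 - gE (E ∪ F.image (fun f => s + f)) n l ≤ 1 - gE E n l := by
    have := gE_mono (Finset.subset_union_left (s₁ := E) (s₂ := F.image (fun f => s + f))) n l
    linarith
  have hx0 : 0 ≤ 1 - gE E n l := by
    have := gE_le_one E n l
    linarith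
  have hh1 : 1 ≤ hh n E F s l ^ k := one_le_pow₀ (one_le_hh n E F s l)
  have ho := oF_lt F l hl.pos (hadm l hl hl2)
  have hoR : (oF F l : ℝ) + 1 ≤ l := by exact_mod_cast ho
  have ho2 : 1 / (l : ℝ) ≤ 1 - (oF F l : ℝ) / l := by
    rw [div_le_iff₀ (by linarith), sub_mul, div_mul_cancel₀ _ (by linarith)]
    linarith
  by_cases hsm : l ≤ 100 * k + 100
  · rw [LA, if_pos hsm]
    have h1 : (1 - gE E n l) * (1 / (l : ℝ)) * 1 ≤ (1 - gE E n l) * (1 - (oF F l : ℝ) / l) * hh n E F s l ^ k := by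
      apply mul_le_mul _ hh1 zero_le_one
      · apply mul_nonneg hx0
        exact le_trans (by positivity) ho2
      · exact mul_le_mul_of_nonneg_left ho2 hx0
    calc _ ≤ 1 - gE E n l := hmono
      _ = l * ((1 - gE E n l) * (1 / (l : ℝ)) * 1) := by
        field_simp
      _ ≤ _ := mul_le_mul_of_nonneg_left h1 (by positivity)
  · rw [LA, if_neg hsm]
    have hbig : 100 * (k : ℝ) + 100 ≤ l := by
      have : 100 * k + 100 ≤ l := by omega
      exact_mod_cast this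
    have hoF : (oF F l : ℝ) ≤ k := by exact_mod_cast (oF_le F l).trans hF
    have hLA : (1 : ℝ) ≤ 1 + 28 * k / (l : ℝ) ^ 2 := by
      have : (0 : ℝ) ≤ 28 * k / (l : ℝ) ^ 2 := by positivity
      linarith
    have hy0 : 0 ≤ 1 - (oF F l : ℝ) / l := le_trans (by positivity) ho2
    by_cases hg : (∀ f ∈ F, ¬ ((l : ℤ) ∣ n ∧ (l : ℤ) ∣ s + f)) ∧ ∀ f ∈ F, ∀ e ∈ E, ¬ (l : ℤ) ∣ s + f - e
    · have h1 := good_card hC n E F s l hl (by omega) hg.1 hg.2
      have hb : ((BE E n l).card : ℝ) ≤ k * (4 * (l : ℝ) ^ 2) := by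
        have := (card_BE E n l hl hl2).trans (Nat.mul_le_mul_right _ hE)
        exact_mod_cast this
      have h2 := (num_good (k := (k : ℝ)) (by positivity) hbig (count_lower l hl hl2 n) (card_Gl_up l hl hl2 n) (by positivity) hb
        (by positivity) hoF h1).1
      calc _ ≤ (1 + 28 * k / (l : ℝ) ^ 2) * ((1 - gE E n l) * (1 - (oF F l : ℝ) / l)) := h2
        _ = (1 + 28 * k / (l : ℝ) ^ 2) * ((1 - gE E n l) * (1 - (oF F l : ℝ) / l) * 1) := by rw [mul_one]
        _ ≤ _ := by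
          apply mul_le_mul_of_nonneg_left _ (by linarith)
          exact mul_le_mul_of_nonneg_left hh1 (mul_nonneg hx0 hy0)
    · have h1 := hh_bad n E F s l hg
      have h2 : 1 + 2 * (k : ℝ) / l ≤ hh n E F s l ^ k := by
        have h3 : 1 + (k : ℝ) * (2 / l) ≤ (1 + 2 / (l : ℝ)) ^ k := one_add_mul_le_pow (by
          have : (0 : ℝ) ≤ 2 / l := by positivity
          linarith) k
        have h4 : (1 + 2 / (l : ℝ)) ^ k ≤ hh n E F s l ^ k := pow_le_pow_left₀ (by positivity) h1 k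
        have e : (k : ℝ) * (2 / l) = 2 * k / l := by ring
        rw [e] at h3
        exact h3.trans h4
      have h3 := num_bad (k := (k : ℝ)) (by positivity) hbig (by positivity) hoF hx0 hmono
      calc _ ≤ (1 - gE E n l) * (1 - (oF F l : ℝ) / l) * (1 + 2 * k / l) := h3
        _ ≤ (1 - gE E n l) * (1 - (oF F l : ℝ) / l) * hh n E F s l ^ k := mul_le_mul_of_nonneg_left h2 (mul_nonneg hx0 hy0)
        _ ≤ _ := le_mul_of_one_le_left (mul_nonneg (mul_nonneg hx0 hy0) (by linarith)) hLA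

theorem loc : St_LOC := by
  intro hC k
  refine ⟨k, (∏ l ∈ Icc 1 (100 * k + 100), (l : ℝ)) * Real.exp (28 * k), ?_, ?_⟩
  · apply mul_pos _ (Real.exp_pos _)
    apply Finset.prod_pos
    intro l hl
    rw [Finset.mem_Icc] at hl
    have : 0 < l := by omega
    exact_mod_cast this
  intro n _ E F hE hF hadm s _
  have hP : ∀ l ∈ (Icc 3 n).filter Nat.Prime, l.Prime ∧ 3 ≤ l := by
    intro l hl
    rw [Finset.mem_filter, Finset.mem_Icc] at hl
    exact ⟨hl.2, hl.1.1⟩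
  have hVE : 0 ≤ VE n E := by
    apply Finset.prod_nonneg
    intro l _
    have := gE_le_one E n l
    linarith
  have hVO : 0 ≤ VO n F := by
    apply Finset.prod_nonneg
    intro l hl
    obtain ⟨h1, h2⟩ := hP l hl
    have h3 := oF_lt F l h1.pos (hadm l h1 (by omega))
    have h4 : (oF F l : ℝ) ≤ l := by exact_mod_cast (by omega : oF F l ≤ l)
    have h5 : (0 : ℝ) < l := by exact_mod_cast h1.pos
    rw [sub_nonneg]
    exact div_le_one_of_le₀ h4 h5.le
  have h1 : VE n (E ∪ F.image (fun f => s + f)) ≤ ∏ l ∈ (Icc 3 n).filter Nat.Prime,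
      (LA k l * ((1 - gE E n l) * (1 - (oF F l : ℝ) / l) * (hh n E F s l) ^ k)) := by
    unfold VE
    apply Finset.prod_le_prod
    · intro l _
      have := gE_le_one (E ∪ F.image (fun f => s + f)) n l
      linarith
    · intro l hl
      obtain ⟨h1, h2⟩ := hP l hl
      exact local_ineq hC k n E F hE hF hadm s l h1 h2
  rw [Finset.prod_mul_distrib, Finset.prod_mul_distrib, Finset.prod_mul_distrib, Finset.prod_pow] at h1
  refine h1.trans ?_
  have hhn : 0 ≤ ∏ l ∈ (Icc 3 n).filter Nat.Prime, hh n E F s l := Finset.prod_nonneg (fun l _ => le_trans zero_le_one (one_le_hh n E F s l))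
  apply mul_le_mul (prod_LA k n)
  · apply mul_le_mul_of_nonneg_left _ (mul_nonneg hVE hVO)
    exact pow_le_pow_left₀ hhn (prod_hh n E F s) k
  · exact mul_nonneg (mul_nonneg hVE hVO) (pow_nonneg hhn k)
  · apply mul_nonneg _ (Real.exp_pos _).le
    exact Finset.prod_nonneg (fun l _ => by positivity)

end Pool.Agent.Q117.FQ
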