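import Pool.Agent.Q117.FQ.Loc
import Pool.Agent.Y843.HG.VGold

set_option autoImplicit false

/-!
Project FQ (helper117), job NQ (helper222): the theorem at the natural scale on the sphere.
-/

namespace Pool.Agent.Q117.FQ.NQX

open Finset Filter
open Pool.Agent.W65.FS
open Pool.Agent.Q117.LF (GN oF Ro St_AVG)
open Pool.Agent.Q117.FQ.LOC
open Pool.Agent.Y843.HS (Pr Pr_mem Pr_prime)
open Pool.Agent.Y843.HG (V1 V1_pos V1_bounds)

theorem GN_nonneg (y : ℕ) (m : ℤ) : 0 ≤ GN 2 y m := by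
  classical
  unfold GN
  refine prod_nonneg fun p _ => ?_
  positivity

theorem VE_nonneg (n : ℕ) (E : Finset ℤ) : 0 ≤ VE n E := by
  apply Finset.prod_nonneg
  intro l _
  have := gE_le_one E n l
  linarith

theorem VO_nonneg (n : ℕ) (F : Finset ℤ) (hadm : ∀ l : ℕ, l.Prime → l ≠ 2 → ∃ r : ℤ, ∀ f ∈ F, ¬ (l : ℤ) ∣ r + f) : 0 ≤ VO n F := by
  apply Finset.prod_nonneg
  intro l hl
  rw [Finset.mem_filter, Finset.mem_Icc] at hl
  have h3 := oF_lt F l hl.2.pos (hadm l hl.2 (by omega))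
  have h4 : (oF F l : ℝ) ≤ l := by exact_mod_cast (by omega : oF F l ≤ l)
  have h5 : (0 : ℝ) < l := by exact_mod_cast hl.2.pos
  rw [sub_nonneg]
  exact div_le_one_of_le₀ h4 h5.le

open Classical in
/-- the primitive representations with all the `p + d` rough -/
noncomputable def RR (n : ℕ) (D : Finset ℤ) (z : ℝ) : Finset (Fin 4 → ℤ) := (preps n).filter (fun X => ∀ d ∈ D, Ro z (pf X + d))

theorem mem_RR (n : ℕ) (D : Finset ℤ) (z : ℝ) (X : Fin 4 → ℤ) : X ∈ RR n D z ↔ X ∈ preps n ∧ ∀ d ∈ D, Ro z (pf X + d) := by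
  classical
  unfold RR
  rw [Finset.mem_filter]

theorem mem_preps (n : ℕ) (X : Fin 4 → ℤ) : X ∈ preps n ↔ ∑ i, X i ^ 2 = n ∧ gc X = 1 := by
  unfold preps
  rw [Finset.mem_filter, mem_reps]

/-- the form modulo `l` -/
theorem pf_red (l : ℕ) (X : Fin 4 → ℤ) : (l : ℤ) ∣ pf X - pf (red l X) := pf_congr l X (red l X) (red_dvd l X)

theorem dvd_red (l : ℕ) (X : Fin 4 → ℤ) (d : ℤ) : (l : ℤ) ∣ pf X + d ↔ (l : ℤ) ∣ pf (red l X) + d := by
  have h := pf_red l X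
  constructor
  · intro h1
    have := dvd_sub h1 h
    have e : pf X + d - (pf X - pf (red l X)) = pf (red l X) + d := by ring
    rwa [e] at this
  · intro h1
    have := dvd_add h1 h
    have e : pf (red l X) + d + (pf X - pf (red l X)) = pf X + d := by ring
    rwa [e] at this

theorem mem_Cnd (n : ℕ) (D : Finset ℤ) (z : ℝ) (X : Fin 4 → ℤ) :
    X ∈ Cnd n ∅ (fun _ => ∅) (fun l => BE D n l) z ↔ X ∈ preps n ∧ ∀ l : ℕ, l.Prime → l ≠ 2 → (l : ℝ) ≤ z → red l X ∉ BE D n l := by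
  classical
  unfold Cnd
  rw [Finset.mem_filter]
  simp

theorem RR_sub_Cnd (n : ℕ) (D : Finset ℤ) (z : ℝ) : RR n D z ⊆ Cnd n ∅ (fun _ => ∅) (fun l => BE D n l) z := by
  intro X hX
  rw [mem_RR] at hX
  rw [mem_Cnd]
  refine ⟨hX.1, fun l hl hl2 hlz hmem => ?_⟩
  obtain ⟨_, d, hd, hdv⟩ := (mem_BE D n l _).1 hmem
  have := hX.2 d hd l hl ((dvd_red l X d).2 hdv)
  linarith

theorem Cnd_sub_RR (n : ℕ) (hn : Odd n) (E : Finset ℤ) (hE : ∀ e ∈ E, Even e) (z : ℝ) :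
    Cnd n ∅ (fun _ => ∅) (fun l => BE E n l) z ⊆ RR n E z := by
  intro X hX
  rw [mem_Cnd] at hX
  rw [mem_RR]
  refine ⟨hX.1, fun e he l hl hd => ?_⟩
  have hX1 := (mem_preps n X).1 hX.1
  by_cases hl2 : l = 2
  · exfalso
    subst hl2
    apply pf_odd n hn X hX1.1
    have h1 : (2 : ℤ) ∣ e := (hE e he).two_dvd
    have h2 : (2 : ℤ) ∣ pf X + e := by exact_mod_cast hd
    have := dvd_sub h2 h1
    have e1 : pf X + e - e = pf X := by ring
    rwa [e1] at this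
  · by_contra hcon
    push Not at hcon
    apply hX.2 l hl hl2 hcon
    rw [mem_BE]
    exact ⟨red_mem n l hl X hX1.1 hX1.2, e, he, (dvd_red l X e).1 hd⟩

theorem Mn_eq (n : ℕ) (D : Finset ℤ) : Mn n ∅ (fun _ => ∅) (fun l => BE D n l) = ((preps n).card : ℝ) * VE n D := by
  unfold Mn VE gE
  rw [Finset.prod_empty, mul_one]
  congr 1
  apply Finset.prod_congr
  · ext l
    simp
  · intro l _
    rfl

/-- a set of bad classes with all the classes -/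
theorem full_small (n : ℕ) (D : Finset ℤ) (k : ℕ) (hD : D.card ≤ 2 * k) (l : ℕ) (hl : l.Prime) (hl2 : l ≠ 2) (h : BE D n l = Gl n l) :
    l ≤ 8 * k + 1 := by
  have h1 := count_lower l hl hl2 n
  rw [← h] at h1
  have h2 := (card_BE D n l hl hl2).trans (Nat.mul_le_mul_right _ hD)
  have h3 : ((BE D n l).card : ℝ) ≤ 2 * k * (4 * (l : ℝ) ^ 2) := by exact_mod_cast h2
  by_contra hcon
  push Not at hcon
  have h4 : 8 * (k : ℝ) + 2 ≤ l := by
    have : 8 * k + 2 ≤ l := hcon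
    exact_mod_cast this
  have hl0 : (0 : ℝ) < l := by exact_mod_cast hl.pos
  have hk : (0 : ℝ) ≤ k := by positivity
  have h5 : (l : ℝ) ^ 3 - l ≤ 8 * k * (l : ℝ) ^ 2 := by linarith
  have h6 : (8 * (k : ℝ) + 2) * (l : ℝ) ^ 2 ≤ l * (l : ℝ) ^ 2 := mul_le_mul_of_nonneg_right h4 (by positivity)
  nlinarith

/-- both bounds for the number of the rough values -/
theorem rr_bounds (hG : GSc) (k : ℕ) : ∃ t : ℕ, 1 ≤ t ∧ ∃ c : ℝ, 0 < c ∧ ∃ C : ℝ, 0 < C ∧ ∃ n0 : ℕ, ∀ n : ℕ, Odd n → n0 ≤ n →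
    (∀ E : Finset ℤ, E.card ≤ k → (∀ e ∈ E, Even e) → (∀ l : ℕ, l.Prime → l ≠ 2 → ∃ c ∈ Gl n l, ∀ e ∈ E, ¬ (l : ℤ) ∣ pf c + e) →
      c * ((preps n).card * VE n E) ≤ ((RR n E ((n : ℝ) ^ (1 / (t : ℝ)))).card : ℝ)) ∧
    (∀ D : Finset ℤ, D.card ≤ 2 * k → ((RR n D ((n : ℝ) ^ (1 / (t : ℝ)))).card : ℝ) ≤ C * ((preps n).card * VE n D)) := by
  obtain ⟨t, ht, h⟩ := hG (8 * k)
  obtain ⟨c, hc, C, hC, n0, h⟩ := h t le_rfl
  have htR : (0 : ℝ) < 1 / (t : ℝ) := by positivity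
  obtain ⟨n1, hn1⟩ : ∃ n1 : ℕ, ∀ n : ℕ, n1 ≤ n → (8 * (k : ℝ) + 1) ≤ (n : ℝ) ^ (1 / (t : ℝ)) := by
    have h := ((tendsto_rpow_atTop htR).comp tendsto_natCast_atTop_atTop).eventually_ge_atTop (8 * (k : ℝ) + 1)
    obtain ⟨n1, hn1⟩ := eventually_atTop.1 h
    exact ⟨n1, hn1⟩
  refine ⟨t, ht, c, hc, C, hC, max (max n0 n1) 1, fun n hn hnn => ⟨?_, ?_⟩⟩
  · intro E hE hEe hEl
    have hn0 : n0 ≤ n := (le_max_left _ _).trans ((le_max_left _ _).trans hnn)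
    have hn3 : 1 ≤ n := (le_max_right _ _).trans hnn
    have h1 := (h n hn hn0 ∅ (fun _ => ∅) (fun l => BE E n l) (by simp) (by
      simp only [Finset.prod_empty, Nat.cast_one]
      exact Real.one_le_rpow (by exact_mod_cast hn3) htR.le) (by
      intro l hl hl2 _
      refine ⟨BE_sub E n l, ?_, ?_⟩
      · intro heq
        obtain ⟨x, hx, hx2⟩ := hEl l hl hl2
        rw [← heq, mem_BE] at hx
        obtain ⟨_, e, he, hd⟩ := hx
        exact hx2 e he hd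
      · have h2 := (card_BE E n l hl hl2).trans (Nat.mul_le_mul_right _ hE)
        calc _ ≤ k * (4 * l ^ 2) := h2
          _ ≤ 8 * k * l ^ 2 := by nlinarith [Nat.zero_le (k * l ^ 2)]) ((n : ℝ) ^ (1 / (t : ℝ))) le_rfl le_rfl).1
    rw [Mn_eq] at h1
    refine h1.trans ?_
    exact_mod_cast Finset.card_le_card (Cnd_sub_RR n hn E hEe _)
  · intro D hD
    have hn0 : n0 ≤ n := (le_max_left _ _).trans ((le_max_left _ _).trans hnn)
    have hn1' : n1 ≤ n := (le_max_right _ _).trans ((le_max_left _ _).trans hnn)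
    have hn3 : 1 ≤ n := (le_max_right _ _).trans hnn
    by_cases hfull : ∃ l : ℕ, l.Prime ∧ l ≠ 2 ∧ BE D n l = Gl n l
    · obtain ⟨l, hl, hl2, hle⟩ := hfull
      have h2 := full_small n D k hD l hl hl2 hle
      have h3 : (l : ℝ) ≤ (n : ℝ) ^ (1 / (t : ℝ)) := by
        refine le_trans ?_ (hn1 n hn1')
        exact_mod_cast h2
      have h4 : RR n D ((n : ℝ) ^ (1 / (t : ℝ))) = ∅ := by
        rw [Finset.eq_empty_iff_forall_notMem]
        intro X hX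
        have h5 := RR_sub_Cnd n D _ hX
        rw [mem_Cnd] at h5
        apply h5.2 l hl hl2 h3
        rw [hle]
        have hX1 := (mem_preps n X).1 h5.1
        exact red_mem n l hl X hX1.1 hX1.2
      rw [h4, Finset.card_empty, Nat.cast_zero]
      have := VE_nonneg n D
      positivity
    · push Not at hfull
      have h1 := (h n hn hn0 ∅ (fun _ => ∅) (fun l => BE D n l) (by simp) (by
        simp only [Finset.prod_empty, Nat.cast_one]
        exact Real.one_le_rpow (by exact_mod_cast hn3) htR.le) (by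
        intro l hl hl2 _
        refine ⟨BE_sub D n l, hfull l hl hl2, ?_⟩
        have h2 := (card_BE D n l hl hl2).trans (Nat.mul_le_mul_right _ hD)
        calc _ ≤ 2 * k * (4 * l ^ 2) := h2
          _ = 8 * k * l ^ 2 := by ring) ((n : ℝ) ^ (1 / (t : ℝ))) le_rfl le_rfl).2
      rw [Mn_eq] at h1
      refine le_trans ?_ h1
      exact_mod_cast Finset.card_le_card (RR_sub_Cnd n D _)

/-- the sieve product of a nonempty set -/
theorem VO_up : ∃ C : ℝ, 0 < C ∧ ∀ n : ℕ, 2 ≤ n → ∀ F : Finset ℤ, F.Nonempty →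
    (∀ l : ℕ, l.Prime → l ≠ 2 → ∃ r : ℤ, ∀ f ∈ F, ¬ (l : ℤ) ∣ r + f) → VO n F ≤ C / Real.log n := by
  classical
  obtain ⟨c1, C1, hc1, hC1, hV⟩ := V1_bounds
  refine ⟨2 * C1, by positivity, fun n hn F hF hadm => ?_⟩
  have h1 : VO n F ≤ ∏ l ∈ (Icc 3 n).filter Nat.Prime, (1 - 1 / (l : ℝ)) := by
    unfold VO
    apply Finset.prod_le_prod
    · intro l hl
      rw [Finset.mem_filter, Finset.mem_Icc] at hl
      have h3 := oF_lt F l hl.2.pos (hadm l hl.2 (by omega))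
      have h4 : (oF F l : ℝ) ≤ l := by exact_mod_cast (by omega : oF F l ≤ l)
      have h5 : (0 : ℝ) < l := by exact_mod_cast hl.2.pos
      rw [sub_nonneg]
      exact div_le_one_of_le₀ h4 h5.le
    · intro l _
      have h2 : 1 ≤ oF F l := by
        unfold oF
        rw [Nat.one_le_iff_ne_zero, ← Nat.pos_iff_ne_zero, Finset.card_pos]
        exact hF.image _
      have h3 : (1 : ℝ) ≤ oF F l := by exact_mod_cast h2
      have h4 : 1 / (l : ℝ) ≤ (oF F l : ℝ) / l := by gcongr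
      linarith
  have h2 : V1 n = 1 / 2 * ∏ l ∈ (Icc 3 n).filter Nat.Prime, (1 - 1 / (l : ℝ)) := by
    unfold V1
    have e : Pr 0 n = insert 2 ((Icc 3 n).filter Nat.Prime) := by
      ext p
      rw [Pr_mem, mem_insert, mem_filter, mem_Icc]
      constructor
      · rintro ⟨⟨h1, h2⟩, h3⟩
        by_cases hp : p = 2
        · left; exact hp
        · right
          have := h3.two_le
          exact ⟨⟨by omega, h2⟩, h3⟩
      · rintro (rfl | ⟨⟨h1, h2⟩, h3⟩)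
        · exact ⟨⟨by omega, hn⟩, Nat.prime_two⟩
        · exact ⟨⟨by omega, h2⟩, h3⟩
    rw [e, Finset.prod_insert (by simp)]
    norm_num
  have h3 := (hV n hn).2
  rw [h2] at h3
  have h4 : ∏ l ∈ (Icc 3 n).filter Nat.Prime, (1 - 1 / (l : ℝ)) ≤ 2 * (C1 / Real.log n) := by linarith
  refine h1.trans (h4.trans ?_)
  rw [mul_div_assoc]

/-- the average for an arbitrary index set -/
theorem avg_gen (hA : St_AVG) (N : ℕ) : ∃ C : ℝ, 0 < C ∧ ∃ X0 : ℝ, ∀ X : ℝ, X0 ≤ X → ∀ (ι : Type) [Fintype ι], Fintype.card ι ≤ N → ∀ β : ι → ℤ,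
    (∀ x, |(β x : ℝ)| ≤ X ^ 2) → ∀ L : ℕ, (L : ℝ) ≤ X →
    ∑ d ∈ (Icc (-(L : ℤ)) L).filter (fun d => ∀ x, d + β x ≠ 0), ∏ x, GN 2 ⌊X⌋₊ (d + β x) ≤ C * (L + (Real.log X) ^ (1 / 2 : ℝ)) := by
  classical
  choose C hC X0 h using fun j => hA j 1
  refine ⟨∑ j ∈ range (N + 1), C j, Finset.sum_pos (fun j _ => hC j) ⟨0, by simp⟩, max 1 (∑ j ∈ range (N + 1), |X0 j|), ?_⟩
  intro X hX ι _ hι β hβ L hL
  obtain ⟨j, hj⟩ : ∃ j, j = Fintype.card ι := ⟨_, rfl⟩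
  rw [← hj] at hι
  have hjr : j ∈ range (N + 1) := by rw [mem_range]; omega
  have e : ι ≃ Fin j := Fintype.equivFinOfCardEq hj.symm
  have hX1 : 1 ≤ X := (le_max_left _ _).trans hX
  have hX0 : X0 j ≤ X := (le_abs_self _).trans ((Finset.single_le_sum (f := fun j => |X0 j|) (fun _ _ => abs_nonneg _) hjr).trans ((le_max_right _ _).trans hX))
  have h1 := h j X hX0 (fun _ => 1) (fun x => β (e.symm x)) (by intro x; norm_num) (fun x => hβ _) L hL
  have h2 : ∑ d ∈ (Icc (-(L : ℤ)) L).filter (fun d => ∀ x, d + β x ≠ 0), ∏ x, GN 2 ⌊X⌋₊ (d + β x) =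
      ∑ d ∈ (Icc (-(L : ℤ)) L).filter (fun d => ∀ x : Fin j, 1 * d + β (e.symm x) ≠ 0), ∏ x : Fin j, GN 2 ⌊X⌋₊ (1 * d + β (e.symm x)) := by
    apply Finset.sum_congr
    · ext d
      simp only [mem_filter, one_mul]
      constructor
      · rintro ⟨h3, h4⟩
        exact ⟨h3, fun x => h4 _⟩
      · rintro ⟨h3, h4⟩
        refine ⟨h3, fun x => ?_⟩
        have := h4 (e x)
        rwa [e.symm_apply_apply] at this
    · intro d _
      simp only [one_mul]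
      exact (Equiv.prod_comp e.symm (fun x => GN 2 ⌊X⌋₊ (d + β x))).symm
  rw [h2]
  refine h1.trans ?_
  apply mul_le_mul_of_nonneg_right (Finset.single_le_sum (fun j _ => (hC j).le) hjr)
  have := Real.rpow_nonneg (Real.log_nonneg hX1) (1 / 2)
  positivity

/-- a single product -/
theorem avg_single {C X : ℝ} {ι : Type} [Fintype ι] {β : ι → ℤ}
    (h : ∑ d ∈ (Icc (-((0 : ℕ) : ℤ)) ((0 : ℕ) : ℤ)).filter (fun d => ∀ x, d + β x ≠ 0), ∏ x, GN 2 ⌊X⌋₊ (d + β x) ≤ C * (((0 : ℕ) : ℝ) + (Real.log X) ^ (1 / 2 : ℝ)))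
    (hβ : ∀ x, β x ≠ 0) : ∏ x, GN 2 ⌊X⌋₊ (β x) ≤ C * (Real.log X) ^ (1 / 2 : ℝ) := by
  classical
  have h6 : (0 : ℤ) ∈ (Icc (-((0 : ℕ) : ℤ)) ((0 : ℕ) : ℤ)).filter (fun e : ℤ => ∀ x, e + β x ≠ 0) := by
    rw [mem_filter]
    refine ⟨by simp, fun l => ?_⟩
    simpa using hβ l
  have h7 := Finset.single_le_sum (f := fun e : ℤ => ∏ x, GN 2 ⌊X⌋₊ (e + β x))
    (fun e _ => prod_nonneg fun x _ => GN_nonneg _ _) h6
  have h8 := h7.trans h
  simpa using h8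

/-- the intercepts -/
def bt (E F : Finset ℤ) (C : ℕ) (x : (↥F × Option ↥E) × Fin C) : ℤ :=
  match x.1.2 with
  | none => (x.1.1 : ℤ)
  | some e => (x.1.1 : ℤ) - (e : ℤ)

theorem prod_form (n C : ℕ) (E F : Finset ℤ) (s : ℤ) : ∏ x : (↥F × Option ↥E) × Fin C, GN 2 n (s + bt E F C x) =
    (∏ f ∈ F, (GN 2 n (s + f) * ∏ e ∈ E, GN 2 n (s + f - e))) ^ C := by
  classical
  rw [Fintype.prod_prod_type]
  simp only [bt, Finset.prod_const, Finset.card_univ, Fintype.card_fin]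
  rw [Finset.prod_pow, Fintype.prod_prod_type]
  congr 1
  rw [← Finset.prod_coe_sort F (fun f => GN 2 n (s + f) * ∏ e ∈ E, GN 2 n (s + f - e))]
  apply Finset.prod_congr rfl
  intro f _
  rw [Fintype.prod_option]
  congr 1
  rw [← Finset.prod_coe_sort E (fun e => GN 2 n (s + f - e))]
  apply Finset.prod_congr rfl
  intro e _
  rw [add_sub_assoc]

/-- the intercepts for a single form -/
def bu (E : Finset ℤ) (r w : ℤ) (C : ℕ) (x : Option ↥E × Fin C) : ℤ :=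
  match x.1 with
  | none => r
  | some e => w - (e : ℤ)

theorem prod_formu (n C : ℕ) (E : Finset ℤ) (r w : ℤ) : ∏ x : Option ↥E × Fin C, GN 2 n (bu E r w C x) =
    (GN 2 n r * ∏ e ∈ E, GN 2 n (w - e)) ^ C := by
  classical
  rw [Fintype.prod_prod_type]
  simp only [bu, Finset.prod_const, Finset.card_univ, Fintype.card_fin]
  rw [Finset.prod_pow]
  congr 1
  rw [Fintype.prod_option]
  congr 1
  rw [← Finset.prod_coe_sort E (fun e => GN 2 n (w - e))]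

open Classical in
/-- the bad representations for one member of the family -/
noncomputable def Bad (n : ℕ) (E F : Finset ℤ) (z L : ℝ) : Finset (Fin 4 → ℤ) :=
  (preps n).filter (fun X => (∀ e ∈ E, Ro z (pf X + e)) ∧ ∃ s : ℤ, |(s : ℝ)| ≤ L ∧ (∀ f ∈ F, Ro z (pf X + s + f)) ∧ ¬ ∀ f ∈ F, s + f ∈ E)

theorem mem_win {L : ℝ} (hL : 0 ≤ L) (d : ℤ) : d ∈ Icc (-((⌊L⌋₊ : ℕ) : ℤ)) (⌊L⌋₊ : ℕ) ↔ |(d : ℝ)| ≤ L := by
  have h1 : d ∈ Icc (-((⌊L⌋₊ : ℕ) : ℤ)) (⌊L⌋₊ : ℕ) ↔ d.natAbs ≤ ⌊L⌋₊ := by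
    rw [mem_Icc]
    omega
  rw [h1, Nat.le_floor_iff hL, Nat.cast_natAbs]
  push_cast
  rfl

open Classical in
theorem Bad_sub (n : ℕ) (E F : Finset ℤ) (z : ℝ) {L : ℝ} (hL : 0 ≤ L) :
    Bad n E F z L ⊆ ((Icc (-((⌊L⌋₊ : ℕ) : ℤ)) (⌊L⌋₊ : ℕ)).filter (fun s => ¬ ∀ f ∈ F, s + f ∈ E)).biUnion (fun s => RR n (E ∪ F.image (fun f => s + f)) z) := by
  intro X hX
  rw [Bad, mem_filter] at hX
  obtain ⟨h1, h2, s, hs, h3, h4⟩ := hX
  rw [mem_biUnion]
  refine ⟨s, mem_filter.2 ⟨(mem_win hL s).2 hs, h4⟩, ?_⟩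
  rw [mem_RR]
  refine ⟨h1, fun d hd => ?_⟩
  rw [mem_union, mem_image] at hd
  rcases hd with hd | ⟨f, hf, rfl⟩
  · exact h2 d hd
  · rw [← add_assoc]
    exact h3 f hf

theorem RR_anti (n : ℕ) {D D' : Finset ℤ} (h : D' ⊆ D) (z : ℝ) : RR n D z ⊆ RR n D' z := by
  intro X hX
  rw [mem_RR] at hX ⊢
  exact ⟨hX.1, fun d hd => hX.2 d (h hd)⟩

open Classical in
theorem card_J (E F I : Finset ℤ) : (I.filter (fun s => ∃ f ∈ F, s + f ∈ insert 0 E)).card ≤ F.card * (E.card + 1) := by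
  have h1 : I.filter (fun s => ∃ f ∈ F, s + f ∈ insert 0 E) ⊆ (F ×ˢ insert 0 E).image (fun p => p.2 - p.1) := by
    intro s hs
    rw [mem_filter] at hs
    obtain ⟨_, f, hf, h2⟩ := hs
    rw [mem_image]
    exact ⟨(f, s + f), mem_product.2 ⟨hf, h2⟩, by simp⟩
  refine (card_le_card h1).trans (card_image_le.trans ?_)
  rw [card_product]
  exact Nat.mul_le_mul_left _ (card_insert_le _ _)

open Classical in
/-- the bad representations of one member of the family -/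
theorem per_gamma (hLOC : St_LOC) (hCNT : St_CNT) (hA : St_AVG) (k t : ℕ) (C2 : ℝ) (hC2 : 0 < C2) (n2 : ℕ)
    (hup : ∀ n : ℕ, Odd n → n2 ≤ n → ∀ D : Finset ℤ, D.card ≤ 2 * k → ((RR n D ((n : ℝ) ^ (1 / (t : ℝ)))).card : ℝ) ≤ C2 * ((preps n).card * VE n D)) :
    ∃ K : ℝ, 0 < K ∧ ∃ n1 : ℕ, ∀ n : ℕ, Odd n → n1 ≤ n → ∀ E : Finset ℤ, E.card ≤ k → (∀ e ∈ E, |e| ≤ n) → ∀ F : Finset ℤ, F.Nonempty →
      F.card ≤ k → (∀ f ∈ F, |f| ≤ n) → (∀ l : ℕ, l.Prime → l ≠ 2 → ∃ r : ℤ, ∀ f ∈ F, ¬ (l : ℤ) ∣ r + f) → ∀ L : ℝ, 0 ≤ L → L ≤ n →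
      ∀ ν : ℝ, 0 ≤ ν → L * VO n F ≤ ν →
      ((Bad n E F ((n : ℝ) ^ (1 / (t : ℝ))) L).card : ℝ) ≤ K * ((preps n).card * VE n E) * (ν + 1 / (Real.log n) ^ (1 / 2 : ℝ)) := by
  obtain ⟨CL, C1, hC1, hloc⟩ := hLOC hCNT k
  obtain ⟨C3, hC3, X0, hav⟩ := avg_gen hA (k * (k + 1) * CL)
  obtain ⟨C5, hC5, hVO⟩ := VO_up
  obtain ⟨m0, hm0⟩ : ∃ m0 : ℕ, X0 ≤ m0 := exists_nat_ge X0
  refine ⟨(k * (k + 1)) * (C2 * C1 * C5 * C3) + C2 * C1 * C3 * (1 + C5), by positivity, max (max n2 m0) 4, ?_⟩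
  intro n hn hnn E hE hEb F hF hFc hFb hadm L hL hLn ν hν hLν
  have hn2 : n2 ≤ n := (le_max_left _ _).trans ((le_max_left _ _).trans hnn)
  have hm : m0 ≤ n := (le_max_right _ _).trans ((le_max_left _ _).trans hnn)
  have hn4 : 4 ≤ n := (le_max_right _ _).trans hnn
  have hnR : (4 : ℝ) ≤ n := by exact_mod_cast hn4
  have hX : X0 ≤ (n : ℝ) := hm0.trans (by exact_mod_cast hm)
  have hk1 : 1 ≤ k := (Finset.card_pos.2 hF).trans_le hFc
  have hlog : 0 < Real.log n := Real.log_pos (by linarith)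
  obtain ⟨Λ, hΛ⟩ : ∃ Λ : ℝ, Λ = (Real.log n) ^ (1 / 2 : ℝ) := ⟨_, rfl⟩
  have hΛpos : 0 < Λ := by rw [hΛ]; positivity
  have hΛ2 : Λ * Λ = Real.log n := by
    rw [hΛ, ← Real.rpow_add (by linarith)]
    norm_num
  rw [← hΛ]
  obtain ⟨P, hP⟩ : ∃ P : ℝ, P = ((preps n).card : ℝ) := ⟨_, rfl⟩
  obtain ⟨V, hV⟩ : ∃ V : ℝ, V = VE n E := ⟨_, rfl⟩
  obtain ⟨V1, hV1⟩ : ∃ V1 : ℝ, V1 = VO n F := ⟨_, rfl⟩
  have hP0 : 0 ≤ P := by rw [hP]; positivity
  have hV0 : 0 ≤ V := hV ▸ VE_nonneg _ _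
  have hV10 : 0 ≤ V1 := hV1 ▸ VO_nonneg _ _ hadm
  have hV1u : V1 ≤ C5 / Real.log n := hV1 ▸ hVO n (by omega) F hF hadm
  rw [← hP, ← hV]
  rw [← hV1] at hLν
  obtain ⟨z, hz⟩ : ∃ z : ℝ, z = (n : ℝ) ^ (1 / (t : ℝ)) := ⟨_, rfl⟩
  rw [← hz]
  have hsz : ∀ s ∈ Icc (-((⌊L⌋₊ : ℕ) : ℤ)) (⌊L⌋₊ : ℕ), |(s : ℝ)| ≤ n := fun s hs => ((mem_win hL s).1 hs).trans hLn
  have hEr : ∀ e ∈ E, |(e : ℝ)| ≤ n := fun e he => by exact_mod_cast hEb e he
  have hFr : ∀ f ∈ F, |(f : ℝ)| ≤ n := fun f hf => by exact_mod_cast hFb f hf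
  have hn3 : 3 * (n : ℝ) ≤ (n : ℝ) ^ 2 := by nlinarith
  -- case (b)
  have hb : ∀ s ∈ Icc (-((⌊L⌋₊ : ℕ) : ℤ)) (⌊L⌋₊ : ℕ), (¬ ∀ f ∈ F, s + f ∈ E) →
      ((RR n (E ∪ F.image (fun f => s + f)) z).card : ℝ) ≤ C2 * C1 * C5 * C3 * (P * V / Λ) := by
    intro s hs hne
    push Not at hne
    obtain ⟨f₀, hf₀, hsf⟩ := hne
    have h1 : ((RR n (E ∪ F.image (fun f => s + f)) z).card : ℝ) ≤ ((RR n (E ∪ ({f₀} : Finset ℤ).image (fun f => s + f)) z).card : ℝ) := by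
      have : (RR n (E ∪ F.image (fun f => s + f)) z).card ≤ (RR n (E ∪ ({f₀} : Finset ℤ).image (fun f => s + f)) z).card := by
        apply card_le_card
        apply RR_anti
        apply union_subset_union_right
        apply image_subset_image
        rw [singleton_subset_iff]
        exact hf₀
      exact_mod_cast this
    have h2 := hup n hn hn2 (E ∪ ({f₀} : Finset ℤ).image (fun f => s + f)) (by
      refine (card_union_le _ _).trans ?_
      have : (({f₀} : Finset ℤ).image (fun f => s + f)).card ≤ 1 := by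
        refine card_image_le.trans ?_
        simp
      omega)
    rw [← hz] at h2
    have hadm1 : ∀ l : ℕ, l.Prime → l ≠ 2 → ∃ r : ℤ, ∀ f ∈ ({f₀} : Finset ℤ), ¬ (l : ℤ) ∣ r + f := by
      intro l hl _
      refine ⟨1 - f₀, fun f hf hd => ?_⟩
      rw [mem_singleton] at hf
      rw [hf] at hd
      have e : 1 - f₀ + f₀ = 1 := by ring
      rw [e] at hd
      have h3 : (l : ℤ) ≤ 1 := Int.le_of_dvd one_pos hd
      have h4 : l ≤ 1 := by exact_mod_cast h3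
      have := hl.two_le
      omega
    have h3 := hloc n hn E {f₀} hE (by simp; omega) hadm1 s (by
      intro f hf e he h
      rw [mem_singleton] at hf
      rw [hf] at h
      rw [h] at hsf
      exact hsf he)
    rw [prod_singleton] at h3
    have h4 := hVO n (by omega) {f₀} (singleton_nonempty _) hadm1
    have h5 := VO_nonneg n {f₀} hadm1
    obtain ⟨r, hr⟩ : ∃ r : ℤ, r = (if s + f₀ = 0 then (n : ℤ) else s + f₀) := ⟨_, rfl⟩
    rw [← hr] at h3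
    have hr0 : r ≠ 0 := by
      rw [hr]
      split_ifs with h
      · have : n ≠ 0 := by omega
        exact_mod_cast this
      · exact h
    have hsf2 : |((s : ℝ) + f₀)| ≤ 2 * n := by
      have := abs_add_le (s : ℝ) f₀
      have h6 := hsz s hs
      have h7 := hFr f₀ hf₀
      linarith
    have hrb : |(r : ℝ)| ≤ (n : ℝ) ^ 2 := by
      rw [hr]
      split_ifs with h
      · push_cast
        rw [abs_of_nonneg (by positivity)]
        linarith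
      · push_cast
        linarith
    have h6 := hav n hX (Option ↥E × Fin CL) (by
      rw [Fintype.card_prod, Fintype.card_option, Fintype.card_coe, Fintype.card_fin]
      have : E.card + 1 ≤ k * (k + 1) := by nlinarith
      exact Nat.mul_le_mul_right _ this) (bu E r (s + f₀) CL) (by
      rintro ⟨o, i⟩
      cases o with
      | none => exact hrb
      | some e =>
        show |(((s + f₀ - (e : ℤ) : ℤ)) : ℝ)| ≤ _
        push_cast
        have h7 := abs_sub ((s : ℝ) + f₀) (e : ℤ)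
        have h8 := hEr (e : ℤ) e.2
        linarith) 0 (by simp)
    have h7 := avg_single h6 (by
      rintro ⟨o, i⟩
      cases o with
      | none => exact hr0
      | some e =>
        show s + f₀ - (e : ℤ) ≠ 0
        intro h
        apply hsf
        rw [sub_eq_zero.1 h]
        exact e.2)
    rw [Nat.floor_natCast, prod_formu, ← hΛ] at h7
    have h8 : 0 ≤ (GN 2 n r * ∏ e ∈ E, GN 2 n (s + f₀ - e)) ^ CL :=
      pow_nonneg (mul_nonneg (GN_nonneg _ _) (prod_nonneg fun e _ => GN_nonneg _ _)) _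
    calc ((RR n (E ∪ F.image (fun f => s + f)) z).card : ℝ)
        ≤ C2 * ((preps n).card * VE n (E ∪ ({f₀} : Finset ℤ).image (fun f => s + f))) := h1.trans h2
      _ ≤ C2 * (P * (C1 * (VE n E * VO n {f₀} * (GN 2 n r * ∏ e ∈ E, GN 2 n (s + f₀ - e)) ^ CL))) := by
        rw [← hP]
        gcongr
      _ ≤ C2 * (P * (C1 * (V * (C5 / Real.log n) * (C3 * Λ)))) := by
        rw [← hV]
        gcongr
      _ = C2 * C1 * C5 * C3 * (P * V / Λ) := by
        rw [← hΛ2]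
        field_simp
  -- case (c)
  have hc : ∀ s ∈ Icc (-((⌊L⌋₊ : ℕ) : ℤ)) (⌊L⌋₊ : ℕ), (¬ ∃ f ∈ F, s + f ∈ insert 0 E) →
      ((RR n (E ∪ F.image (fun f => s + f)) z).card : ℝ) ≤ C2 * C1 * (P * V * V1) * ∏ x : (↥F × Option ↥E) × Fin CL, GN 2 ⌊(n : ℝ)⌋₊ (s + bt E F CL x) := by
    intro s hs hne
    push Not at hne
    have h2 := hup n hn hn2 (E ∪ F.image (fun f => s + f)) (by
      refine (card_union_le _ _).trans ?_
      have : (F.image (fun f => s + f)).card ≤ F.card := card_image_le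
      omega)
    rw [← hz] at h2
    have h3 := hloc n hn E F hE hFc hadm s (by
      intro f hf e he h
      apply hne f hf
      rw [h]
      exact mem_insert_of_mem he)
    have h4 : ∏ f ∈ F, (GN 2 n (if s + f = 0 then (n : ℤ) else s + f) * ∏ e ∈ E, GN 2 n (s + f - e)) =
        ∏ f ∈ F, (GN 2 n (s + f) * ∏ e ∈ E, GN 2 n (s + f - e)) := by
      apply prod_congr rfl
      intro f hf
      rw [if_neg]
      intro h
      apply hne f hf
      rw [h]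
      exact mem_insert_self _ _
    rw [h4] at h3
    rw [Nat.floor_natCast, prod_form]
    calc ((RR n (E ∪ F.image (fun f => s + f)) z).card : ℝ)
        ≤ C2 * ((preps n).card * VE n (E ∪ F.image (fun f => s + f))) := h2
      _ ≤ C2 * (P * (C1 * (VE n E * VO n F * (∏ f ∈ F, (GN 2 n (s + f) * ∏ e ∈ E, GN 2 n (s + f - e))) ^ CL))) := by
        rw [← hP]
        gcongr
      _ = _ := by
        rw [← hV, ← hV1]
        ring
  -- the sum of case (c)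
  have hF1 : F.card * (E.card + 1) ≤ k * (k + 1) := Nat.mul_le_mul hFc (by omega)
  have hsumc := hav n hX ((↥F × Option ↥E) × Fin CL) (by
    rw [Fintype.card_prod, Fintype.card_prod, Fintype.card_option, Fintype.card_coe, Fintype.card_coe, Fintype.card_fin]
    exact Nat.mul_le_mul_right _ hF1) (bt E F CL) (by
    rintro ⟨⟨f, o⟩, i⟩
    cases o with
    | none =>
      show |((f : ℤ) : ℝ)| ≤ _
      have := hFr f f.2
      linarith
    | some e =>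
      show |(((f : ℤ) - (e : ℤ) : ℤ) : ℝ)| ≤ _
      push_cast
      have h7 := abs_sub ((f : ℤ) : ℝ) ((e : ℤ) : ℝ)
      have h8 := hEr (e : ℤ) e.2
      have h9 := hFr (f : ℤ) f.2
      linarith) ⌊L⌋₊ ((Nat.floor_le hL).trans hLn)
  rw [← hΛ] at hsumc
  have hfl : ((⌊L⌋₊ : ℕ) : ℝ) ≤ L := Nat.floor_le hL
  -- the union bound
  have hcard := card_le_card (Bad_sub n E F z hL)
  have hcard2 : ((Bad n E F z L).card : ℝ) ≤ ∑ s ∈ (Icc (-((⌊L⌋₊ : ℕ) : ℤ)) (⌊L⌋₊ : ℕ)).filter (fun s => ¬ ∀ f ∈ F, s + f ∈ E),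
      ((RR n (E ∪ F.image (fun f => s + f)) z).card : ℝ) := by
    exact_mod_cast hcard.trans card_biUnion_le
  refine hcard2.trans ?_
  rw [← sum_filter_add_sum_filter_not _ (fun s => ∃ f ∈ F, s + f ∈ insert 0 E)]
  have hB : ∑ s ∈ ((Icc (-((⌊L⌋₊ : ℕ) : ℤ)) (⌊L⌋₊ : ℕ)).filter (fun s => ¬ ∀ f ∈ F, s + f ∈ E)).filter (fun s => ∃ f ∈ F, s + f ∈ insert 0 E),
      ((RR n (E ∪ F.image (fun f => s + f)) z).card : ℝ) ≤ (k * (k + 1)) * (C2 * C1 * C5 * C3 * (P * V / Λ)) := by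
    have h1 : ∑ s ∈ ((Icc (-((⌊L⌋₊ : ℕ) : ℤ)) (⌊L⌋₊ : ℕ)).filter (fun s => ¬ ∀ f ∈ F, s + f ∈ E)).filter (fun s => ∃ f ∈ F, s + f ∈ insert 0 E),
      ((RR n (E ∪ F.image (fun f => s + f)) z).card : ℝ) ≤
        ∑ s ∈ ((Icc (-((⌊L⌋₊ : ℕ) : ℤ)) (⌊L⌋₊ : ℕ)).filter (fun s => ¬ ∀ f ∈ F, s + f ∈ E)).filter (fun s => ∃ f ∈ F, s + f ∈ insert 0 E),
          (C2 * C1 * C5 * C3 * (P * V / Λ)) := by
      apply sum_le_sum
      intro s hs
      rw [mem_filter, mem_filter] at hs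
      exact hb s hs.1.1 hs.1.2
    refine h1.trans ?_
    rw [sum_const, nsmul_eq_mul]
    apply mul_le_mul_of_nonneg_right _ (by positivity)
    have h2 := card_J E F ((Icc (-((⌊L⌋₊ : ℕ) : ℤ)) (⌊L⌋₊ : ℕ)).filter (fun s => ¬ ∀ f ∈ F, s + f ∈ E))
    exact_mod_cast h2.trans hF1
  have hCs : ∑ s ∈ ((Icc (-((⌊L⌋₊ : ℕ) : ℤ)) (⌊L⌋₊ : ℕ)).filter (fun s => ¬ ∀ f ∈ F, s + f ∈ E)).filter (fun s => ¬ ∃ f ∈ F, s + f ∈ insert 0 E),
      ((RR n (E ∪ F.image (fun f => s + f)) z).card : ℝ) ≤ C2 * C1 * (P * V * V1) * (C3 * (L + Λ)) := by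
    have h1 : ∑ s ∈ ((Icc (-((⌊L⌋₊ : ℕ) : ℤ)) (⌊L⌋₊ : ℕ)).filter (fun s => ¬ ∀ f ∈ F, s + f ∈ E)).filter (fun s => ¬ ∃ f ∈ F, s + f ∈ insert 0 E),
      ((RR n (E ∪ F.image (fun f => s + f)) z).card : ℝ) ≤
        ∑ s ∈ ((Icc (-((⌊L⌋₊ : ℕ) : ℤ)) (⌊L⌋₊ : ℕ)).filter (fun s => ¬ ∀ f ∈ F, s + f ∈ E)).filter (fun s => ¬ ∃ f ∈ F, s + f ∈ insert 0 E),
          (C2 * C1 * (P * V * V1) * ∏ x : (↥F × Option ↥E) × Fin CL, GN 2 ⌊(n : ℝ)⌋₊ (s + bt E F CL x)) := by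
      apply sum_le_sum
      intro s hs
      rw [mem_filter, mem_filter] at hs
      exact hc s hs.1.1 hs.2
    refine h1.trans ?_
    rw [← mul_sum]
    apply mul_le_mul_of_nonneg_left _ (by positivity)
    have h2 : ∑ s ∈ ((Icc (-((⌊L⌋₊ : ℕ) : ℤ)) (⌊L⌋₊ : ℕ)).filter (fun s => ¬ ∀ f ∈ F, s + f ∈ E)).filter (fun s => ¬ ∃ f ∈ F, s + f ∈ insert 0 E),
        ∏ x : (↥F × Option ↥E) × Fin CL, GN 2 ⌊(n : ℝ)⌋₊ (s + bt E F CL x) ≤
        ∑ d ∈ (Icc (-((⌊L⌋₊ : ℕ) : ℤ)) (⌊L⌋₊ : ℕ)).filter (fun d => ∀ x, d + bt E F CL x ≠ 0), ∏ x : (↥F × Option ↥E) × Fin CL, GN 2 ⌊(n : ℝ)⌋₊ (d + bt E F CL x) := by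
      apply sum_le_sum_of_subset_of_nonneg
      · intro s hs
        rw [mem_filter, mem_filter] at hs
        obtain ⟨⟨h3, _⟩, h4⟩ := hs
        push Not at h4
        rw [mem_filter]
        refine ⟨h3, ?_⟩
        rintro ⟨⟨f, o⟩, i⟩
        cases o with
        | none =>
          show s + (f : ℤ) ≠ 0
          intro h
          apply h4 f f.2
          rw [h]
          exact mem_insert_self _ _
        | some e =>
          show s + ((f : ℤ) - (e : ℤ)) ≠ 0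
          intro h
          apply h4 f f.2
          have : s + (f : ℤ) = e := by linarith
          rw [this]
          exact mem_insert_of_mem e.2
      · intro s _ _
        exact prod_nonneg fun x _ => GN_nonneg _ _
    refine h2.trans (hsumc.trans ?_)
    gcongr
  refine (add_le_add hB hCs).trans ?_
  have e1 : V1 * (L + Λ) ≤ (1 + C5) * (ν + 1 / Λ) := by
    have h1 : V1 * Λ ≤ C5 * (1 / Λ) := by
      calc V1 * Λ ≤ C5 / Real.log n * Λ := by gcongr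
        _ = C5 * (1 / Λ) := by
          rw [← hΛ2]
          field_simp
    have h2 : 0 ≤ 1 / Λ := by positivity
    nlinarith [mul_nonneg hC5.le hν]
  have e2 : C2 * C1 * (P * V * V1) * (C3 * (L + Λ)) ≤ C2 * C1 * C3 * (P * V) * ((1 + C5) * (ν + 1 / Λ)) := by
    calc C2 * C1 * (P * V * V1) * (C3 * (L + Λ)) = C2 * C1 * C3 * (P * V) * (V1 * (L + Λ)) := by ring
      _ ≤ _ := by gcongr
  have e3 : (k * (k + 1)) * (C2 * C1 * C5 * C3 * (P * V / Λ)) ≤ (k * (k + 1)) * (C2 * C1 * C5 * C3) * (P * V) * (ν + 1 / Λ) := by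
    have : (k * (k + 1)) * (C2 * C1 * C5 * C3 * (P * V / Λ)) = (k * (k + 1)) * (C2 * C1 * C5 * C3) * (P * V) * (1 / Λ) := by ring
    rw [this]
    gcongr
    linarith
  calc _ ≤ (k * (k + 1)) * (C2 * C1 * C5 * C3) * (P * V) * (ν + 1 / Λ) + C2 * C1 * C3 * (P * V) * ((1 + C5) * (ν + 1 / Λ)) := add_le_add e3 e2
    _ = _ := by ring

end Pool.Agent.Q117.FQ.NQX

namespace Pool.Agent.Q117.FQ

open Finset Filter
open Pool.Agent.W65.FS
open Pool.Agent.Q117.LF (GN oF Ro St_AVG)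
open Pool.Agent.Q117.FQ.NQX

open Classical in
theorem nq : St_NQ := by
  intro hG hLOC hCNT hA k g
  obtain ⟨t, ht, c, hc, C, hC, n0, hRR⟩ := rr_bounds hG k
  obtain ⟨K, hK, n1, hbad⟩ := per_gamma hLOC hCNT hA k t C hC n0 (fun n hn hnn => (hRR n hn hnn).2)
  have hgK : 0 < (g : ℝ) * K + 1 := by positivity
  obtain ⟨n3, hn3⟩ : ∃ n3 : ℕ, ∀ n : ℕ, n3 ≤ n → (4 * ((g : ℝ) * K + 1) / c) ≤ (Real.log n) ^ (1 / 2 : ℝ) := by
    have h := ((tendsto_rpow_atTop (by norm_num : (0 : ℝ) < 1 / 2)).comp (Real.tendsto_log_atTop.comp tendsto_natCast_atTop_atTop)).eventually_ge_atTop (4 * ((g : ℝ) * K + 1) / c)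
    obtain ⟨n3, hn3⟩ := eventually_atTop.1 h
    exact ⟨n3, hn3⟩
  refine ⟨t, ht, c / 2, by positivity, c / (4 * ((g : ℝ) * K + 1)), by positivity, max (max n0 n1) n3, ?_⟩
  intro n hn hnn E hE hEb hEl F hF L hL
  have h0 : n0 ≤ n := (le_max_left _ _).trans ((le_max_left _ _).trans hnn)
  have h1 : n1 ≤ n := (le_max_right _ _).trans ((le_max_left _ _).trans hnn)
  have h3 := hn3 n ((le_max_right _ _).trans hnn)
  obtain ⟨z, hz⟩ : ∃ z : ℝ, z = (n : ℝ) ^ (1 / (t : ℝ)) := ⟨_, rfl⟩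
  obtain ⟨Λ, hΛ⟩ : ∃ Λ : ℝ, Λ = (Real.log n) ^ (1 / 2 : ℝ) := ⟨_, rfl⟩
  have hlow := (hRR n hn h0).1 E hE (fun e he => (hEb e he).1) hEl
  obtain ⟨M, hM⟩ : ∃ M : ℝ, M = (preps n).card * VE n E := ⟨_, rfl⟩
  have hM0 : 0 ≤ M := by
    rw [hM]
    exact mul_nonneg (by positivity) (VE_nonneg _ _)
  rw [← hM, ← hz] at hlow
  rw [← hM, ← hz]
  rw [← hΛ] at h3
  have hΛpos : 0 < Λ := lt_of_lt_of_le (by positivity) h3
  have hsub : RR n E z ⊆ NQ n E z L F ∪ (Finset.univ : Finset (Fin g)).biUnion (fun γ => Bad n E (F γ) z (L γ)) := by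
    intro X hX
    rw [mem_RR] at hX
    rw [mem_union]
    by_cases hq : ∀ γ, ∀ s : ℤ, |(s : ℝ)| ≤ L γ → (∀ f ∈ F γ, Ro z (pf X + s + f)) → ∀ f ∈ F γ, s + f ∈ E
    · left
      rw [NQ, mem_filter]
      exact ⟨hX.1, hX.2, hq⟩
    · right
      simp only [not_forall] at hq
      obtain ⟨γ, s, hs, hs2, f, hf, hs3⟩ := hq
      rw [mem_biUnion]
      refine ⟨γ, mem_univ _, ?_⟩
      rw [Bad, mem_filter]
      exact ⟨hX.1, hX.2, s, hs, hs2, fun h => hs3 (h f hf)⟩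
  have hcard := (card_le_card hsub).trans ((card_union_le _ _).trans (Nat.add_le_add_left card_biUnion_le _))
  have hcardR : ((RR n E z).card : ℝ) ≤ ((NQ n E z L F).card : ℝ) + ∑ γ, ((Bad n E (F γ) z (L γ)).card : ℝ) := by
    exact_mod_cast hcard
  have hsum : ∑ γ, ((Bad n E (F γ) z (L γ)).card : ℝ) ≤ ∑ _γ : Fin g, K * M * (c / (4 * ((g : ℝ) * K + 1)) + 1 / Λ) := by
    apply sum_le_sum
    intro γ _
    obtain ⟨hF1, hF2, hF3, hF4⟩ := hF γ
    obtain ⟨hL1, hL2, hL3⟩ := hL γ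
    have := hbad n hn h1 E hE (fun e he => (hEb e he).2) (F γ) hF1 hF2 hF3 hF4 (L γ) hL1 hL2 (c / (4 * ((g : ℝ) * K + 1))) (by positivity) hL3
    rw [← hM, ← hz, ← hΛ] at this
    exact this
  rw [sum_const, card_univ, Fintype.card_fin, nsmul_eq_mul] at hsum
  have h4 : 1 / Λ ≤ c / (4 * ((g : ℝ) * K + 1)) := by
    rw [div_le_div_iff₀ hΛpos (by positivity)]
    rw [div_le_iff₀ hc] at h3
    linarith
  have h5 : (g : ℝ) * (K * M * (c / (4 * ((g : ℝ) * K + 1)) + 1 / Λ)) ≤ c / 2 * M := by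
    calc (g : ℝ) * (K * M * (c / (4 * ((g : ℝ) * K + 1)) + 1 / Λ))
        ≤ (g : ℝ) * (K * M * (c / (4 * ((g : ℝ) * K + 1)) + c / (4 * ((g : ℝ) * K + 1)))) := by gcongr
      _ = ((g : ℝ) * K / ((g : ℝ) * K + 1)) * (c / 2 * M) := by
        field_simp
        ring
      _ ≤ 1 * (c / 2 * M) := by
        apply mul_le_mul_of_nonneg_right _ (by positivity)
        rw [div_le_one hgK]
        linarith
      _ = _ := one_mul _
  linarith

end Pool.Agent.Q117.FQ
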