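import Pool.Agent.Q117.FQ.Gs
import Pool.Agent.Q117.SI.Rsi

/-!
Project FQ (helper117), job RQ: all prescribed surroundings at Rankin's scale on the sphere.
-/

set_option autoImplicit false
set_option linter.all false

namespace Pool.Agent.Q117.FQ.RQa

open Finset Filter Topology
open Pool.Agent.W65.FS
open Pool.Agent.Q117.FQ.GSa
open Pool.Agent.Q117.LF (Ro GN oF St_AVG St_COVA AdmA Rk_large)
open Pool.Agent.Q117.GP (Rk)
open Pool.Agent.Q117.SI (WW_bound St_RKS)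
open Pool.Agent.Y843.HS (Pr Pr_mem Pr_prime)
open Pool.Agent.Y843.HG (V1 V1_bounds V1_pos)
open Pool.Agent.H378R2 (GoodS GoodP WW PW yy)

/-- the claim for the sets with `k'` elements -/
def RQs (t : ℕ) (ε : ℝ) (k' : ℕ) (c : ℝ) (n : ℕ) : Prop :=
  Odd n → ∀ H : Finset ℤ, H.card = k' → 0 ∈ H → (∀ h ∈ H, Even h ∧ |(h : ℝ)| ≤ c * Rk n) →
    (∀ l : ℕ, l.Prime → l ≠ 2 → ∃ r : ℤ, ∀ h ∈ H, ¬ (l : ℤ) ∣ r + h) →
    (n : ℝ) ^ (1 - ε) ≤ ((RQ n H ((n : ℝ) ^ (1 / (t : ℝ))) (c * Rk n) (Real.log n)).card : ℝ)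

/-- the bad classes -/
noncomputable def BH (H : Finset ℤ) (n l : ℕ) : Finset (Fin 4 → ℤ) := (Gl n l).filter (fun c => ∃ h ∈ H, (l : ℤ) ∣ pf c + h)

lemma BH_card (H : Finset ℤ) {k : ℕ} (hH : H.card ≤ k) (n l : ℕ) (hl : l.Prime) (hl2 : l ≠ 2) :
    (BH H n l).card ≤ 4 * k * l ^ 2 := by
  classical
  have h1 : BH H n l ⊆ H.biUnion (fun h => (Gl n l).filter (fun c => (l : ℤ) ∣ pf c - (-h))) := by
    intro c hc
    unfold BH at hc
    rw [Finset.mem_filter] at hc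
    obtain ⟨h1, h, hh, h2⟩ := hc
    rw [Finset.mem_biUnion]
    refine ⟨h, hh, ?_⟩
    rw [Finset.mem_filter, sub_neg_eq_add]
    exact ⟨h1, h2⟩
  calc (BH H n l).card ≤ (H.biUnion (fun h => (Gl n l).filter (fun c => (l : ℤ) ∣ pf c - (-h)))).card :=
        Finset.card_le_card h1
    _ ≤ ∑ h ∈ H, ((Gl n l).filter (fun c => (l : ℤ) ∣ pf c - (-h))).card := Finset.card_biUnion_le
    _ ≤ ∑ h ∈ H, 4 * l ^ 2 := by
      apply Finset.sum_le_sum
      intro h _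
      apply bad_tau l hl hl2 n (-h)
      intro c hc
      rw [Finset.mem_filter] at hc
      exact hc
    _ = H.card * (4 * l ^ 2) := by rw [Finset.sum_const, smul_eq_mul]
    _ ≤ k * (4 * l ^ 2) := Nat.mul_le_mul_right _ hH
    _ = _ := by ring

lemma BH_ok (H : Finset ℤ) {k : ℕ} (hH : H.card ≤ k) (n l : ℕ) (hl : l.Prime) (hl2 : l ≠ 2)
    (hbig : 4 * k + 2 ≤ l) : BH H n l ⊆ Gl n l ∧ BH H n l ≠ Gl n l ∧ (BH H n l).card ≤ 4 * k * l ^ 2 := by
  have h1 := BH_card H hH n l hl hl2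
  refine ⟨Finset.filter_subset _ _, ?_, h1⟩
  intro h
  have h2 := count_lower l hl hl2 n
  rw [h] at h1
  have h3 : ((Gl n l).card : ℝ) ≤ 4 * k * (l : ℝ) ^ 2 := by exact_mod_cast h1
  have h4 : 4 * (k : ℝ) + 2 ≤ l := by exact_mod_cast hbig
  have h5 : (0 : ℝ) ≤ k := Nat.cast_nonneg _
  have h6 : (0 : ℝ) < l := by linarith
  have h7 : (l : ℝ) ^ 3 - l ≤ 4 * k * (l : ℝ) ^ 2 := h2.trans h3
  have h8 : (4 * (k : ℝ) + 2) * (l : ℝ) ^ 2 ≤ l * (l : ℝ) ^ 2 := mul_le_mul_of_nonneg_right h4 (by positivity)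
  nlinarith

lemma dvd_WW {Y : ℝ} {l : ℕ} (hl : l.Prime) : l ∣ WW Y ∅ 1 ↔ l ≤ yy Y := by
  unfold WW
  constructor
  · intro h
    obtain ⟨q, hq, hpq⟩ := (Nat.Prime.prime hl).exists_mem_finset_dvd h
    unfold PW at hq
    obtain ⟨hq1, hq2, -, -⟩ := Finset.mem_filter.1 hq
    have e : l = q := (Nat.prime_dvd_prime_iff_eq hl hq2).1 hpq
    subst e
    exact (Finset.mem_Icc.1 hq1).2
  · intro h
    apply Finset.dvd_prod_of_mem
    unfold PW
    rw [Finset.mem_filter, Finset.mem_Icc]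
    exact ⟨⟨hl.one_lt.le, h⟩, hl, Finset.notMem_empty _, hl.one_lt.ne'⟩

lemma V1_le_one (y : ℕ) : V1 y ≤ 1 := by
  unfold V1
  apply Finset.prod_le_one
  · intro l hl
    have h1 : (1 : ℝ) ≤ l := by exact_mod_cast (Pr_prime hl).one_lt.le
    have h2 : 1 / (l : ℝ) ≤ 1 := by rw [div_le_one (by linarith)]; exact h1
    linarith
  · intro l hl
    have : 0 ≤ 1 / (l : ℝ) := by positivity
    linarith

/-- lower bound for the expected number -/
lemma Mn_lower {n k : ℕ} {P0 : Finset ℕ} {S : ℕ → Finset (Fin 4 → ℤ)} {H : Finset ℤ} (hH : H.card ≤ k) {y : ℕ}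
    (hP0 : P0 = (Icc 3 y).filter Nat.Prime) (hy : 16 * k + 4 ≤ y) (hyn : y ≤ n)
    (hS : ∀ l ∈ P0, l.Prime ∧ l ≠ 2 ∧ S l ⊆ Gl n l ∧ (S l).Nonempty) {c : ℝ} (hc : 0 < c)
    (hV : c / Real.log n ≤ V1 n) (hlog : 0 < Real.log n) :
    ((preps n).card : ℝ) * (1 / ((∏ l ∈ P0, l : ℕ) : ℝ) ^ 4) * (c / Real.log n) ^ (16 * k) ≤
      Mn n P0 S (BH H n) := by
  have hB : ∀ l : ℕ, l.Prime → l ≠ 2 → l ∉ P0 → BH H n l ⊆ Gl n l ∧ BH H n l ≠ Gl n l ∧
      (BH H n l).card ≤ (4 * k) * l ^ 2 := by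
    intro l hl hl2 hlP
    apply BH_ok H hH n l hl hl2
    by_contra hcon
    apply hlP
    rw [hP0, Finset.mem_filter, Finset.mem_Icc]
    have := hl.two_le
    exact ⟨⟨by omega, by omega⟩, hl⟩
  rw [Mn_eq, Mz_split n P0 S (BH H n) (by omega : 2 ≤ y) hyn]
  have h1 := tail (n := n) (κ := 4 * k) (P0 := P0) (B := BH H n) (y := y) (y' := n) (by omega) hyn hB
  have h2 : (c / Real.log n) ^ (16 * k) ≤ (V1 n / V1 y) ^ (4 * (4 * k)) := by
    have e : 16 * k = 4 * (4 * k) := by ring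
    rw [e]
    apply pow_le_pow_left₀ (by positivity)
    refine hV.trans ?_
    rw [le_div_iff₀ (V1_pos y)]
    exact mul_le_of_le_one_right (V1_pos n).le (V1_le_one y)
  have h3 : ((preps n).card : ℝ) * (1 / ((∏ l ∈ P0, l : ℕ) : ℝ) ^ 4) ≤ Mz n P0 S (BH H n) y := by
    unfold Mz
    have h4 : (Icc 3 y).filter (fun l => l.Prime ∧ l ∉ P0) = ∅ := by
      apply Finset.filter_eq_empty_iff.2
      intro l hl h5
      apply h5.2
      rw [hP0, Finset.mem_filter]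
      exact ⟨hl, h5.1⟩
    rw [h4, Finset.prod_empty, mul_one]
    apply mul_le_mul_of_nonneg_left _ (Nat.cast_nonneg _)
    have h4 : 1 / ((∏ l ∈ P0, l : ℕ) : ℝ) ^ 4 = ∏ l ∈ P0, (1 / (l : ℝ) ^ 4) := by
      push_cast
      rw [Finset.prod_div_distrib, Finset.prod_const_one, Finset.prod_pow]
    rw [h4]
    apply Finset.prod_le_prod
    · intro l _; positivity
    · intro l hl
      obtain ⟨h5, h6, h7, h8⟩ := hS l hl
      have h9 : (0 : ℝ) < (Gl n l).card := by exact_mod_cast Finset.card_pos.2 (h8.mono h7)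
      apply div_le_div₀ (by positivity) _ h9 _
      · exact_mod_cast Finset.card_pos.2 h8
      · exact_mod_cast card_Gl_le n l
  have h5 : 0 ≤ ((preps n).card : ℝ) * (1 / ((∏ l ∈ P0, l : ℕ) : ℝ) ^ 4) := by positivity
  exact mul_le_mul h3 (h2.trans h1) (by positivity) (h5.trans h3)

lemma rq_main {k t : ℕ} {ε : ℝ} (hε : 0 < ε) (ht : 1 ≤ t) {c₀ : ℝ} (hc₀ : 0 < c₀) {N0 : ℕ}
    (hG : ∀ n : ℕ, Odd n → N0 ≤ n → ∀ (P0 : Finset ℕ) (S B : ℕ → Finset (Fin 4 → ℤ)),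
      (∀ l ∈ P0, l.Prime ∧ l ≠ 2 ∧ S l ⊆ Gl n l ∧ (S l).Nonempty) →
      ((∏ l ∈ P0, l : ℕ) : ℝ) ≤ (n : ℝ) ^ (1 / (t : ℝ)) →
      (∀ l : ℕ, l.Prime → l ≠ 2 → l ∉ P0 → B l ⊆ Gl n l ∧ B l ≠ Gl n l ∧ (B l).card ≤ (4 * k) * l ^ 2) →
      c₀ * Mn n P0 S B ≤ ((Cnd n P0 S B ((n : ℝ) ^ (1 / (t : ℝ)))).card : ℝ))
    (hT : ∀ l : ℕ, l.Prime → l ≠ 2 → ∀ n : ℕ, ∀ τ : ℤ, ¬ (l : ℤ) ∣ τ → (Tl n l τ).Nonempty)
    (hC : St_COVA) (hK : St_RKS) (k' : ℕ) (hk1 : 1 ≤ k') (hkk : k' ≤ k) :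
    ∀ᶠ c : ℝ in 𝓝[>] 0, ∀ᶠ n : ℕ in atTop, RQs t ε k' c n := by
  classical
  obtain ⟨c1, hc1, hlow⟩ := preps_lower (ε / 4) (by positivity)
  obtain ⟨cV, CV, hcV, -, hV⟩ := V1_bounds
  have htr : (0 : ℝ) < t := by exact_mod_cast (show 0 < t by omega)
  obtain ⟨α, hα⟩ : ∃ α : ℝ, α = min (1 / (t : ℝ)) (min (ε / 32) 1) := ⟨_, rfl⟩
  have hα0 : 0 < α := by rw [hα]; exact lt_min (by positivity) (lt_min (by positivity) one_pos)
  have hα1 : α ≤ 1 := by rw [hα]; exact (min_le_right _ _).trans (min_le_right _ _)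
  have hαt : α ≤ 1 / (t : ℝ) := by rw [hα]; exact min_le_left _ _
  have hαε : α ≤ ε / 32 := by rw [hα]; exact (min_le_right _ _).trans (min_le_left _ _)
  obtain ⟨cc, hcc, X₂, hC⟩ := hC k' 2 hk1 (by norm_num)
  obtain ⟨X₃, hK⟩ := hK α hα0 hα1
  obtain ⟨X₄, hRk⟩ := Rk_large (cc / 2) (by positivity) 2
  filter_upwards [Ioc_mem_nhdsGT (show (0 : ℝ) < min (cc * α / 16) 1 by positivity)] with c hc
  obtain ⟨hc0, hc2⟩ := hc
  have hcc' : c ≤ cc * α / 16 := hc2.trans (min_le_left _ _)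
  have hc1' : c ≤ 1 := hc2.trans (min_le_right _ _)
  have hnat : Tendsto (fun n : ℕ => (n : ℝ)) atTop atTop := tendsto_natCast_atTop_atTop
  have ev1 : ∀ᶠ X : ℝ in atTop, (Real.log X) ^ (16 * k) ≤ c₀ * c1 * cV ^ (16 * k) * X ^ (ε / 2) := by
    have h1 : (fun X : ℝ => (Real.log X) ^ ((16 * k : ℕ) : ℝ)) =o[atTop] fun X : ℝ => X ^ (ε / 2) :=
      isLittleO_log_rpow_rpow_atTop ((16 * k : ℕ) : ℝ) (by positivity)
    have h2 := h1.bound (show (0 : ℝ) < c₀ * c1 * cV ^ (16 * k) by positivity)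
    filter_upwards [h2, eventually_ge_atTop 1] with X hX hX1
    have h3 : 0 ≤ Real.log X := Real.log_nonneg hX1
    rw [Real.norm_of_nonneg (by positivity), Real.norm_of_nonneg (by positivity),
      Real.rpow_natCast] at hX
    exact hX
  have ev2 : ∀ᶠ X : ℝ in atTop, 1000 * ((16 * k : ℕ) + 5) / α ≤ Real.log X :=
    Real.tendsto_log_atTop.eventually_ge_atTop _
  have hpow := tendsto_rpow_atTop hα0
  filter_upwards [hnat.eventually ev1, hnat.eventually ev2, hnat.eventually_ge_atTop X₃, eventually_ge_atTop 3,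
    hnat.eventually (hpow.eventually_ge_atTop X₂), hnat.eventually (hpow.eventually_ge_atTop X₄),
    eventually_ge_atTop N0] with n e1 e2 g3 g0 g2 g4 gN
  intro hno H hH h0H hHc hAdm
  have hX3 : (3 : ℝ) ≤ n := by exact_mod_cast g0
  have hX0 : (0 : ℝ) < n := by linarith
  have hX1 : (1 : ℝ) ≤ n := by linarith
  obtain ⟨hRk0, hRk2, hRkα⟩ := hK n g3
  have hRkX := hRk ((n : ℝ) ^ α) g4
  obtain ⟨Y, hY⟩ : ∃ Y : ℝ, Y = (n : ℝ) ^ α := ⟨_, rfl⟩
  rw [← hY] at hRkα hRkX g2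
  have hY1 : 1 ≤ Y := by rw [hY]; exact Real.one_le_rpow hX1 hα0.le
  have hcR : 0 < c * Rk n := by positivity
  obtain ⟨O, hO⟩ : ∃ O : ℕ, O = ⌈c * Rk n⌉₊ := ⟨_, rfl⟩
  have hO1 : c * Rk n ≤ O := by rw [hO]; exact Nat.le_ceil _
  have hO2 : (O : ℝ) < c * Rk n + 1 := by rw [hO]; exact Nat.ceil_lt_add_one hcR.le
  have hO3 : 2 * (O : ℝ) ≤ cc * Rk Y := by
    have hRkY : 0 < Rk Y := by
      by_contra hcon
      have : cc / 2 * Rk Y ≤ 0 := mul_nonpos_of_nonneg_of_nonpos (by positivity) (not_lt.1 hcon)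
      linarith
    have h1 : c * Rk n ≤ c * (4 / α * Rk Y) := mul_le_mul_of_nonneg_left hRkα hc0.le
    have h2 : c * (4 / α * Rk Y) ≤ cc / 4 * Rk Y := by
      have h3 : c * (4 / α) ≤ cc / 4 := by
        rw [mul_div_assoc', div_le_iff₀ hα0]
        linarith
      calc c * (4 / α * Rk Y) = c * (4 / α) * Rk Y := by ring
        _ ≤ _ := mul_le_mul_of_nonneg_right h3 hRkY.le
    linarith
  -- nonnegativity of the shifted elements
  have hpos : ∀ v : ℤ, |(v : ℝ)| ≤ c * Rk n → 0 ≤ v + O ∧ v + O ≤ 2 * O := by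
    intro v hv
    have h1 := abs_le.1 (hv.trans hO1)
    constructor
    · have : -(O : ℤ) ≤ v := by exact_mod_cast h1.1
      linarith
    · have : v ≤ (O : ℤ) := by exact_mod_cast h1.2
      linarith
  obtain ⟨E', hE'⟩ : ∃ E' : Finset ℕ, E' = H.image (fun e : ℤ => (e + O).toNat) := ⟨_, rfl⟩
  have hinj : ∀ v w : ℤ, |(v : ℝ)| ≤ c * Rk n → |(w : ℝ)| ≤ c * Rk n →
      (v + O).toNat = (w + O).toNat → v = w := by
    intro v w hv hw hvw
    have h1 := (hpos v hv).1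
    have h2 := (hpos w hw).1
    have h3 : ((v + O).toNat : ℤ) = ((w + O).toNat : ℤ) := by rw [hvw]
    rw [Int.toNat_of_nonneg h1, Int.toNat_of_nonneg h2] at h3
    linarith
  have hcard : E'.card = k' := by
    rw [hE', Finset.card_image_of_injOn, hH]
    intro v hv w hw hvw
    exact hinj v w (hHc v hv).2 (hHc w hw).2 hvw
  have hle : ∀ v : ℤ, |(v : ℝ)| ≤ c * Rk n → (((v + O).toNat : ℕ) : ℝ) ≤ cc * Rk Y := by
    intro v hv
    have h1 := hpos v hv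
    have h2 : (((v + O).toNat : ℕ) : ℤ) ≤ 2 * O := by
      rw [Int.toNat_of_nonneg h1.1]; exact h1.2
    have h3 : (((v + O).toNat : ℕ) : ℝ) ≤ 2 * (O : ℝ) := by exact_mod_cast h2
    linarith
  have hAdmA : AdmA 2 E' := by
    intro p hp hp2
    obtain ⟨r, hr⟩ := hAdm p hp (fun h => hp2 (by rw [h]))
    have hp0 : (p : ℤ) ≠ 0 := by exact_mod_cast hp.ne_zero
    refine ⟨((r - O) % (p : ℤ)).toNat, fun s hs hd => ?_⟩
    rw [hE', Finset.mem_image] at hs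
    obtain ⟨e, he, rfl⟩ := hs
    apply hr e he
    have h1 : ((((r - O) % (p : ℤ)).toNat + (e + O).toNat : ℕ) : ℤ) =
        (r - O) % (p : ℤ) + (e + O) := by
      rw [Nat.cast_add, Int.toNat_of_nonneg (Int.emod_nonneg _ hp0),
        Int.toNat_of_nonneg (hpos e (hHc e he).2).1]
    have h2 : (p : ℤ) ∣ (r - O) % (p : ℤ) + (e + O) := by
      rw [← h1]
      exact_mod_cast hd
    have h3 : r + e = ((r - O) % (p : ℤ) + (e + O)) + (p : ℤ) * ((r - O) / (p : ℤ)) := by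
      have := Int.emod_add_mul_ediv (r - O) (p : ℤ)
      linarith
    rw [h3]
    exact dvd_add h2 (dvd_mul_right _ _)
  have hGS : GoodS Y ∅ := by
    refine ⟨fun q hq => absurd hq (Finset.notMem_empty q), ?_⟩
    rw [Finset.sum_empty]
    positivity
  obtain ⟨a₀, ha₀⟩ := hC Y g2 1 ∅ (Or.inl rfl) hGS E' hcard (by
    intro s hs
    rw [hE', Finset.mem_image] at hs
    obtain ⟨e, he, rfl⟩ := hs
    exact hle e (hHc e he).2) hAdmA
  obtain ⟨hW1, hW2, hW3⟩ := WW_bound hY1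
  -- the primes with prescribed classes
  obtain ⟨y, hy⟩ : ∃ y : ℕ, y = yy Y := ⟨_, rfl⟩
  have hlogY : Real.log Y = α * Real.log n := by rw [hY, Real.log_rpow hX0]
  have hlogn : 0 < Real.log n := Real.log_pos (by linarith)
  have hybig : 16 * k + 4 ≤ y := by
    have h1 : ((16 * k : ℕ) : ℝ) + 5 ≤ Real.log Y / 1000 := by
      rw [hlogY]
      rw [div_le_iff₀ hα0] at e2
      linarith
    have h2 : Real.log Y / 1000 < (y : ℝ) + 1 := by
      rw [hy]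
      exact Nat.lt_floor_add_one _
    have h3 : ((16 * k + 4 : ℕ) : ℝ) < (y : ℝ) := by
      push_cast at h1 ⊢
      linarith
    exact_mod_cast h3.le
  have hyY : (y : ℝ) ≤ Real.log Y := by
    have h1 : (y : ℝ) ≤ Real.log Y / 1000 := by
      rw [hy]
      exact Nat.floor_le (by rw [hlogY]; positivity)
    have h2 : 0 ≤ Real.log Y := by rw [hlogY]; positivity
    linarith
  have hYn : Real.log Y ≤ Real.log n := by
    rw [hlogY]
    nlinarith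
  have hyn : y ≤ n := by
    have h1 : Real.log n ≤ n := (Real.log_le_sub_one_of_pos hX0).trans (by linarith)
    have h2 : (y : ℝ) ≤ n := by linarith
    exact_mod_cast h2
  obtain ⟨P0, hP0⟩ : ∃ P0 : Finset ℕ, P0 = (Icc 3 y).filter Nat.Prime := ⟨_, rfl⟩
  have hP0p : ∀ l, l ∈ P0 ↔ (l.Prime ∧ l ≠ 2 ∧ l ≤ y) := by
    intro l
    rw [hP0, Finset.mem_filter, Finset.mem_Icc]
    constructor
    · rintro ⟨⟨h1, h2⟩, h3⟩
      exact ⟨h3, by omega, h2⟩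
    · rintro ⟨h1, h2, h3⟩
      have := h1.two_le
      exact ⟨⟨by omega, h3⟩, h1⟩
  have hP0W : ((∏ l ∈ P0, l : ℕ) : ℝ) ≤ Y ^ (1 / 500 : ℝ) := by
    refine le_trans ?_ hW2
    have h1 : ∏ l ∈ P0, l ≤ WW Y ∅ 1 := by
      unfold WW
      apply Finset.prod_le_prod_of_subset_of_one_le'
      · intro l hl
        rw [hP0p] at hl
        unfold PW
        rw [Finset.mem_filter, Finset.mem_Icc]
        exact ⟨⟨hl.1.one_lt.le, hy ▸ hl.2.2⟩, hl.1, Finset.notMem_empty _, hl.1.one_lt.ne'⟩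
      · intro l hl _
        unfold PW at hl
        exact (Finset.mem_Icc.1 (Finset.mem_filter.1 hl).1).1
    exact_mod_cast h1
  obtain ⟨τ, hτ⟩ : ∃ τ : ℤ, τ = (a₀ : ℤ) + O := ⟨_, rfl⟩
  have hcast : ∀ v : ℤ, |(v : ℝ)| ≤ c * Rk n → ((a₀ + (v + O).toNat : ℕ) : ℤ) = τ + v := by
    intro v hv
    rw [Nat.cast_add, Int.toNat_of_nonneg (hpos v hv).1, hτ]
    ring
  -- no element of the set is divisible
  have F1 : ∀ e ∈ H, ∀ l ∈ P0, ¬ (l : ℤ) ∣ τ + e := by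
    intro e he l hl hd
    rw [hP0p] at hl
    have h1 : (e + O).toNat ∈ E' := by
      rw [hE', Finset.mem_image]
      exact ⟨e, he, rfl⟩
    have h2 := (ha₀ _ (hle e (hHc e he).2)).2 h1 l hl.1
      (fun h => hl.2.1 ((Nat.prime_dvd_prime_iff_eq hl.1 Nat.prime_two).1 h))
      ((dvd_WW hl.1).2 (hy ▸ hl.2.2))
    apply h2
    rw [← hcast e (hHc e he).2] at hd
    exact_mod_cast hd
  -- all others are divisible
  have F2 : ∀ v : ℤ, |(v : ℝ)| ≤ c * Rk n → v ∉ H → ∃ l ∈ P0, (l : ℤ) ∣ τ + v := by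
    intro v hv hvH
    have h1 : (v + O).toNat ∉ E' := by
      intro h
      rw [hE', Finset.mem_image] at h
      obtain ⟨e, he, h2⟩ := h
      have := hinj e v (hHc e he).2 hv h2
      exact hvH (this ▸ he)
    have h2 := mt (ha₀ _ (hle v hv)).1 h1
    push Not at h2
    obtain ⟨l, h3, h4, h5, h6⟩ := h2
    refine ⟨l, (hP0p l).2 ⟨h3, fun h => h4 (by rw [h]), hy ▸ (dvd_WW h3).1 h5⟩, ?_⟩
    rw [← hcast v hv]
    exact_mod_cast h6
  have hTS : ∀ l ∈ P0, l.Prime ∧ l ≠ 2 ∧ Tl n l τ ⊆ Gl n l ∧ (Tl n l τ).Nonempty := by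
    intro l hl
    have h1 := (hP0p l).1 hl
    refine ⟨h1.1, h1.2.1, ?_, ?_⟩
    · unfold Tl
      exact Finset.filter_subset _ _
    · apply hT l h1.1 h1.2.1
      have := F1 0 h0H l hl
      rwa [add_zero] at this
  have hP0n : ((∏ l ∈ P0, l : ℕ) : ℝ) ≤ (n : ℝ) ^ (1 / (t : ℝ)) := by
    refine hP0W.trans ?_
    rw [hY, ← Real.rpow_mul hX0.le]
    apply Real.rpow_le_rpow_of_exponent_le hX1
    linarith
  have hkH : H.card ≤ k := hH.le.trans hkk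
  have hBok : ∀ l : ℕ, l.Prime → l ≠ 2 → l ∉ P0 → BH H n l ⊆ Gl n l ∧ BH H n l ≠ Gl n l ∧
      (BH H n l).card ≤ (4 * k) * l ^ 2 := by
    intro l hl hl2 hlP
    apply BH_ok H hkH n l hl hl2
    by_contra hcon
    apply hlP
    rw [hP0p]
    exact ⟨hl, hl2, by omega⟩
  have hmain := hG n hno gN P0 (fun l => Tl n l τ) (BH H n) hTS hP0n hBok
  have hMn := Mn_lower (n := n) (k := k) (P0 := P0) (S := fun l => Tl n l τ) (H := H) hkH hP0 hybig hyn hTS hcV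
    (hV n (by omega)).1 hlogn
  have hsub : Cnd n P0 (fun l => Tl n l τ) (BH H n) ((n : ℝ) ^ (1 / (t : ℝ))) ⊆
      RQ n H ((n : ℝ) ^ (1 / (t : ℝ))) (c * Rk n) (Real.log n) := by
    intro X hX
    simp only [Cnd, RQ, Finset.mem_filter] at hX ⊢
    obtain ⟨hX1, hX2, hX3⟩ := hX
    obtain ⟨hXs, hXg⟩ := mem_preps' hX1
    have hred : ∀ l : ℕ, (l : ℤ) ∣ pf X - pf (red l X) := fun l => pf_congr l X (red l X) (red_dvd l X)
    have hP : ∀ l ∈ P0, (l : ℤ) ∣ pf X - τ := by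
      intro l hl
      have h1 := hX2 l hl
      unfold Tl at h1
      rw [Finset.mem_filter] at h1
      have := dvd_add (hred l) h1.2
      rwa [sub_add_sub_cancel] at this
    refine ⟨hX1, ?_, ?_⟩
    · intro h hh p hp hd
      by_contra hcon
      push Not at hcon
      by_cases hp2 : p = 2
      · subst hp2
        apply pf_odd n hno X hXs
        have h1 := (hHc h hh).1.two_dvd
        have h2 := dvd_sub (show (2 : ℤ) ∣ pf X + h by exact_mod_cast hd) h1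
        rwa [add_sub_cancel_right] at h2
      · by_cases hpP : p ∈ P0
        · apply F1 h hh p hpP
          have h1 := dvd_sub hd (hP p hpP)
          have e : pf X + h - (pf X - τ) = τ + h := by ring
          rwa [e] at h1
        · apply hX3 p hp hp2 hpP hcon
          unfold BH
          rw [Finset.mem_filter]
          refine ⟨red_mem n p hp X hXs hXg, h, hh, ?_⟩
          have h1 := dvd_sub hd (hred p)
          have e : pf X + h - (pf X - pf (red p X)) = pf (red p X) + h := by ring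
          rwa [e] at h1
    · intro s hs hsH hRo
      obtain ⟨l, hl, hd⟩ := F2 s hs hsH
      have h1 := dvd_add (hP l hl) hd
      have e : pf X - τ + (τ + s) = pf X + s := by ring
      rw [e] at h1
      have h2 := hRo l ((hP0p l).1 hl).1 h1
      have h3 : (l : ℝ) ≤ y := by exact_mod_cast ((hP0p l).1 hl).2.2
      linarith
  have hcards : ((Cnd n P0 (fun l => Tl n l τ) (BH H n) ((n : ℝ) ^ (1 / (t : ℝ)))).card : ℝ) ≤
      ((RQ n H ((n : ℝ) ^ (1 / (t : ℝ))) (c * Rk n) (Real.log n)).card : ℝ) := by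
    exact_mod_cast Finset.card_le_card hsub
  refine le_trans ?_ hcards
  refine le_trans ?_ hmain
  refine le_trans ?_ (mul_le_mul_of_nonneg_left hMn hc₀.le)
  have h1 := hlow n hno
  have h2 : (n : ℝ) ^ (-(ε / 4)) ≤ 1 / ((∏ l ∈ P0, l : ℕ) : ℝ) ^ 4 := by
    have h3 : (0 : ℝ) < ((∏ l ∈ P0, l : ℕ) : ℝ) := by
      have : 0 < ∏ l ∈ P0, l := Finset.prod_pos fun l hl => ((hP0p l).1 hl).1.pos
      exact_mod_cast this
    rw [Real.rpow_neg hX0.le, ← one_div]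
    apply one_div_le_one_div_of_le (by positivity)
    calc ((∏ l ∈ P0, l : ℕ) : ℝ) ^ 4 ≤ (Y ^ (1 / 500 : ℝ)) ^ 4 := pow_le_pow_left₀ h3.le hP0W 4
      _ = (n : ℝ) ^ (α * (1 / 500) * 4) := by
        rw [hY, ← Real.rpow_mul hX0.le, ← Real.rpow_natCast, ← Real.rpow_mul hX0.le]
        norm_num
      _ ≤ (n : ℝ) ^ (ε / 4) := by
        apply Real.rpow_le_rpow_of_exponent_le hX1
        linarith
  have h3 : (0 : ℝ) < Real.log n ^ (16 * k) := by positivity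
  calc (n : ℝ) ^ (1 - ε) = (n : ℝ) ^ (1 - ε / 4) * (n : ℝ) ^ (-(ε / 4)) * (n : ℝ) ^ (-(ε / 2)) := by
        rw [← Real.rpow_add hX0, ← Real.rpow_add hX0]
        congr 1
        ring
    _ = (n : ℝ) ^ (1 - ε / 4) * (n : ℝ) ^ (-(ε / 4)) * (n : ℝ) ^ (-(ε / 2)) *
        (Real.log n ^ (16 * k) / Real.log n ^ (16 * k)) := by rw [div_self h3.ne', mul_one]
    _ ≤ (n : ℝ) ^ (1 - ε / 4) * (n : ℝ) ^ (-(ε / 4)) * (n : ℝ) ^ (-(ε / 2)) *
        (c₀ * c1 * cV ^ (16 * k) * (n : ℝ) ^ (ε / 2) / Real.log n ^ (16 * k)) := by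
      apply mul_le_mul_of_nonneg_left _ (by positivity)
      exact div_le_div_of_nonneg_right e1 h3.le
    _ = c₀ * ((c1 * (n : ℝ) ^ (1 - ε / 4)) * (n : ℝ) ^ (-(ε / 4)) * (cV / Real.log n) ^ (16 * k)) *
        ((n : ℝ) ^ (-(ε / 2)) * (n : ℝ) ^ (ε / 2)) := by
      rw [div_pow]
      ring
    _ = c₀ * ((c1 * (n : ℝ) ^ (1 - ε / 4)) * (n : ℝ) ^ (-(ε / 4)) * (cV / Real.log n) ^ (16 * k)) := by
      rw [← Real.rpow_add hX0]
      norm_num
    _ ≤ _ := by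
      apply mul_le_mul_of_nonneg_left _ hc₀.le
      apply mul_le_mul_of_nonneg_right _ (by positivity)
      exact mul_le_mul h1 h2 (by positivity) (Nat.cast_nonneg _)

end Pool.Agent.Q117.FQ.RQa

namespace Pool.Agent.Q117.FQ

open Finset Filter Topology
open Pool.Agent.W65.FS
open Pool.Agent.Q117.FQ.GSa
open Pool.Agent.Q117.FQ.RQa

/-- **RQ** -/
theorem rq : St_RQ := by
  intro hG hT hC hK k ε hε
  obtain ⟨t, ht, hG⟩ := hG (4 * k)
  obtain ⟨c₀, hc₀, C₀, hC₀, N0, hG1⟩ := hG t le_rfl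
  have hG' : ∀ n : ℕ, Odd n → N0 ≤ n → ∀ (P0 : Finset ℕ) (S B : ℕ → Finset (Fin 4 → ℤ)),
      (∀ l ∈ P0, l.Prime ∧ l ≠ 2 ∧ S l ⊆ Gl n l ∧ (S l).Nonempty) →
      ((∏ l ∈ P0, l : ℕ) : ℝ) ≤ (n : ℝ) ^ (1 / (t : ℝ)) →
      (∀ l : ℕ, l.Prime → l ≠ 2 → l ∉ P0 → B l ⊆ Gl n l ∧ B l ≠ Gl n l ∧ (B l).card ≤ (4 * k) * l ^ 2) →
      c₀ * Mn n P0 S B ≤ ((Cnd n P0 S B ((n : ℝ) ^ (1 / (t : ℝ)))).card : ℝ) := by
    intro n hno hn P0 S B h1 h2 h3
    exact (hG1 n hno hn P0 S B h1 h2 h3 _ le_rfl le_rfl).1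
  have main : ∀ k' : Fin (k + 1), ∀ᶠ c : ℝ in 𝓝[>] 0, ∀ᶠ n : ℕ in atTop, (1 ≤ k'.val → RQs t ε k'.val c n) := by
    intro k'
    by_cases h : 1 ≤ k'.val
    · have := rq_main hε ht hc₀ hG' hT hC hK k'.val h (by omega)
      filter_upwards [this] with c hc
      filter_upwards [hc] with n hn _
      exact hn
    · exact Filter.Eventually.of_forall fun c => Filter.Eventually.of_forall fun n h' => absurd h' h
  have main2 := Filter.eventually_all.2 main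
  obtain ⟨c, hc, hc0⟩ := (main2.and self_mem_nhdsWithin).exists
  have hc3 := Filter.eventually_all.2 hc
  rw [Filter.eventually_atTop] at hc3
  obtain ⟨n0, hn0⟩ := hc3
  refine ⟨t, ht, c, hc0, n0, ?_⟩
  intro n hno hn H hH h0 hHc hAdm
  have h1 : 1 ≤ H.card := Finset.card_pos.2 ⟨0, h0⟩
  exact hn0 n hn ⟨H.card, by omega⟩ h1 hno H rfl h0 hHc hAdm

end Pool.Agent.Q117.FQ
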