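import Pool.Agent.Q117.FQ.Stm
import Pool.Agent.Helper923.HMertens

/-!
Project FQ: lower bound for the singular product (`VEL`).
-/

set_option autoImplicit false

namespace Pool.Agent.Q117.FQ

open Finset Filter
open Pool.Agent.W65.FS

namespace VEL

lemma exp_le {g : ℝ} (h0 : 0 ≤ g) (h1 : g ≤ 1 / 2) : Real.exp (-(g + 2 * g ^ 2)) ≤ 1 - g := by
  have hp : 0 < 1 - g := by linarith
  have h2 := Real.one_sub_inv_le_log_of_pos hp
  rw [← Real.le_log_iff_exp_le hp]
  refine le_trans ?_ h2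
  have h3 : (1 - g)⁻¹ ≤ 1 + (g + 2 * g ^ 2) := by
    rw [inv_le_iff_one_le_mul₀ hp]
    nlinarith [mul_nonneg h0 h0, mul_nonneg (mul_nonneg h0 h0) (show 0 ≤ 1 - 2 * g by linarith)]
  linarith

lemma gl_pos (n l : ℕ) (hl : l.Prime) (hl2 : l ≠ 2) : (0 : ℝ) < (Gl n l).card := by
  have h1 := count_lower l hl hl2 n
  have hl3 : (3 : ℝ) ≤ l := by
    have : 3 ≤ l := by
      have := hl.two_le
      omega
    exact_mod_cast this
  have : 0 < (l : ℝ) ^ 3 - l := by nlinarith [mul_pos (show (0 : ℝ) < l by linarith) (show (0 : ℝ) < l ^ 2 - 1 by nlinarith)]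
  linarith

lemma be_sub (E : Finset ℤ) (n l : ℕ) : BE E n l ⊆ Gl n l := Finset.filter_subset _ _

lemma gE_nonneg (E : Finset ℤ) (n l : ℕ) : 0 ≤ gE E n l := by unfold gE; positivity

/-- a class which is not bad -/
lemma small (E : Finset ℤ) (n l : ℕ) (hl : l.Prime) (hl2 : l ≠ 2)
    (h : ∃ c ∈ Gl n l, ∀ e ∈ E, ¬ (l : ℤ) ∣ pf c + e) : 1 / (l : ℝ) ^ 4 ≤ 1 - gE E n l := by
  classical
  have hp := gl_pos n l hl hl2
  obtain ⟨c, hc, hc2⟩ := h
  have h1 : (BE E n l).card + 1 ≤ (Gl n l).card := by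
    have h2 : BE E n l ⊂ Gl n l := by
      refine ⟨be_sub E n l, fun h3 => ?_⟩
      have h4 := h3 hc
      unfold BE at h4
      rw [Finset.mem_filter] at h4
      obtain ⟨_, e, he, h5⟩ := h4
      exact hc2 e he h5
    exact Finset.card_lt_card h2
  have h2 : ((BE E n l).card : ℝ) + 1 ≤ (Gl n l).card := by exact_mod_cast h1
  have h3 : ((Gl n l).card : ℝ) ≤ (l : ℝ) ^ 4 := by exact_mod_cast card_Gl_le n l
  unfold gE
  have h4 : 1 - ((BE E n l).card : ℝ) / (Gl n l).card = ((Gl n l).card - (BE E n l).card) / (Gl n l).card := by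
    field_simp
  rw [h4]
  calc 1 / (l : ℝ) ^ 4 ≤ 1 / (Gl n l).card := one_div_le_one_div_of_le hp h3
    _ ≤ _ := by gcongr; linarith

lemma be_card (E : Finset ℤ) (n l : ℕ) (b : ℝ) (h : ∀ e ∈ E, ((Tl n l (-e)).card : ℝ) ≤ b) :
    ((BE E n l).card : ℝ) ≤ E.card * b := by
  classical
  have h1 : BE E n l ⊆ E.biUnion fun e => Tl n l (-e) := by
    intro c hc
    unfold BE at hc
    rw [Finset.mem_filter] at hc
    obtain ⟨h1, e, he, h2⟩ := hc
    rw [Finset.mem_biUnion]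
    refine ⟨e, he, ?_⟩
    unfold Tl
    rw [Finset.mem_filter]
    exact ⟨h1, by rwa [sub_neg_eq_add]⟩
  calc ((BE E n l).card : ℝ) ≤ ((E.biUnion fun e => Tl n l (-e)).card : ℝ) := by exact_mod_cast Finset.card_le_card h1
    _ ≤ ((∑ e ∈ E, (Tl n l (-e)).card : ℕ) : ℝ) := by exact_mod_cast Finset.card_biUnion_le
    _ = ∑ e ∈ E, ((Tl n l (-e)).card : ℝ) := by push_cast; rfl
    _ ≤ ∑ e ∈ E, b := Finset.sum_le_sum h
    _ = E.card * b := by rw [Finset.sum_const, nsmul_eq_mul]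

/-- primes not dividing `n` -/
lemma g1 (hC : St_CNT) (k : ℕ) (E : Finset ℤ) (hE : E.card ≤ k) (n l : ℕ) (hl : l.Prime) (hl5 : 5 ≤ l)
    (hn : ¬ l ∣ n) : gE E n l ≤ k * (1 / l) + 8 * k * (1 / l ^ 2) := by
  have hl2 : l ≠ 2 := by omega
  have hp := gl_pos n l hl hl2
  have h1 := count_lower l hl hl2 n
  have hl5r : (5 : ℝ) ≤ l := by exact_mod_cast hl5
  have h2 := be_card E n l ((l : ℝ) ^ 2 + 6 * l) (by
    intro e _
    have h3 := hC l hl hl5 n (-e) (fun h => hn (by exact_mod_cast h.1))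
    have := (abs_le.1 h3).2
    linarith)
  have hEr : (E.card : ℝ) ≤ k := by exact_mod_cast hE
  have hk : (0 : ℝ) ≤ k := by positivity
  have hden : 0 < (l : ℝ) ^ 3 - l := by nlinarith
  unfold gE
  calc ((BE E n l).card : ℝ) / (Gl n l).card ≤ (k * ((l : ℝ) ^ 2 + 6 * l)) / ((l : ℝ) ^ 3 - l) := by
        apply div_le_div₀ (by positivity) _ hden h1
        exact h2.trans (by gcongr)
    _ ≤ k * (1 / l) + 8 * k * (1 / l ^ 2) := by
      have h5 : k * (1 / (l : ℝ)) + 8 * k * (1 / l ^ 2) = k * (((l : ℝ) + 8) / l ^ 2) := by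
        field_simp
      rw [h5, mul_div_assoc]
      apply mul_le_mul_of_nonneg_left _ hk
      rw [div_le_div_iff₀ hden (by positivity)]
      have h6 : 0 ≤ 2 * (l : ℝ) ^ 2 - l - 8 := by nlinarith
      nlinarith [mul_nonneg (show (0 : ℝ) ≤ l by linarith) h6]

/-- all primes -/
lemma g2 (k : ℕ) (E : Finset ℤ) (hE : E.card ≤ k) (n l : ℕ) (hl : l.Prime) (hl2 : l ≠ 2) :
    gE E n l ≤ 8 * k * (1 / l) := by
  have hp := gl_pos n l hl hl2
  have h1 := count_lower l hl hl2 n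
  have hl3 : (3 : ℝ) ≤ l := by
    have : 3 ≤ l := by
      have := hl.two_le
      omega
    exact_mod_cast this
  have h2 := be_card E n l (4 * (l : ℝ) ^ 2) (by
    intro e _
    have h3 := bad_tau l hl hl2 n (-e) (Tl n l (-e)) (by
      intro c hc
      unfold Tl at hc
      exact Finset.mem_filter.1 hc)
    exact_mod_cast h3)
  have hEr : (E.card : ℝ) ≤ k := by exact_mod_cast hE
  have hk : (0 : ℝ) ≤ k := by positivity
  have hden : 0 < (l : ℝ) ^ 3 - l := by nlinarith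
  unfold gE
  calc ((BE E n l).card : ℝ) / (Gl n l).card ≤ (k * (4 * (l : ℝ) ^ 2)) / ((l : ℝ) ^ 3 - l) := by
        apply div_le_div₀ (by positivity) _ hden h1
        exact h2.trans (by gcongr)
    _ ≤ 8 * k * (1 / l) := by
      have h5 : 8 * k * (1 / (l : ℝ)) = k * (8 / l) := by ring
      rw [h5, mul_div_assoc]
      apply mul_le_mul_of_nonneg_left _ hk
      rw [div_le_div_iff₀ hden (by positivity)]
      nlinarith [mul_pos (show (0 : ℝ) < l by linarith) (show (0 : ℝ) < l ^ 2 - 2 by nlinarith)]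

/-- the number of the prime divisors -/
lemma omega_le (n : ℕ) (hn : 1 ≤ n) : (n.primeFactors.card : ℝ) ≤ 2 * Real.log n := by
  have h1 : 2 ^ n.primeFactors.card ≤ n := by
    calc 2 ^ n.primeFactors.card ≤ ∏ p ∈ n.primeFactors, p :=
          Finset.pow_card_le_prod _ _ _ (fun p hp => (Nat.prime_of_mem_primeFactors hp).two_le)
      _ ≤ n := Nat.le_of_dvd hn (Nat.prod_primeFactors_dvd n)
  have h2 : ((2 : ℝ) ^ n.primeFactors.card) ≤ n := by exact_mod_cast h1
  have h3 := Real.log_le_log (by positivity) h2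
  rw [Real.log_pow] at h3
  have h4 := Real.log_two_gt_d9
  have h5 : (0 : ℝ) ≤ n.primeFactors.card := by positivity
  nlinarith

/-- squares -/
lemma sum_sq (S : Finset ℕ) : ∑ l ∈ S, (1 : ℝ) / l ^ 2 ≤ ∑' l : ℕ, (1 : ℝ) / l ^ 2 :=
  (Real.summable_one_div_nat_pow.2 (by norm_num)).sum_le_tsum S (fun l _ => by positivity)

/-- the tail of the product -/
lemma tail (hC : St_CNT) (k l₀ : ℕ) (h5 : 5 ≤ l₀) (hk : 16 * k ≤ l₀) (E : Finset ℤ) (hE : E.card ≤ k) (n : ℕ)
    (S : Finset ℕ) (hS : ∀ l ∈ S, l.Prime ∧ l₀ < l) :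
    Real.exp (-(k * ∑ l ∈ S, (1 : ℝ) / l + (8 * k + 128 * k ^ 2) * (∑' l : ℕ, (1 : ℝ) / l ^ 2) +
      8 * k * ∑ l ∈ S.filter (fun l => l ∣ n), (1 : ℝ) / l)) ≤ ∏ l ∈ S, (1 - gE E n l) := by
  classical
  have hkr : (0 : ℝ) ≤ k := by positivity
  have hb : ∀ l ∈ S, gE E n l + 2 * gE E n l ^ 2 ≤ k * ((1 : ℝ) / l) + (8 * k + 128 * k ^ 2) * (1 / l ^ 2) +
      8 * k * (if l ∣ n then (1 : ℝ) / l else 0) := by
    intro l hl
    obtain ⟨hp, hl0⟩ := hS l hl
    have h0 := gE_nonneg E n l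
    have h2 := g2 k E hE n l hp (by omega)
    have h3 : gE E n l ^ 2 ≤ 64 * k ^ 2 * (1 / (l : ℝ) ^ 2) := by
      calc gE E n l ^ 2 ≤ (8 * k * (1 / (l : ℝ))) ^ 2 := by gcongr
        _ = 64 * k ^ 2 * (1 / (l : ℝ) ^ 2) := by ring
    have h4 : 0 ≤ k * ((1 : ℝ) / l) := by positivity
    have h6 : 0 ≤ 8 * k * ((1 : ℝ) / l ^ 2) := by positivity
    by_cases hd : l ∣ n
    · rw [if_pos hd]
      nlinarith
    · rw [if_neg hd]
      have h5' := g1 hC k E hE n l hp (by omega) hd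
      nlinarith
  calc Real.exp (-(k * ∑ l ∈ S, (1 : ℝ) / l + (8 * k + 128 * k ^ 2) * (∑' l : ℕ, (1 : ℝ) / l ^ 2) +
      8 * k * ∑ l ∈ S.filter (fun l => l ∣ n), (1 : ℝ) / l)) ≤ Real.exp (-(∑ l ∈ S, (gE E n l + 2 * gE E n l ^ 2))) := by
        apply Real.exp_le_exp.2
        have h1 := Finset.sum_le_sum hb
        have hr : ∑ l ∈ S, ((k : ℝ) * ((1 : ℝ) / l) + (8 * k + 128 * k ^ 2) * (1 / (l : ℝ) ^ 2) +
            8 * k * (if l ∣ n then (1 : ℝ) / l else 0)) = k * ∑ l ∈ S, (1 : ℝ) / l +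
            (8 * k + 128 * k ^ 2) * (∑ l ∈ S, (1 : ℝ) / (l : ℝ) ^ 2) + 8 * k * ∑ l ∈ S.filter (fun l => l ∣ n), (1 : ℝ) / l := by
          rw [Finset.sum_add_distrib, Finset.sum_add_distrib, ← Finset.mul_sum, ← Finset.mul_sum, ← Finset.mul_sum,
            ← Finset.sum_filter]
        rw [hr] at h1
        have h2 := sum_sq S
        have h3 : (8 * (k : ℝ) + 128 * k ^ 2) * (∑ l ∈ S, (1 : ℝ) / l ^ 2) ≤
            (8 * k + 128 * k ^ 2) * (∑' l : ℕ, (1 : ℝ) / l ^ 2) := mul_le_mul_of_nonneg_left h2 (by positivity)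
        linarith
    _ = ∏ l ∈ S, Real.exp (-(gE E n l + 2 * gE E n l ^ 2)) := by
        rw [← Real.exp_sum]
        congr 1
        rw [← Finset.sum_neg_distrib]
    _ ≤ _ := by
        apply Finset.prod_le_prod (fun l _ => (Real.exp_pos _).le)
        intro l hl
        obtain ⟨hp, hl0⟩ := hS l hl
        apply exp_le (gE_nonneg E n l)
        refine (g2 k E hE n l hp (by omega)).trans ?_
        have hlr : (0 : ℝ) < l := by exact_mod_cast (by omega : 0 < l)
        have h6 : (16 * k : ℝ) ≤ l := by exact_mod_cast (by omega : 16 * k ≤ l)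
        rw [mul_one_div, div_le_iff₀ hlr]
        linarith

/-- the first primes -/
lemma head (l₀ : ℕ) (h1 : 1 ≤ l₀) (E : Finset ℤ) (n : ℕ) (hE : ∀ l : ℕ, l.Prime → l ≠ 2 → ∃ c ∈ Gl n l, ∀ e ∈ E, ¬ (l : ℤ) ∣ pf c + e)
    (S : Finset ℕ) (hS : ∀ l ∈ S, l.Prime ∧ l ≠ 2 ∧ l ≤ l₀) :
    (1 / (l₀ : ℝ) ^ 4) ^ (l₀ + 1) ≤ ∏ l ∈ S, (1 - gE E n l) := by
  have hl0 : (1 : ℝ) ≤ l₀ := by exact_mod_cast h1
  have hle : (1 : ℝ) / (l₀ : ℝ) ^ 4 ≤ 1 := by
    rw [div_le_one (by positivity)]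
    exact one_le_pow₀ hl0
  have hcard : S.card ≤ l₀ + 1 := by
    have : S ⊆ range (l₀ + 1) := by
      intro l hl
      rw [Finset.mem_range]
      have := (hS l hl).2.2
      omega
    simpa using Finset.card_le_card this
  calc (1 / (l₀ : ℝ) ^ 4) ^ (l₀ + 1) ≤ (1 / (l₀ : ℝ) ^ 4) ^ S.card := pow_le_pow_of_le_one (by positivity) hle hcard
    _ = ∏ l ∈ S, (1 / (l₀ : ℝ) ^ 4) := by rw [Finset.prod_const]
    _ ≤ _ := by
      apply Finset.prod_le_prod (fun l _ => by positivity)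
      intro l hl
      obtain ⟨hp, h2, h3⟩ := hS l hl
      refine le_trans ?_ (small E n l hp h2 (hE l hp h2))
      have hlr : (0 : ℝ) < l := by exact_mod_cast hp.pos
      have h3r : (l : ℝ) ≤ l₀ := by exact_mod_cast h3
      exact one_div_le_one_div_of_le (by positivity) (by gcongr)

/-- the primes dividing `n` -/
lemma divs (C : ℝ) (hC0 : 0 ≤ C) (hC : ∀ a b : ℕ, 2 ≤ a → a ≤ b →
    |∑ p ∈ (Finset.Ioc a b).filter Nat.Prime, (1 : ℝ) / p
      - Real.log (Real.log b / Real.log a)| ≤ C / Real.log a) (l₀ n : ℕ) (h3 : 3 ≤ l₀) (hn : (l₀ : ℝ) + 1 ≤ Real.log n)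
    (S : Finset ℕ) (hS : ∀ l ∈ S, l.Prime ∧ l₀ < l ∧ l ∣ n) (hn1 : 1 ≤ n) :
    ∑ l ∈ S, (1 : ℝ) / l ≤ Real.log (Real.log (Real.log n)) + C + 2 := by
  classical
  set w : ℕ := ⌊Real.log n⌋₊ with hw
  have hL0 : (0 : ℝ) ≤ Real.log n := by
    have : (0 : ℝ) ≤ l₀ := by positivity
    linarith
  have hwl : l₀ ≤ w := by
    apply Nat.le_floor
    linarith
  have hwle : (w : ℝ) ≤ Real.log n := Nat.floor_le hL0
  have hwlt : Real.log n < w + 1 := Nat.lt_floor_add_one _
  have hl3 : (3 : ℝ) ≤ l₀ := by exact_mod_cast h3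
  have hlog1 : 1 ≤ Real.log l₀ := by
    rw [Real.le_log_iff_exp_le (by linarith)]
    have := Real.exp_one_lt_d9
    linarith
  have hw3 : (3 : ℝ) ≤ w := by exact_mod_cast (by omega : 3 ≤ w)
  rw [← Finset.sum_filter_add_sum_filter_not S (fun l => l ≤ w)]
  have e1 : ∑ l ∈ S.filter (fun l => l ≤ w), (1 : ℝ) / l ≤ Real.log (Real.log (Real.log n)) + C := by
    have h1 : S.filter (fun l => l ≤ w) ⊆ (Finset.Ioc l₀ w).filter Nat.Prime := by
      intro l hl
      rw [Finset.mem_filter] at hl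
      rw [Finset.mem_filter, Finset.mem_Ioc]
      exact ⟨⟨(hS l hl.1).2.1, hl.2⟩, (hS l hl.1).1⟩
    have h2 := Finset.sum_le_sum_of_subset_of_nonneg h1 (f := fun l : ℕ => (1 : ℝ) / l) (fun l _ _ => by positivity)
    have h4 := (abs_le.1 (hC l₀ w (by omega) hwl)).2
    have h5 : C / Real.log l₀ ≤ C := div_le_self hC0 hlog1
    have hlw : 0 < Real.log w := Real.log_pos (by linarith)
    have h6 : Real.log (Real.log w / Real.log l₀) ≤ Real.log (Real.log (Real.log n)) := by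
      apply Real.log_le_log (by positivity)
      calc Real.log w / Real.log l₀ ≤ Real.log w := div_le_self hlw.le hlog1
        _ ≤ Real.log (Real.log n) := Real.log_le_log (by linarith) hwle
    linarith
  have e2 : ∑ l ∈ S.filter (fun l => ¬ l ≤ w), (1 : ℝ) / l ≤ 2 := by
    have hLpos : 0 < Real.log n := by linarith
    calc ∑ l ∈ S.filter (fun l => ¬ l ≤ w), (1 : ℝ) / l ≤ ∑ l ∈ S.filter (fun l => ¬ l ≤ w), 1 / Real.log n := by
          apply Finset.sum_le_sum
          intro l hl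
          rw [Finset.mem_filter] at hl
          apply one_div_le_one_div_of_le hLpos
          have : (w : ℝ) + 1 ≤ l := by exact_mod_cast (by omega : w + 1 ≤ l)
          linarith
      _ = ((S.filter (fun l => ¬ l ≤ w)).card : ℝ) * (1 / Real.log n) := by rw [Finset.sum_const, nsmul_eq_mul]
      _ ≤ (2 * Real.log n) * (1 / Real.log n) := by
          apply mul_le_mul_of_nonneg_right _ (by positivity)
          refine le_trans ?_ (omega_le n hn1)
          have : S.filter (fun l => ¬ l ≤ w) ⊆ n.primeFactors := by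
            intro l hl
            rw [Finset.mem_filter] at hl
            rw [Nat.mem_primeFactors]
            exact ⟨(hS l hl.1).1, (hS l hl.1).2.2, by omega⟩
          exact_mod_cast Finset.card_le_card this
      _ = 2 := by field_simp
  linarith

/-- the final comparison -/
lemma cmp (k : ℕ) (K : ℝ) (c : ℝ) (hc : 0 < c) : ∃ n0 : ℕ, ∀ n : ℕ, n0 ≤ n →
    1 / Real.log n ^ (k + 1) ≤ c * Real.exp (-(k * Real.log (Real.log n) + K + 8 * k * Real.log (Real.log (Real.log n)))) := by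
  have h1 : Tendsto (fun n : ℕ => Real.log n) atTop atTop := Real.tendsto_log_atTop.comp tendsto_natCast_atTop_atTop
  have h2 : ∀ᶠ x : ℝ in atTop, ‖Real.log x ^ (8 * k)‖ ≤ (c * Real.exp (-K)) * ‖x‖ :=
    (Real.isLittleO_pow_log_id_atTop (n := 8 * k)).bound (by positivity)
  have h3 : ∀ᶠ n : ℕ in atTop, ‖Real.log (Real.log n) ^ (8 * k)‖ ≤ (c * Real.exp (-K)) * ‖Real.log n‖ := h1.eventually h2
  have h4 : ∀ᶠ n : ℕ in atTop, 3 ≤ Real.log n := h1.eventually_ge_atTop 3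
  obtain ⟨n0, hn0⟩ := eventually_atTop.1 (h3.and h4)
  refine ⟨n0, fun n hn => ?_⟩
  obtain ⟨h5, h6⟩ := hn0 n hn
  have hL : 0 < Real.log n := by linarith
  have hLL : 1 ≤ Real.log (Real.log n) := by
    rw [Real.le_log_iff_exp_le hL]
    have := Real.exp_one_lt_d9
    linarith
  have e1 : Real.exp (-(k * Real.log (Real.log n) + K + 8 * k * Real.log (Real.log (Real.log n)))) =
      1 / Real.log n ^ k * Real.exp (-K) * (1 / Real.log (Real.log n) ^ (8 * k)) := by
    have a1 : Real.exp (-(k * Real.log (Real.log n))) = 1 / Real.log n ^ k := by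
      rw [Real.exp_neg, ← Real.log_pow, Real.exp_log (by positivity), one_div]
    have a2 : Real.exp (-(8 * k * Real.log (Real.log (Real.log n)))) = 1 / Real.log (Real.log n) ^ (8 * k) := by
      have : (8 * k * Real.log (Real.log (Real.log n)) : ℝ) = Real.log (Real.log (Real.log n) ^ (8 * k)) := by
        rw [Real.log_pow]
        push_cast
        ring
      rw [this, Real.exp_neg, Real.exp_log (by positivity), one_div]
    rw [← a1, ← a2, ← Real.exp_add, ← Real.exp_add]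
    congr 1
    ring
  rw [e1]
  rw [Real.norm_of_nonneg (by positivity), Real.norm_of_nonneg hL.le] at h5
  rw [pow_succ]
  have h7 : 0 < Real.log (Real.log n) ^ (8 * k) := by positivity
  have h8 : 1 / Real.log n ≤ c * Real.exp (-K) * (1 / Real.log (Real.log n) ^ (8 * k)) := by
    rw [mul_one_div, div_le_div_iff₀ hL h7]
    linarith
  calc 1 / (Real.log n ^ k * Real.log n) = (1 / Real.log n ^ k) * (1 / Real.log n) := by
        rw [one_div_mul_one_div]
    _ ≤ (1 / Real.log n ^ k) * (c * Real.exp (-K) * (1 / Real.log (Real.log n) ^ (8 * k))) :=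
        mul_le_mul_of_nonneg_left h8 (by positivity)
    _ = _ := by ring

end VEL

/-- **VEL** -/
theorem vel : St_VEL := by
  intro hC k
  classical
  obtain ⟨C, hC0, hM⟩ := Pool.Agent.Helper923.HMertens.mertens_ratio
  set l₀ : ℕ := 16 * k + 5 with hl0
  have hl0r : (5 : ℝ) ≤ l₀ := by rw [hl0]; push_cast; linarith [show (0 : ℝ) ≤ k by positivity]
  set c : ℝ := (1 / (l₀ : ℝ) ^ 4) ^ (l₀ + 1) with hc
  have hcpos : 0 < c := by rw [hc]; positivity
  set K : ℝ := k * C + (8 * k + 128 * k ^ 2) * (∑' l : ℕ, (1 : ℝ) / l ^ 2) + 8 * k * (C + 2) with hK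
  obtain ⟨n1, hn1⟩ := VEL.cmp k K c hcpos
  have h1 : Tendsto (fun n : ℕ => Real.log n) atTop atTop := Real.tendsto_log_atTop.comp tendsto_natCast_atTop_atTop
  obtain ⟨n2, hn2⟩ := eventually_atTop.1 (h1.eventually_ge_atTop ((l₀ : ℝ) + 1))
  refine ⟨max (max n1 n2) (l₀ + 1), fun n _ hn E hE hloc => ?_⟩
  have hn1' := hn1 n (by omega)
  have hn2' := hn2 n (by omega)
  have hnl : l₀ ≤ n := by omega
  refine hn1'.trans ?_
  unfold VE
  rw [← Finset.prod_filter_mul_prod_filter_not ((Icc 3 n).filter Nat.Prime) (fun l => l ≤ l₀)]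
  have hlog1 : 1 ≤ Real.log l₀ := by
    rw [Real.le_log_iff_exp_le (by linarith)]
    have := Real.exp_one_lt_d9
    linarith
  have hLn : 0 < Real.log n := by linarith
  have hS : ∀ l ∈ ((Icc 3 n).filter Nat.Prime).filter (fun l => ¬ l ≤ l₀), l.Prime ∧ l₀ < l := by
    intro l hl
    rw [Finset.mem_filter, Finset.mem_filter] at hl
    exact ⟨hl.1.2, by omega⟩
  have hhead := VEL.head l₀ (by omega) E n hloc (((Icc 3 n).filter Nat.Prime).filter (fun l => l ≤ l₀)) (by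
    intro l hl
    rw [Finset.mem_filter, Finset.mem_filter, Finset.mem_Icc] at hl
    exact ⟨hl.1.2, by omega, hl.2⟩)
  have htail := VEL.tail hC k l₀ (by omega) (by omega) E hE n _ hS
  have s1 : ∑ l ∈ ((Icc 3 n).filter Nat.Prime).filter (fun l => ¬ l ≤ l₀), (1 : ℝ) / l ≤ Real.log (Real.log n) + C := by
    have e1 : ((Icc 3 n).filter Nat.Prime).filter (fun l => ¬ l ≤ l₀) ⊆ (Finset.Ioc l₀ n).filter Nat.Prime := by
      intro l hl
      rw [Finset.mem_filter, Finset.mem_filter, Finset.mem_Icc] at hl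
      rw [Finset.mem_filter, Finset.mem_Ioc]
      exact ⟨⟨by omega, hl.1.1.2⟩, hl.1.2⟩
    have e2 := Finset.sum_le_sum_of_subset_of_nonneg e1 (f := fun l : ℕ => (1 : ℝ) / l) (fun l _ _ => by positivity)
    have e3 := (abs_le.1 (hM l₀ n (by omega) hnl)).2
    have e4 : C / Real.log l₀ ≤ C := div_le_self hC0 hlog1
    have e5 : Real.log (Real.log n / Real.log l₀) ≤ Real.log (Real.log n) := by
      apply Real.log_le_log (by positivity)
      exact div_le_self hLn.le hlog1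
    linarith
  have s2 := VEL.divs C hC0 hM l₀ n (by omega) hn2'
    ((((Icc 3 n).filter Nat.Prime).filter (fun l => ¬ l ≤ l₀)).filter (fun l => l ∣ n)) (by
      intro l hl
      rw [Finset.mem_filter] at hl
      exact ⟨(hS l hl.1).1, (hS l hl.1).2, hl.2⟩) (by omega)
  have hkr : (0 : ℝ) ≤ k := by positivity
  have m1 := mul_le_mul_of_nonneg_left s1 hkr
  have m2 := mul_le_mul_of_nonneg_left s2 (show (0 : ℝ) ≤ 8 * k by positivity)
  refine mul_le_mul hhead (le_trans (Real.exp_le_exp.2 ?_) htail) (Real.exp_pos _).le (hcpos.le.trans hhead)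
  rw [hK]
  linarith

end Pool.Agent.Q117.FQ
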