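import Pool.Agent.Q117.FQ.Cnt
import Pool.Agent.Q117.FQ.Hit
import Pool.Agent.Q117.FQ.Gs
import Pool.Agent.Q117.FQ.Rq
import Pool.Agent.Q117.FQ.Loc
import Pool.Agent.Q117.FQ.Nq
import Pool.Agent.Q117.FQ.Vel
import Pool.Agent.Q117.SI.Rks
import Pool.Agent.Q117.SI.All1

/-!
Project FQ (helper117): the theorems about four-square representations without hypotheses.
-/

set_option autoImplicit false

namespace Pool.Agent.Q117.FQ

open Finset
open Pool.Agent.W65.FS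

theorem gsC : GSc := gs

theorem rqC : RQc := rq gs (hit cnt) (Pool.Agent.Q117.LF.cova Pool.Agent.Q117.LF.rsa) Pool.Agent.Q117.SI.rks

theorem nqC : NQc := nq gs loc cnt Pool.Agent.Q184.LF.avg

theorem velC : ∀ k : ℕ, ∃ n0 : ℕ, ∀ n : ℕ, Odd n → n0 ≤ n → ∀ E : Finset ℤ, E.card ≤ k →
    (∀ l : ℕ, l.Prime → l ≠ 2 → ∃ c ∈ Gl n l, ∀ e ∈ E, ¬ (l : ℤ) ∣ pf c + e) → 1 / Real.log n ^ (k + 1) ≤ VE n E := vel cnt

end Pool.Agent.Q117.FQ
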