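import Pool.Agent.W65.FS.Final
import Pool.Agent.Q117.LF.Stm8
import Pool.Agent.Q117.SI.Stm

/-!
Project FQ (helper117): representations `n = x ^ 2 + y ^ 2 + z ^ 2 + w ^ 2` with `p = x ^ 2 + 3 y ^ 2 + 5 z ^ 2 + 7 w ^ 2` in prescribed surroundings.

Every `St_X` below is the statement of one job; the doc comment is its complete proof. The file of a job is `Pool/Agent/Q117/FQ/<Name>.lean`, the theorem
has the name given in the comment (namespace `Pool.Agent.Q117.FQ`). The hypotheses of a statement are the conclusions of other jobs (they are assembled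
later), so all jobs are independent.
-/

set_option autoImplicit false

namespace Pool.Agent.Q117.FQ

open Finset Filter
open Pool.Agent.W65.FS
open Pool.Agent.Q117.LF (Ro GN oF St_AVG St_COVA)
open Pool.Agent.Q117.GP (Rk)

open Classical in
/-- the classes `c` modulo `l` on the sphere (not zero) with `pf c ≡ τ` -/
noncomputable def Tl (n l : ℕ) (τ : ℤ) : Finset (Fin 4 → ℤ) := (Gl n l).filter (fun c => (l : ℤ) ∣ pf c - τ)

/-- **CNT** (theorem `cnt : St_CNT`): the number of the classes on the sphere with a given value of the form (checked by computer for `l ≤ 13`).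

Proof. Let `F = ZMod l`, `e = ZMod.stdAddChar`, `N` = the number of the `u : Fin 4 → F` with `∑ u i ^ 2 = n` and `u 0 ^ 2 + 3 u 1 ^ 2 + 5 u 2 ^ 2 + 7 u 3 ^ 2 = τ`. As `(n, τ) ≠ (0, 0)` modulo `l` the vector `0` is not counted and `(Tl n l τ).card = N` (bijection `u ↦ (u i).val`, as in `count_lower` of `W65/FS/Local.lean`).
`l ^ 2 N = ∑_{a, b ∈ F} e (- a n - b τ) ∏_{m ∈ {1, 3, 5, 7}} G (a + m b)` with `G t = ∑_r e (t r ^ 2)` (orthogonality and `Finset.prod_univ_sum` exactly as in `count_quad`). `G 0 = l`; for `t ≠ 0`: `G t = χ t * G 1` with the quadratic character `χ` (`t = s ^ 2 t'`; substitute `r ↦ s r`; `G t + G (t g) = 2 ∑_r e r = 0` for a nonsquare `g`), `|G t| ^ 2 = l`, `(G 1) ^ 4 = l ^ 2` (`gauss_four`).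
The term `(a, b) = (0, 0)` is `l ^ 4`. Since `l ≥ 5` the numbers `1, 3, 5, 7` are different modulo `l`. The pairs `(a, b) ≠ (0, 0)` with `a + m b = 0` for one `m` (four lines, `b ≠ 0`, the lines meet only at `0`): on such a line the term is `e (b (m n - τ)) * l * ∏_{m' ≠ m} χ ((m' - m) b) G 1 = l * (G 1) ^ 3 * χ(..) * χ b * e (b (m n - τ))`, and `|∑_{b ≠ 0} χ b e (b v)| ≤ √l` (it is `χ v` times the Gauss sum, `0` for `v = 0`); so the absolute value of the sum over the line is at most `l * l ^ (3/2) * l ^ (1/2) = l ^ 3`; four lines: `≤ 4 l ^ 3`.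
The other pairs: the term is `l ^ 2 χ (∏ (a + m b)) e (- a n - b τ)`, and `χ (∏ (a + m b))` is the same for all nonzero multiples `(s a, s b)` (degree `4`): group the pairs in the `l + 1 - 4` punctured lines through `0`; the sum of `e (- s (a n + b τ))` over `s ≠ 0` is `l - 1` if `a n + b τ = 0` (this is one line only, because `(n, τ) ≠ (0, 0)`) and `- 1` otherwise: the total is at most `l ^ 2 ((l - 1) + (l - 3)) ≤ 2 l ^ 3` in absolute value.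
So `|l ^ 2 N - l ^ 4| ≤ 6 l ^ 3`. (One may avoid the lines: the sum over the pairs of the second kind is `1 / (l - 1)` times the sum over all `s ≠ 0` and all pairs.) -/
def St_CNT : Prop := ∀ l : ℕ, l.Prime → 5 ≤ l → ∀ n : ℕ, ∀ τ : ℤ, ¬ ((l : ℤ) ∣ n ∧ (l : ℤ) ∣ τ) → |((Tl n l τ).card : ℝ) - (l : ℝ) ^ 2| ≤ 6 * l

/-- **HIT** (theorem `hit : St_HIT`): every value not divisible by `l` is attained.

Proof. `l ≥ 7`: `St_CNT` gives `(Tl n l τ).card ≥ l ^ 2 - 6 l > 0`. `l = 3` and `l = 5`: `decide` over `Fin l` as in `loc3`, `loc5` and `witness` of `W65/FS/Local.lean` (the number of the classes is at least `2` for `l = 3` and at least `8` for `l = 5`; checked by computer). -/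
def St_HIT : Prop := St_CNT → ∀ l : ℕ, l.Prime → l ≠ 2 → ∀ n : ℕ, ∀ τ : ℤ, ¬ (l : ℤ) ∣ τ → (Tl n l τ).Nonempty

open Classical in
/-- the primitive representations with prescribed classes modulo the primes of `P0` and outside of the classes `B l` for the other odd primes `l ≤ z` -/
noncomputable def Cnd (n : ℕ) (P0 : Finset ℕ) (S B : ℕ → Finset (Fin 4 → ℤ)) (z : ℝ) : Finset (Fin 4 → ℤ) :=
  (preps n).filter (fun X => (∀ l ∈ P0, red l X ∈ S l) ∧ ∀ l : ℕ, l.Prime → l ≠ 2 → l ∉ P0 → (l : ℝ) ≤ z → red l X ∉ B l)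

open Classical in
/-- the expected number of these representations -/
noncomputable def Mn (n : ℕ) (P0 : Finset ℕ) (S B : ℕ → Finset (Fin 4 → ℤ)) : ℝ :=
  ((preps n).card : ℝ) * (∏ l ∈ P0, ((S l).card : ℝ) / (Gl n l).card) * ∏ l ∈ (Icc 3 n).filter (fun l => l.Prime ∧ l ∉ P0), (1 - ((B l).card : ℝ) / (Gl n l).card)

/-- conclusion of GS -/
def GSc : Prop := ∀ κ : ℕ, ∃ t : ℕ, 1 ≤ t ∧ ∀ T : ℕ, t ≤ T → ∃ c : ℝ, 0 < c ∧ ∃ C : ℝ, 0 < C ∧ ∃ n0 : ℕ, ∀ n : ℕ, Odd n → n0 ≤ n → ∀ (P0 : Finset ℕ) (S B : ℕ → Finset (Fin 4 → ℤ)),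
  (∀ l ∈ P0, l.Prime ∧ l ≠ 2 ∧ S l ⊆ Gl n l ∧ (S l).Nonempty) → ((∏ l ∈ P0, l : ℕ) : ℝ) ≤ (n : ℝ) ^ (1 / (t : ℝ)) →
  (∀ l : ℕ, l.Prime → l ≠ 2 → l ∉ P0 → B l ⊆ Gl n l ∧ B l ≠ Gl n l ∧ (B l).card ≤ κ * l ^ 2) →
  ∀ z : ℝ, (n : ℝ) ^ (1 / (T : ℝ)) ≤ z → z ≤ (n : ℝ) ^ (1 / (t : ℝ)) →
    c * Mn n P0 S B ≤ ((Cnd n P0 S B z).card : ℝ) ∧ ((Cnd n P0 S B z).card : ℝ) ≤ C * Mn n P0 S B

/-- **GS** (theorem `gs : St_GS`): the sieve on the sphere with prescribed classes, lower and upper bound.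

Proof. Generalise `sieve_main` (`W65/FS/Sieve.lean`). `fLem κ` gives `C0`; `z₀ = C0 + 2 κ + 10`; `T0 = P0 ∪ {odd primes l ≤ z₀, l ∉ P0}`, `S' l = S l` on `P0` and `S' l = Gl n l \ B l` (nonempty) on the others. `∏ T0 ≤ n ^ (1 / t) * 4 ^ z₀ ≤ n ^ (2 / t)`. `Ω` = the primitive representations `X` with `red l X ∈ S' l` for `l ∈ T0`; `A = |preps n| ∏_{l ∈ T0} |S' l| / |Gl n l|` (a real number, NOT the number of the elements of `Ω`).
For a scale `z₁ = 2 ^ 2 ^ J`, `P` = the primes of `(z₀, z₁]` outside of `P0`: for `T ⊆ P`, `distribution` with `M = 1`, `v = 0` (`prc_one`, `good_one`), the set `T0 ∪ T` and the classes `S'` on `T0`, `B` on `T` gives `|#{X ∈ Ω : red l X ∈ B l for l ∈ T} - A ∏_{l ∈ T} g l| ≤ C (∏ T0 ∏ T) ^ 15 n ^ (19/20)`, `g l = |B l| / |Gl n l| ≤ κ / (l - 1)` (`gg_bound`). So `fLem` gives, as in `sieve_main`, `|S₁ - A ∏_{l ∈ P} (1 - g l)| ≤ (1/2) ^ C0 A ∏_{l ∈ P} (1 - g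 l) + (J + 2) ∑_T err T`, where `S₁` = the number of the `X ∈ Ω` with `red l X ∉ B l` for `l ∈ P`, that is `|Cnd n P0 S B z₁|` up to strictness at `z₁` (which is not a prime for `J ≥ 1`).
The error is at most `n ^ (24/25)` if `t` is large enough (`z₁ ≤ n ^ (2 / t)`), while `A ∏_{l ∈ P} (1 - g l) ≥ n ^ (97/100)`: `|preps n| ≥ c n ^ (1 - 1/100)` (`preps_lower`), `|S l| / |Gl n l| ≥ l ^ (-4)` (`card_Gl_le`), so the product over `P0` is `≥ n ^ (- 4 / t)`, the one over the other primes `≤ z₀` is a constant, and `prod_lower`: `∏_{l ∈ P} (1 - g l) ≥ exp (- 2 κ) z₁ ^ (- 2 κ)`.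
LOWER BOUND for `z`: take `J` with `z ≤ z₁ < z ^ 2` (or `≤ z ^ 2`): `Cnd .. z₁ ⊆ Cnd .. z`, and `A ∏_{l ∈ P} (1 - g l) ≥ Mn` since all the factors of `Mn` are in `[0, 1]` (the primes in `[3, n]`, `z₁ ≤ n`). UPPER BOUND for `z`: take `J` with `√z ≤ z₁ ≤ z` (`z ^ (1/2) ≤ z₁`, `exists_scale` with `B = 1` at `⌊z⌋₊`, or directly): `Cnd .. z ⊆ Cnd .. z₁`, and `A ∏_{l ∈ P} (1 - g l) ≤ C Mn`: the missing primes are those of `(z₁, n]`: `∏ (1 - g l)⁻¹ ≤ exp (2 ∑_{z₁ < l ≤ n} κ / (l - 1)) ≤ C (T, κ)` by Mertens (`log n ≤ 2 T log z₁`; `V1_bounds` in `Y843/HG`, or any `∑ 1 / p` estimate of the library). -/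
def St_GS : Prop := GSc

open Classical in
/-- the primitive representations with all the `p + h`, `h ∈ H`, rough and all other integers at distance `≤ D` from `p` with a prime factor `≤ y` -/
noncomputable def RQ (n : ℕ) (H : Finset ℤ) (z D y : ℝ) : Finset (Fin 4 → ℤ) :=
  (preps n).filter (fun X => (∀ h ∈ H, Ro z (pf X + h)) ∧ ∀ s : ℤ, |(s : ℝ)| ≤ D → s ∉ H → ¬ Ro y (pf X + s))

/-- conclusion of RQ -/
def RQc : Prop := ∀ (k : ℕ) (ε : ℝ), 0 < ε → ∃ t : ℕ, 1 ≤ t ∧ ∃ c : ℝ, 0 < c ∧ ∃ n0 : ℕ, ∀ n : ℕ, Odd n → n0 ≤ n →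
  ∀ H : Finset ℤ, H.card ≤ k → 0 ∈ H → (∀ h ∈ H, Even h ∧ |(h : ℝ)| ≤ c * Rk n) → (∀ l : ℕ, l.Prime → l ≠ 2 → ∃ r : ℤ, ∀ h ∈ H, ¬ (l : ℤ) ∣ r + h) →
    (n : ℝ) ^ (1 - ε) ≤ ((RQ n H ((n : ℝ) ^ (1 / (t : ℝ))) (c * Rk n) (Real.log n)).card : ℝ)

/-- **RQ** (theorem `rq : St_RQ`): all prescribed surroundings at Rankin's scale on the sphere.

Proof. `κ = 4 k`, `t` from `GSc κ` (`T = t`), `α = min (1 / t) (min (ε / 32) 1)`, `X' = n ^ α`. `St_COVA` with `A0 = 2` for all `k' ≤ k`, `k' ≥ 1` (`c_cov` the minimum), `ps = 1`, `S = ∅` (as in the proof of RSI, `SI/Stm.lean`; `GoodP 2 1`, `GoodS X' ∅`). `W = WW X' ∅ 1 ≤ X' = n ^ α`. By `RKS` choose `c` so small that `O = ⌈c Rk n⌉₊` has `2 O ≤ c_cov Rk X'` for `n` large. `H' = {h + O : h ∈ H} ⊂ ℕ`, `AdmA 2 H'`. COVA gives `a` such that for natural `s ≤ c_cov Rk X'`: (no odd prime `l ∣ W` divides `a + s`) iff `s ∈ H'`.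
`P0` = the odd primes dividing `W`, `τ = a + O`; since `0 ∈ H`, `O ∈ H'`, so `τ` is not divisible by any `l ∈ P0`: `S l = Tl n l τ` is nonempty (`HIT`). `∏ P0 ≤ W ≤ n ^ (1 / t)`. `B l = {c ∈ Gl n l : l ∣ pf c + h for some h ∈ H}`, `≤ 4 k l ^ 2` elements (`bad_tau` for every `h`); for the odd primes `l ∉ P0` we have `l > (log X') / 1000 > 4 k + 1` for `n` large, so `|B l| ≤ 4 k l ^ 2 < l ^ 3 - l ≤ |Gl n l|` (`count_lower`). (For `l ∈ P0` nothing is asked.)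
GSc: `|Cnd n P0 S B (n ^ (1/t))| ≥ c Mn ≥ n ^ (1 - ε)`: `|preps n| ≥ c' n ^ (1 - ε / 4)`, the product over `P0` is `≥ ∏ l ^ (-4) ≥ n ^ (- 4 α) ≥ n ^ (- ε / 8)`, and the product over the other primes `≤ n` is `≥ c'' (log n) ^ (- 16 k)` (factors `≥ 1 - 4 k / (l - 1) ≥ (1 - 1 / l) ^ (8 k)` for `l` large; Mertens).
For `X ∈ Cnd`: `pf X ≡ pf (red l X)` (`pf_congr`, `red_dvd`). `Ro (n ^ (1/t)) (pf X + h)`: the prime `2` does not divide `pf X + h` (`pf_odd`, `h` even); for `l ∈ P0`: `pf X + h ≡ a + (O + h)` is not divisible by `l`; for the other odd `l ≤ n ^ (1/t)`: `red l X ∉ B l`. For `|s| ≤ c Rk n`, `s ∉ H`: `O + s ∈ [0, 2 O]` is not in `H'`, so some `l ∈ P0` divides `a + O + s ≡ pf X + s`, and `l ≤ log X' / 1000 ≤ log n`. -/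
def St_RQ : Prop := GSc → (∀ l : ℕ, l.Prime → l ≠ 2 → ∀ n : ℕ, ∀ τ : ℤ, ¬ (l : ℤ) ∣ τ → (Tl n l τ).Nonempty) → St_COVA → Pool.Agent.Q117.SI.St_RKS → RQc

open Classical in
/-- the bad classes for a set `E` of shifts -/
noncomputable def BE (E : Finset ℤ) (n l : ℕ) : Finset (Fin 4 → ℤ) := (Gl n l).filter (fun c => ∃ e ∈ E, (l : ℤ) ∣ pf c + e)

/-- their density -/
noncomputable def gE (E : Finset ℤ) (n l : ℕ) : ℝ := ((BE E n l).card : ℝ) / (Gl n l).card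

/-- the singular product on the sphere -/
noncomputable def VE (n : ℕ) (E : Finset ℤ) : ℝ := ∏ l ∈ (Icc 3 n).filter Nat.Prime, (1 - gE E n l)

/-- the sieve product of a set of shifts over the odd primes -/
noncomputable def VO (n : ℕ) (F : Finset ℤ) : ℝ := ∏ l ∈ (Icc 3 n).filter Nat.Prime, (1 - (oF F l : ℝ) / l)

/-- **LOC** (theorem `loc : St_LOC`): the singular product of a union of two sets of shifts. (`GN 2 n m` is the product of `1 + 2 / p` over the primes `p ≤ n` dividing `m`, `LF/Stm5.lean`; `oF F l` is the number of the classes modulo `l` of the elements of `F`, `LF/Stm6.lean`.)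

Proof. Let `D = E ∪ {s + f}`. For every odd prime `l ≤ n`: `BE E ⊆ BE D`, so `0 ≤ 1 - gE D ≤ 1 - gE E`. Since `F` has no obstruction at `l`, `oF F l ≤ l - 1` (the classes of `- f` do not fill everything), so `1 - oF F l / l ≥ 1 / l`. `l ≤ l₀` (`l₀` depends on `k`): `1 - gE D ≤ l (1 - gE E) (1 - oF F l / l)`, these constants go into `C₁`.
`l > l₀`: all of `gE E`, `gE D` are `≤ 8 k / (l - 1) ≤ 1/4` (`bad_tau`, `gg_bound`). If `l` divides one of the `s + f - e`, or divides `r_f` (`r_f = s + f` if this is not `0`, `r_f = n` otherwise): `1 - gE D ≤ 1 - gE E ≤ (1 - gE E) (1 - oF F l / l) (1 + 2 k / l) ≤ (1 - gE E) (1 - oF F l / l) (1 + 2 / l) ^ (2 k)`. Otherwise: for every `f ∈ F` not both `l ∣ n` and `l ∣ s + f`; the classes of the `- (s + f)` modulo `l` are different from those of the `- e`; there are `oF F l` different classes `τ` of this kind, with `|Tl n l τ| ≥ l ^ 2 - 6 l` by `CNT`,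 and these sets are disjoint and disjoint from `BE E`. As `|Gl n l| ≤ l ^ 3 + l ^ 2` (`count_quad`; or `(count)`: the number of the `u` with `|u| ^ 2 = n` is `l ^ 3 + l ^ 2 - l` or `l ^ 3 - l`): `gE D ≥ gE E + oF F l (l ^ 2 - 6 l) / (l ^ 3 + l ^ 2) ≥ gE E + oF F l / l - 7 k / l ^ 2`. So `1 - gE D ≤ 1 - gE E - oF F l / l + 7 k / l ^ 2 ≤ (1 - gE E) (1 - oF F l / l) + 7 k / l ^ 2 ≤ (1 - gE E) (1 - oF F l / l) (1 + 28 k / l ^ 2)`.
Multiply: `∏ (1 + 28 k / l ^ 2)` converges. `C = 2 k`. -/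
def St_LOC : Prop := St_CNT → ∀ k : ℕ, ∃ C : ℕ, ∃ C₁ : ℝ, 0 < C₁ ∧ ∀ n : ℕ, Odd n → ∀ E F : Finset ℤ, E.card ≤ k → F.card ≤ k →
  (∀ l : ℕ, l.Prime → l ≠ 2 → ∃ r : ℤ, ∀ f ∈ F, ¬ (l : ℤ) ∣ r + f) → ∀ s : ℤ, (∀ f ∈ F, ∀ e ∈ E, s + f ≠ e) →
    VE n (E ∪ F.image (fun f => s + f)) ≤ C₁ * (VE n E * VO n F * (∏ f ∈ F, (GN 2 n (if s + f = 0 then (n : ℤ) else s + f) * ∏ e ∈ E, GN 2 n (s + f - e))) ^ C)

open Classical in
/-- the primitive representations with all the `p + e`, `e ∈ E`, rough, and such that for all sets `F γ` of the family and all shifts `|s| ≤ L γ`: if all the `p + s + f`, `f ∈ F γ`, are rough, then `s + F γ ⊆ E` -/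
noncomputable def NQ (n : ℕ) (E : Finset ℤ) (z : ℝ) {g : ℕ} (L : Fin g → ℝ) (F : Fin g → Finset ℤ) : Finset (Fin 4 → ℤ) :=
  (preps n).filter (fun X => (∀ e ∈ E, Ro z (pf X + e)) ∧ ∀ γ, ∀ s : ℤ, |(s : ℝ)| ≤ L γ → (∀ f ∈ F γ, Ro z (pf X + s + f)) → ∀ f ∈ F γ, s + f ∈ E)

/-- conclusion of NQ -/
def NQc : Prop := ∀ k g : ℕ, ∃ t : ℕ, 1 ≤ t ∧ ∃ c : ℝ, 0 < c ∧ ∃ ν : ℝ, 0 < ν ∧ ∃ n0 : ℕ, ∀ n : ℕ, Odd n → n0 ≤ n → ∀ E : Finset ℤ, E.card ≤ k → (∀ e ∈ E, Even e ∧ |e| ≤ n) →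
  (∀ l : ℕ, l.Prime → l ≠ 2 → ∃ c ∈ Gl n l, ∀ e ∈ E, ¬ (l : ℤ) ∣ pf c + e) → ∀ F : Fin g → Finset ℤ,
  (∀ γ, (F γ).Nonempty ∧ (F γ).card ≤ k ∧ (∀ f ∈ F γ, |f| ≤ n) ∧ ∀ l : ℕ, l.Prime → l ≠ 2 → ∃ r : ℤ, ∀ f ∈ F γ, ¬ (l : ℤ) ∣ r + f) →
  ∀ L : Fin g → ℝ, (∀ γ, 0 ≤ L γ ∧ L γ ≤ n ∧ L γ * VO n (F γ) ≤ ν) →
    c * ((preps n).card * VE n E) ≤ ((NQ n E ((n : ℝ) ^ (1 / (t : ℝ))) L F).card : ℝ)

/-- **NQ** (theorem `nq : St_NQ`): the theorem at the natural scale on the sphere.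

Proof. `κ = 8 k`, `t` from `GSc κ`, `T = t`, `z = n ^ (1/t)`. LOWER BOUND: `GSc` with `P0 = ∅`, `B l = BE E n l` (`≤ 4 k l ^ 2` elements, `bad_tau`; `≠ Gl n l` by the hypothesis on `E`): `|Cnd| ≥ c₀ |preps n| VE n E`, and for `X ∈ Cnd` all `p + e` are rough (`2 ∤ pf X + e` by `pf_odd`, `e` even; odd primes `l ≤ z`: `pf_congr`, `red_dvd`, `red_mem`).
UPPER BOUND for a set `D` of at most `2 k` shifts: the number of the `X ∈ preps n` with all the `pf X + d`, `d ∈ D`, rough is at most `C₀ |preps n| VE n D`: if `BE D n l = Gl n l` for some odd prime `l` then `l ≤ 8 k + 2 ≤ z` (as `|Gl n l| ≥ l ^ 3 - l > 8 k l ^ 2` otherwise) and the number is `0` (`VE ≥ 0`); otherwise `GSc`.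
EXCEPTIONS for a member `F` of the family and `|s| ≤ L`, not `s + F ⊆ E`. (b) some `s + f ∈ E ∪ {0}` (for at most `k (k + 1)` values of `s`): let `s + f₀ ∉ E`. `D = E ∪ {s + f₀}`, `LOC` with `F = {f₀}`: the number is at most `C |preps n| VE n E * VO n {f₀} * (∏ GN) ^ C`, `VO n {f₀} = ∏_{3 ≤ l ≤ n} (1 - 1 / l) ≤ C / log n`, and `GN 2 n m ≤ C (log log n) ^ 2`, for instance `(∏ GN) ^ C ≤ C' (log n) ^ (1/2)`, for `0 < |m| ≤ n ^ 3` (compare `Nsc.lean`, case (b)): altogether `≤ C |preps n| VE n E (log n) ^ (-1/2)`. (c) all `s + f ∉ E ∪ {0}`: `LOC` with `F`: `≤ C |preps n| VE n E * VO n F * ∏ GN 2 n (linear forms in s)` where every form `s + f`, `s + f - e` is repeated `C` times. `AVG` (at `X = n`; the number of the forms is at most `2 k (k + 1) * C`; take the maximum of the constants over all these numbers): the sum over these `s` is `≤ C |preps n| VE n E VO n F (L + (log n) ^ (1/2)) ≤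 C |preps n| VE n E (ν + (log n) ^ (-1/2))` (`VO n F ≤ C / log n` because `F` is nonempty).
SUM over the `g` members: `≤ C'' |preps n| VE n E (ν + (log n) ^ (-1/2))`, less than half of the lower bound for `ν` small and `n` large. Compare `per_sys` and the end of the proof in `LF/Nsc.lean`. -/
def St_NQ : Prop := GSc → St_LOC → St_CNT → St_AVG → NQc

/-- **VEL** (theorem `vel : St_VEL`): lower bound for the singular product.

Proof. `l ≤ l₀` (depending on `k`): there is a class outside of `BE`, so `1 - gE ≥ 1 / |Gl n l| ≥ l ^ (-4)`. `l > l₀`, `l ∤ n`: `gE ≤ k (l ^ 2 + 6 l) / (l ^ 3 - l) ≤ k / l + 8 k / l ^ 2` (`CNT`, `count_lower`); the product over these `l ≤ n` is at least `c (log n) ^ (-k)` (Mertens). `l > l₀`, `l ∣ n`: `gE ≤ 4 k / (l - 1)`, and `∏_{l ∣ n} (1 - 5 k / l) ≥ c (GN 2 n n) ^ (- 5 k) ≥ (log n) ^ (-1/2)` for `n` large (the number of the primes `l ∣ n`, `l > log n`, is at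 most `log n`; Mertens for `l ≤ log n`). -/
def St_VEL : Prop := St_CNT → ∀ k : ℕ, ∃ n0 : ℕ, ∀ n : ℕ, Odd n → n0 ≤ n → ∀ E : Finset ℤ, E.card ≤ k →
  (∀ l : ℕ, l.Prime → l ≠ 2 → ∃ c ∈ Gl n l, ∀ e ∈ E, ¬ (l : ℤ) ∣ pf c + e) → 1 / Real.log n ^ (k + 1) ≤ VE n E

end Pool.Agent.Q117.FQ
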