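import Pool.Agent.Q117.FQ.CntCore
import Pool.Agent.Q117.FQ.Stm

set_option autoImplicit false

/-!
Project FQ (helper117), job CNT (helper222): the number of the classes on the sphere with a given value of the form.
-/

namespace Pool.Agent.Q117.FQ.CNT

open Finset
open Pool.Agent.W65.FS

theorem small_ne {l : ℕ} (hl : l.Prime) (h5 : 5 ≤ l) : (2 : ZMod l) ≠ 0 ∧ (4 : ZMod l) ≠ 0 ∧ (6 : ZMod l) ≠ 0 := by
  have key : ∀ c : ℕ, (c = 2 ∨ c = 4 ∨ c = 6) → ((c : ℕ) : ZMod l) ≠ 0 := by
    intro c hc h
    have hd := (ZMod.natCast_eq_zero_iff c l).1 h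
    have hle : l ≤ c := Nat.le_of_dvd (by omega) hd
    rcases hc with rfl | rfl | rfl
    · omega
    · omega
    · have : l = 5 ∨ l = 6 := by omega
      rcases this with rfl | rfl
      · omega
      · exact absurd hl (by decide)
  exact ⟨by simpa using key 2 (Or.inl rfl), by simpa using key 4 (Or.inr (Or.inl rfl)), by simpa using key 6 (Or.inr (Or.inr rfl))⟩

/-- the coefficients -/
def mm (l : ℕ) : Fin 4 → ZMod l := ![1, 3, 5, 7]

theorem mm_inj {l : ℕ} (hl : l.Prime) (h5 : 5 ≤ l) : Function.Injective (mm l) := by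
  obtain ⟨h2, h4, h6⟩ := small_ne hl h5
  intro i j h
  unfold mm at h
  fin_cases i <;> fin_cases j <;> simp at h ⊢
  · exact h2 (by linear_combination -h)
  · exact h4 (by linear_combination -h)
  · exact h6 (by linear_combination -h)
  · exact h2 (by linear_combination h)
  · exact h2 (by linear_combination -h)
  · exact h4 (by linear_combination -h)
  · exact h4 (by linear_combination h)
  · exact h2 (by linear_combination h)
  · exact h2 (by linear_combination -h)
  · exact h6 (by linear_combination h)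
  · exact h4 (by linear_combination h)
  · exact h2 (by linear_combination h)

theorem card_Tl {l : ℕ} [NeZero l] [Fact l.Prime] (n : ℕ) (τ : ℤ) (h : ¬ ((l : ℤ) ∣ n ∧ (l : ℤ) ∣ τ)) :
    (Tl n l τ).card = NN l (mm l) (n : ZMod l) (τ : ZMod l) := by
  classical
  symm
  unfold NN Tl
  apply Finset.card_bij (fun u _ i => ((u i).val : ℤ))
  · intro u hu
    rw [Finset.mem_filter] at hu
    obtain ⟨-, hu1, hu2⟩ := hu
    have e2 : (l : ℤ) ∣ pf (fun i => ((u i).val : ℤ)) - τ := by
      rw [← ZMod.intCast_zmod_eq_zero_iff_dvd]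
      unfold pf
      push_cast
      simp only [ZMod.natCast_zmod_val]
      rw [← hu2, Fin.sum_univ_four]
      simp [mm]
    have e1 : (l : ℤ) ∣ (∑ i, ((u i).val : ℤ) ^ 2) - n := by
      rw [← ZMod.intCast_zmod_eq_zero_iff_dvd]
      push_cast
      simp only [ZMod.natCast_zmod_val]
      rw [hu1, sub_self]
    rw [Finset.mem_filter, mem_Gl]
    refine ⟨⟨fun i => ⟨by positivity, ?_⟩, e1, ?_⟩, e2⟩
    · have := ZMod.val_lt (u i)
      exact_mod_cast this
    · by_contra hcon
      push Not at hcon
      apply h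
      have z : ∀ i, u i = 0 := by
        intro i
        have := (ZMod.intCast_zmod_eq_zero_iff_dvd _ l).2 (hcon i)
        push_cast at this
        rw [ZMod.natCast_zmod_val] at this
        exact this
      constructor
      · rw [← ZMod.intCast_zmod_eq_zero_iff_dvd]
        push_cast
        rw [← hu1]
        simp [z]
      · rw [← ZMod.intCast_zmod_eq_zero_iff_dvd, ← hu2]
        simp [z]
  · intro u _ u' _ huu
    funext i
    have := congrFun huu i
    simp only [Nat.cast_inj] at this
    exact ZMod.val_injective _ this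
  · intro c hc
    rw [Finset.mem_filter, mem_Gl] at hc
    obtain ⟨⟨hc1, hc2, -⟩, hc3⟩ := hc
    refine ⟨fun i => (c i : ZMod l), ?_, ?_⟩
    · rw [Finset.mem_filter]
      refine ⟨Finset.mem_univ _, ?_, ?_⟩
      · rw [← ZMod.intCast_zmod_eq_zero_iff_dvd] at hc2
        push_cast at hc2
        exact sub_eq_zero.1 hc2
      · rw [← ZMod.intCast_zmod_eq_zero_iff_dvd] at hc3
        unfold pf at hc3
        push_cast at hc3
        rw [Fin.sum_univ_four]
        simp [mm]
        linear_combination hc3
    · funext i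
      simp only
      rw [ZMod.val_intCast]
      exact Int.emod_eq_of_lt (hc1 i).1 (hc1 i).2

end Pool.Agent.Q117.FQ.CNT

namespace Pool.Agent.Q117.FQ

open Pool.Agent.Q117.FQ.CNT

theorem cnt : St_CNT := by
  intro l hl h5 n τ h
  have : NeZero l := ⟨hl.ne_zero⟩
  have : Fact l.Prime := ⟨hl⟩
  have hlo : Odd l := hl.odd_of_ne_two (by omega)
  rw [card_Tl n τ h]
  apply NN_bound l hlo (mm l) (mm_inj hl h5)
  by_contra hcon
  push Not at hcon
  apply h
  constructor
  · rw [← ZMod.intCast_zmod_eq_zero_iff_dvd]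
    push_cast
    exact hcon.1
  · rw [← ZMod.intCast_zmod_eq_zero_iff_dvd]
    exact hcon.2

end Pool.Agent.Q117.FQ
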