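import Pool.Agent.W65.FS.Local

set_option autoImplicit false

/-!
Project FQ (helper117), job CNT (helper222), core: pairs of diagonal quadratic forms over `ZMod l`.
-/

namespace Pool.Agent.Q117.FQ.CNT

open Finset
open Pool.Agent.W65.FS

variable (l : ℕ) [NeZero l] [Fact l.Prime]

/-- the additive character -/
noncomputable abbrev ps : AddChar (ZMod l) ℂ := ZMod.stdAddChar

/-- the quadratic character, complex values -/
noncomputable def ch : MulChar (ZMod l) ℂ := (quadraticChar (ZMod l)).ringHomComp (Int.castRingHom ℂ)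

/-- the Gauss sum -/
noncomputable def gg : ℂ := gaussSum (ch l) (ps l)

theorem rc (hl : Odd l) : ringChar (ZMod l) ≠ 2 := by
  rw [ZMod.ringChar_zmod_n]
  rintro rfl
  exact absurd hl (by decide)

theorem ch_ne (hl : Odd l) : ch l ≠ 1 := by
  intro h
  obtain ⟨a, ha⟩ := quadraticChar_exists_neg_one (rc l hl)
  have ha0 : a ≠ 0 := by
    rintro rfl
    rw [MulChar.map_zero] at ha
    exact absurd ha (by norm_num)
  have h1 : ch l a = -1 := by
    unfold ch
    rw [MulChar.ringHomComp_apply, ha]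
    simp
  rw [h, MulChar.one_apply (isUnit_iff_ne_zero.2 ha0)] at h1
  norm_num at h1

theorem ch_quad : (ch l).IsQuadratic := by
  intro a
  unfold ch
  rcases quadraticChar_isQuadratic (ZMod l) a with h | h | h
  · left; simp [h]
  · right; left; simp [h]
  · right; right; simp [h]

theorem ch_zero : ch l 0 = 0 := MulChar.map_zero _

theorem ch_sq {a : ZMod l} (ha : a ≠ 0) : ch l a ^ 2 = 1 := by
  unfold ch
  have := quadraticChar_sq_one ha
  rw [MulChar.ringHomComp_apply, ← map_pow, this, map_one]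

theorem ch_norm {a : ZMod l} (ha : a ≠ 0) : ‖ch l a‖ = 1 := by
  have h := congrArg (fun z => ‖z‖) (ch_sq l ha)
  simp only [norm_pow, norm_one] at h
  exact (pow_eq_one_iff_of_nonneg (norm_nonneg _) two_ne_zero).1 h

theorem ch_norm_le (a : ZMod l) : ‖ch l a‖ ≤ 1 := by
  by_cases ha : a = 0
  · rw [ha, ch_zero, norm_zero]; exact zero_le_one
  · exact (ch_norm l ha).le

theorem gg_sq (hl : Odd l) : gg l ^ 2 = ch l (-1) * l := by
  have := gaussSum_sq (ch_ne l hl) (ch_quad l) (ZMod.isPrimitive_stdAddChar l)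
  rw [ZMod.card] at this
  exact this

omit [NeZero l] in
theorem neg_one_ne : (-1 : ZMod l) ≠ 0 := neg_ne_zero.2 one_ne_zero

theorem gg_norm (hl : Odd l) : ‖gg l‖ ^ 2 = l := by
  rw [← norm_pow, gg_sq l hl, norm_mul, ch_norm l (neg_one_ne l), one_mul, Complex.norm_natCast]

theorem gg_four (hl : Odd l) : gg l ^ 4 = (l : ℂ) ^ 2 := by
  have : gg l ^ 4 = (gg l ^ 2) ^ 2 := by ring
  rw [this, gg_sq l hl, mul_pow, ch_sq l (neg_one_ne l), one_mul]

/-- twisted Gauss sums -/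
theorem tw (hl : Odd l) (t : ZMod l) : ∑ a : ZMod l, ch l a * ps l (t * a) = ch l t * gg l := by
  by_cases ht : t = 0
  · rw [ht, ch_zero, zero_mul]
    simp only [zero_mul, AddChar.map_zero_eq_one, mul_one]
    exact MulChar.sum_eq_zero_of_ne_one (ch_ne l hl)
  · have h1 := gaussSum_mulShift (ch l) (ps l) (Units.mk0 t ht)
    have h2 : gaussSum (ch l) ((ps l).mulShift (Units.mk0 t ht : ZMod l)) = ∑ a : ZMod l, ch l a * ps l (t * a) := rfl
    rw [h2] at h1
    have h3 : ch l ((Units.mk0 t ht : (ZMod l)ˣ) : ZMod l) = ch l t := rfl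
    rw [h3] at h1
    unfold gg
    rw [← h1, ← mul_assoc, ← sq, ch_sq l ht, one_mul]

/-- the quadratic exponential sums -/
theorem G_eq (hl : Odd l) (t : ZMod l) : ∑ r : ZMod l, ps l (t * r ^ 2) = (if t = 0 then (l : ℂ) else 0) + ch l t * gg l := by
  classical
  by_cases ht : t = 0
  · rw [ht, if_pos rfl, ch_zero]
    simp [ZMod.card]
  · rw [if_neg ht, zero_add, ← tw l hl]
    have h1 : ∑ r : ZMod l, ps l (t * r ^ 2) = ∑ a : ZMod l, ∑ r ∈ univ.filter (fun r : ZMod l => r ^ 2 = a), ps l (t * r ^ 2) :=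
      (Finset.sum_fiberwise _ _ _).symm
    rw [h1]
    have h2 : ∀ a : ZMod l, ∑ r ∈ univ.filter (fun r : ZMod l => r ^ 2 = a), ps l (t * r ^ 2) = (ch l a + 1) * ps l (t * a) := by
      intro a
      have h3 : ∑ r ∈ univ.filter (fun r : ZMod l => r ^ 2 = a), ps l (t * r ^ 2) =
          ∑ _r ∈ univ.filter (fun r : ZMod l => r ^ 2 = a), ps l (t * a) :=
        Finset.sum_congr rfl fun r hr => by rw [(Finset.mem_filter.1 hr).2]
      rw [h3, Finset.sum_const, nsmul_eq_mul]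
      congr 1
      have h4 := quadraticChar_card_sqrts (rc l hl) a
      have h5 : ({x : ZMod l | x ^ 2 = a}.toFinset).card = (univ.filter (fun r : ZMod l => r ^ 2 = a)).card := by
        congr 1
        ext x
        simp
      rw [h5] at h4
      have h6 : (((univ.filter (fun r : ZMod l => r ^ 2 = a)).card : ℤ) : ℂ) = ((quadraticChar (ZMod l) a + 1 : ℤ) : ℂ) := by rw [h4]
      push_cast at h6
      rw [h6]
      rfl
    rw [Finset.sum_congr rfl (fun a _ => h2 a)]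
    simp only [add_mul, one_mul, Finset.sum_add_distrib]
    have h7 : ∑ a : ZMod l, ps l (t * a) = 0 := by
      have := AddChar.sum_mulShift t (ZMod.isPrimitive_stdAddChar l)
      rw [if_neg ht, Nat.cast_zero] at this
      rw [← this]
      exact Finset.sum_congr rfl fun a _ => by rw [mul_comm]
    rw [h7, add_zero]

theorem ch_cube (b : ZMod l) : ch l b * ch l b * ch l b = ch l b := by
  by_cases hb : b = 0
  · rw [hb, ch_zero]; simp
  · have := ch_sq l hb
    rw [sq] at this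
    rw [this, one_mul]

/-- orthogonality -/
theorem orth (x : ZMod l) : ∑ a : ZMod l, (ps l (a * x) : ℂ) = if x = 0 then (l : ℂ) else 0 := by
  rw [AddChar.sum_mulShift _ (ZMod.isPrimitive_stdAddChar l), ZMod.card]
  split_ifs <;> simp

/-- the sum over a line -/
theorem line (hl : Odd l) (k α β γ n τ : ZMod l) :
    ‖∑ p : ZMod l × ZMod l, ps l (-(p.1 * n + p.2 * τ)) * ((if p.1 + k * p.2 = 0 then (l : ℂ) else 0) *
      (ch l (p.1 + (k + α) * p.2) * ch l (p.1 + (k + β) * p.2) * ch l (p.1 + (k + γ) * p.2)))‖ ≤ l * ‖gg l‖ := by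
  classical
  rw [Fintype.sum_prod_type_right]
  have h1 : ∀ b : ZMod l, ∑ a : ZMod l, ps l (-(a * n + b * τ)) * ((if a + k * b = 0 then (l : ℂ) else 0) *
      (ch l (a + (k + α) * b) * ch l (a + (k + β) * b) * ch l (a + (k + γ) * b))) =
      (l : ℂ) * (ch l α * ch l β * ch l γ) * (ch l b * ps l ((k * n - τ) * b)) := by
    intro b
    rw [Finset.sum_eq_single (-(k * b))]
    · have e1 : -(k * b) + k * b = 0 := by ring
      have e2 : ∀ x : ZMod l, -(k * b) + (k + x) * b = x * b := fun x => by ring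
      have e3 : -(-(k * b) * n + b * τ) = (k * n - τ) * b := by ring
      simp only [e1, e2, e3, if_true, map_mul]
      have := ch_cube l b
      calc _ = (l : ℂ) * (ch l α * ch l β * ch l γ) * ((ch l b * ch l b * ch l b) * ps l ((k * n - τ) * b)) := by ring
        _ = _ := by rw [this]
    · intro a _ ha
      have : a + k * b ≠ 0 := fun h => ha (by linear_combination h)
      rw [if_neg this, zero_mul, mul_zero]
    · intro h; exact absurd (Finset.mem_univ _) h
  rw [Finset.sum_congr rfl (fun b _ => h1 b), ← Finset.mul_sum, tw l hl, norm_mul, norm_mul, norm_mul, norm_mul, norm_mul,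
    Complex.norm_natCast]
  have b1 := ch_norm_le l α
  have b2 := ch_norm_le l β
  have b3 := ch_norm_le l γ
  have b4 := ch_norm_le l (k * n - τ)
  have hl0 : (0 : ℝ) ≤ l := Nat.cast_nonneg l
  have c1 : ‖ch l α‖ * ‖ch l β‖ * ‖ch l γ‖ ≤ 1 := by
    have : ‖ch l α‖ * ‖ch l β‖ ≤ 1 := mul_le_one₀ b1 (norm_nonneg _) b2
    exact mul_le_one₀ this (norm_nonneg _) b3
  calc (l : ℝ) * (‖ch l α‖ * ‖ch l β‖ * ‖ch l γ‖) * (‖ch l (k * n - τ)‖ * ‖gg l‖)
      ≤ (l : ℝ) * 1 * (1 * ‖gg l‖) := by gcongr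
    _ = _ := by ring

/-- the product of the characters -/
noncomputable def XX (m : Fin 4 → ZMod l) (p : ZMod l × ZMod l) : ℂ :=
  ch l (p.1 + m 0 * p.2) * ch l (p.1 + m 1 * p.2) * ch l (p.1 + m 2 * p.2) * ch l (p.1 + m 3 * p.2)

theorem XX_norm (m : Fin 4 → ZMod l) (p : ZMod l × ZMod l) : ‖XX l m p‖ ≤ ‖ch l (p.1 + m 0 * p.2)‖ := by
  unfold XX
  rw [norm_mul, norm_mul, norm_mul]
  have b1 := ch_norm_le l (p.1 + m 1 * p.2)
  have b2 := ch_norm_le l (p.1 + m 2 * p.2)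
  have b3 := ch_norm_le l (p.1 + m 3 * p.2)
  calc _ ≤ ‖ch l (p.1 + m 0 * p.2)‖ * 1 * 1 * 1 := by gcongr
    _ = _ := by ring

theorem XX_zero (m : Fin 4 → ZMod l) : XX l m 0 = 0 := by
  unfold XX
  simp [ch_zero]

theorem XX_smul (m : Fin 4 → ZMod l) {s : ZMod l} (hs : s ≠ 0) (p : ZMod l × ZMod l) :
    XX l m (s * p.1, s * p.2) = XX l m p := by
  unfold XX
  have e : ∀ x : ZMod l, s * p.1 + x * (s * p.2) = s * (p.1 + x * p.2) := fun x => by ring
  simp only [e, map_mul]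
  have := ch_sq l hs
  calc _ = (ch l s ^ 2) * (ch l s ^ 2) * (ch l (p.1 + m 0 * p.2) * ch l (p.1 + m 1 * p.2) * ch l (p.1 + m 2 * p.2) * ch l (p.1 + m 3 * p.2)) := by ring
    _ = _ := by rw [this]; ring

/-- multiplication by a nonzero number -/
def smE {s : ZMod l} (hs : s ≠ 0) : (ZMod l × ZMod l) ≃ (ZMod l × ZMod l) where
  toFun p := (s * p.1, s * p.2)
  invFun p := (s⁻¹ * p.1, s⁻¹ * p.2)
  left_inv p := by simp [hs]
  right_inv p := by simp [hs]

theorem card_line {n τ : ZMod l} (h : n ≠ 0 ∨ τ ≠ 0) :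
    (univ.filter (fun p : ZMod l × ZMod l => p.1 * n + p.2 * τ = 0)).card ≤ l := by
  classical
  rcases h with h | h
  · calc _ ≤ (univ : Finset (ZMod l)).card := by
          apply Finset.card_le_card_of_injOn (fun p => p.2) (fun _ _ => Finset.mem_coe.2 (Finset.mem_univ _))
          intro p hp q hq hpq
          rw [Finset.mem_coe, Finset.mem_filter] at hp hq
          have e : p.2 = q.2 := hpq
          refine Prod.ext ?_ e
          have h1 : (p.1 - q.1) * n = 0 := by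
            have h2 := hp.2
            have h3 := hq.2
            rw [e] at h2
            linear_combination h2 - h3
          rcases mul_eq_zero.1 h1 with h4 | h4
          · exact sub_eq_zero.1 h4
          · exact absurd h4 h
      _ = l := by rw [Finset.card_univ, ZMod.card]
  · calc _ ≤ (univ : Finset (ZMod l)).card := by
          apply Finset.card_le_card_of_injOn (fun p => p.1) (fun _ _ => Finset.mem_coe.2 (Finset.mem_univ _))
          intro p hp q hq hpq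
          rw [Finset.mem_coe, Finset.mem_filter] at hp hq
          have e : p.1 = q.1 := hpq
          refine Prod.ext e ?_
          have h1 : (p.2 - q.2) * τ = 0 := by
            have h2 := hp.2
            have h3 := hq.2
            rw [e] at h2
            linear_combination h2 - h3
          rcases mul_eq_zero.1 h1 with h4 | h4
          · exact sub_eq_zero.1 h4
          · exact absurd h4 h
      _ = l := by rw [Finset.card_univ, ZMod.card]

/-- the sum over the plane -/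
theorem plane (m : Fin 4 → ZMod l) {n τ : ZMod l} (h : n ≠ 0 ∨ τ ≠ 0) :
    ‖∑ p : ZMod l × ZMod l, ps l (-(p.1 * n + p.2 * τ)) * XX l m p‖ ≤ 2 * l := by
  classical
  have hl1 : (1 : ℝ) < l := by exact_mod_cast (Fact.out : l.Prime).one_lt
  set S := ∑ p : ZMod l × ZMod l, ps l (-(p.1 * n + p.2 * τ)) * XX l m p with hS
  have h1 : ∀ s ∈ univ.erase (0 : ZMod l), S = ∑ p : ZMod l × ZMod l, ps l (s * -(p.1 * n + p.2 * τ)) * XX l m p := by
    intro s hs
    have hs0 : s ≠ 0 := Finset.ne_of_mem_erase hs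
    rw [hS, ← (smE l hs0).sum_comp]
    refine Finset.sum_congr rfl fun p _ => ?_
    have e1 : smE l hs0 p = (s * p.1, s * p.2) := rfl
    rw [e1, XX_smul l m hs0]
    congr 2
    ring
  have h2 : ((l : ℂ) - 1) * S = (l : ℂ) * ∑ p ∈ univ.filter (fun p : ZMod l × ZMod l => p.1 * n + p.2 * τ = 0), XX l m p -
      ∑ p : ZMod l × ZMod l, XX l m p := by
    have h3 : ∑ s ∈ univ.erase (0 : ZMod l), S = ((l : ℂ) - 1) * S := by
      rw [Finset.sum_const, Finset.card_erase_of_mem (Finset.mem_univ _), Finset.card_univ, ZMod.card, nsmul_eq_mul,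
        Nat.cast_sub (Fact.out : l.Prime).one_lt.le, Nat.cast_one]
    rw [← h3, Finset.sum_congr rfl h1, Finset.sum_comm]
    have h4 : ∀ p : ZMod l × ZMod l, ∑ s ∈ univ.erase (0 : ZMod l), ps l (s * -(p.1 * n + p.2 * τ)) * XX l m p =
        (if p.1 * n + p.2 * τ = 0 then (l : ℂ) * XX l m p else 0) - XX l m p := by
      intro p
      have h5 := orth l (-(p.1 * n + p.2 * τ))
      rw [← Finset.add_sum_erase _ _ (Finset.mem_univ (0 : ZMod l)), zero_mul, AddChar.map_zero_eq_one] at h5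
      rw [← Finset.sum_mul]
      have h6 : ∑ s ∈ univ.erase (0 : ZMod l), (ps l (s * -(p.1 * n + p.2 * τ)) : ℂ) = (if p.1 * n + p.2 * τ = 0 then (l : ℂ) else 0) - 1 := by
        simp only [neg_eq_zero] at h5
        linear_combination h5
      rw [h6]
      split_ifs <;> ring
    rw [Finset.sum_congr rfl (fun p _ => h4 p), Finset.sum_sub_distrib, ← Finset.sum_filter, ← Finset.mul_sum]
  have h5 : ‖∑ p ∈ univ.filter (fun p : ZMod l × ZMod l => p.1 * n + p.2 * τ = 0), XX l m p‖ ≤ (l : ℝ) - 1 := by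
    have h0 : (0 : ZMod l × ZMod l) ∈ univ.filter (fun p : ZMod l × ZMod l => p.1 * n + p.2 * τ = 0) := by simp
    rw [← Finset.add_sum_erase _ _ h0, XX_zero, zero_add]
    refine (norm_sum_le _ _).trans ?_
    calc _ ≤ ∑ _p ∈ (univ.filter (fun p : ZMod l × ZMod l => p.1 * n + p.2 * τ = 0)).erase 0, (1 : ℝ) :=
          Finset.sum_le_sum fun p _ => (XX_norm l m p).trans (ch_norm_le l _)
      _ = (((univ.filter (fun p : ZMod l × ZMod l => p.1 * n + p.2 * τ = 0)).erase 0).card : ℝ) := by simp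
      _ ≤ _ := by
        rw [Finset.card_erase_of_mem h0, Nat.cast_sub (Finset.card_pos.2 ⟨0, h0⟩), Nat.cast_one]
        have := card_line l h
        have : ((univ.filter (fun p : ZMod l × ZMod l => p.1 * n + p.2 * τ = 0)).card : ℝ) ≤ l := by exact_mod_cast this
        linarith
  have h6 : ‖∑ p : ZMod l × ZMod l, XX l m p‖ ≤ (l : ℝ) * (l - 1) := by
    refine (norm_sum_le _ _).trans ?_
    have h7 : ∀ p : ZMod l × ZMod l, ‖XX l m p‖ ≤ if p.1 + m 0 * p.2 = 0 then 0 else 1 := by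
      intro p
      split_ifs with hp
      · refine (XX_norm l m p).trans ?_
        rw [hp, ch_zero, norm_zero]
      · exact (XX_norm l m p).trans (ch_norm_le l _)
    refine (Finset.sum_le_sum fun p _ => h7 p).trans ?_
    have h8 : ∑ p : ZMod l × ZMod l, (if p.1 + m 0 * p.2 = 0 then (0 : ℝ) else 1) =
        ∑ b : ZMod l, ((l : ℝ) - 1) := by
      rw [Fintype.sum_prod_type_right]
      refine Finset.sum_congr rfl fun b _ => ?_
      rw [← Finset.add_sum_erase _ _ (Finset.mem_univ (-(m 0 * b)))]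
      have e1 : -(m 0 * b) + m 0 * b = 0 := by ring
      simp only [e1, if_true, zero_add]
      have : ∀ a ∈ univ.erase (-(m 0 * b)), (if a + m 0 * b = 0 then (0 : ℝ) else 1) = 1 := by
        intro a ha
        have h9 := Finset.ne_of_mem_erase ha
        rw [if_neg (fun h => h9 (by linear_combination h))]
      rw [Finset.sum_congr rfl this, Finset.sum_const, Finset.card_erase_of_mem (Finset.mem_univ _), Finset.card_univ, ZMod.card, nsmul_eq_mul,
        Nat.cast_sub (Fact.out : l.Prime).one_lt.le, Nat.cast_one, mul_one]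
    rw [h8, Finset.sum_const, Finset.card_univ, ZMod.card, nsmul_eq_mul]
  have h7 : ((l : ℝ) - 1) * ‖S‖ ≤ (l : ℝ) * (l - 1) + l * (l - 1) := by
    have e1 : ‖((l : ℂ) - 1) * S‖ = ((l : ℝ) - 1) * ‖S‖ := by
      rw [norm_mul]
      congr 1
      have : ((l : ℂ) - 1) = (((l : ℝ) - 1 : ℝ) : ℂ) := by push_cast; ring
      rw [this, Complex.norm_real, Real.norm_of_nonneg (by linarith)]
    rw [← e1, h2]
    refine (norm_sub_le _ _).trans ?_
    rw [norm_mul, Complex.norm_natCast]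
    exact add_le_add (mul_le_mul_of_nonneg_left h5 (Nat.cast_nonneg _)) h6
  have h8 : 0 < (l : ℝ) - 1 := by linarith
  nlinarith [norm_nonneg S]

/-- algebra of the expansion -/
theorem expand_prod {d0 d1 d2 d3 x0 x1 x2 x3 : ℂ} (h01 : d0 * d1 = 0) (h02 : d0 * d2 = 0) (h03 : d0 * d3 = 0) (h12 : d1 * d2 = 0)
    (h13 : d1 * d3 = 0) (h23 : d2 * d3 = 0) :
    (d0 + x0) * (d1 + x1) * (d2 + x2) * (d3 + x3) = x0 * x1 * x2 * x3 + d0 * (x1 * x2 * x3) + d1 * (x0 * x2 * x3) +
      d2 * (x0 * x1 * x3) + d3 * (x0 * x1 * x2) := by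
  linear_combination (x2 + d2) * (x3 + d3) * h01 + x1 * (x3 + d3) * h02 + x1 * x2 * h03 + x0 * (x3 + d3) * h12 + x0 * x2 * h13 + x0 * x1 * h23

/-- the number of solutions -/
noncomputable def NN (m : Fin 4 → ZMod l) (n τ : ZMod l) : ℕ :=
  (univ.filter (fun u : Fin 4 → ZMod l => ∑ i, u i ^ 2 = n ∧ ∑ i, m i * u i ^ 2 = τ)).card

theorem NN_eq (m : Fin 4 → ZMod l) (n τ : ZMod l) : (NN l m n τ : ℂ) * (l : ℂ) ^ 2 =
    ∑ p : ZMod l × ZMod l, ps l (-(p.1 * n + p.2 * τ)) * ∏ i, ∑ r : ZMod l, ps l ((p.1 + m i * p.2) * r ^ 2) := by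
  classical
  have h1 : (NN l m n τ : ℂ) * (l : ℂ) ^ 2 = ∑ u : Fin 4 → ZMod l, ∑ p : ZMod l × ZMod l,
      ps l (p.1 * (∑ i, u i ^ 2 - n)) * ps l (p.2 * (∑ i, m i * u i ^ 2 - τ)) := by
    have h2 : ∀ u : Fin 4 → ZMod l, ∑ p : ZMod l × ZMod l, (ps l (p.1 * (∑ i, u i ^ 2 - n)) * ps l (p.2 * (∑ i, m i * u i ^ 2 - τ)) : ℂ) =
        if ∑ i, u i ^ 2 = n ∧ ∑ i, m i * u i ^ 2 = τ then (l : ℂ) ^ 2 else 0 := by
      intro u
      rw [Fintype.sum_prod_type]
      simp only
      rw [← Finset.sum_mul_sum, orth, orth]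
      simp only [sub_eq_zero]
      by_cases ha : ∑ i, u i ^ 2 = n <;> by_cases hb : ∑ i, m i * u i ^ 2 = τ
      · rw [if_pos ha, if_pos hb, if_pos ⟨ha, hb⟩, sq]
      · rw [if_neg hb, mul_zero, if_neg (fun h => hb h.2)]
      · rw [if_neg ha, zero_mul, if_neg (fun h => ha h.1)]
      · rw [if_neg ha, zero_mul, if_neg (fun h => ha h.1)]
    simp_rw [h2]
    rw [← Finset.sum_filter, Finset.sum_const, nsmul_eq_mul]
    rfl
  rw [h1, Finset.sum_comm]
  refine Finset.sum_congr rfl fun p _ => ?_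
  rw [Finset.prod_univ_sum, Finset.mul_sum, Fintype.piFinset_univ]
  apply Finset.sum_congr rfl
  intro u _
  rw [Fin.prod_univ_four, ← AddChar.map_add_eq_mul, ← AddChar.map_add_eq_mul, ← AddChar.map_add_eq_mul,
    ← AddChar.map_add_eq_mul, ← AddChar.map_add_eq_mul]
  congr 1
  rw [Fin.sum_univ_four, Fin.sum_univ_four]
  ring

theorem NN_bound (hl : Odd l) (m : Fin 4 → ZMod l) (hm : Function.Injective m) {n τ : ZMod l} (h : n ≠ 0 ∨ τ ≠ 0) :
    |(NN l m n τ : ℝ) - (l : ℝ) ^ 2| ≤ 6 * l := by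
  classical
  have hl1 : (1 : ℝ) < l := by exact_mod_cast (Fact.out : l.Prime).one_lt
  have h1 := NN_eq l m n τ
  set g := gg l with hg
  -- expansion
  have h2 : ∀ p : ZMod l × ZMod l, ∏ i, ∑ r : ZMod l, (ps l ((p.1 + m i * p.2) * r ^ 2) : ℂ) =
      (if p = 0 then (l : ℂ) ^ 4 else 0) + g ^ 4 * XX l m p +
      g ^ 3 * ((if p.1 + m 0 * p.2 = 0 then (l : ℂ) else 0) * (ch l (p.1 + m 1 * p.2) * ch l (p.1 + m 2 * p.2) * ch l (p.1 + m 3 * p.2))) +
      g ^ 3 * ((if p.1 + m 1 * p.2 = 0 then (l : ℂ) else 0) * (ch l (p.1 + m 0 * p.2) * ch l (p.1 + m 2 * p.2) * ch l (p.1 + m 3 * p.2))) +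
      g ^ 3 * ((if p.1 + m 2 * p.2 = 0 then (l : ℂ) else 0) * (ch l (p.1 + m 0 * p.2) * ch l (p.1 + m 1 * p.2) * ch l (p.1 + m 3 * p.2))) +
      g ^ 3 * ((if p.1 + m 3 * p.2 = 0 then (l : ℂ) else 0) * (ch l (p.1 + m 0 * p.2) * ch l (p.1 + m 1 * p.2) * ch l (p.1 + m 2 * p.2))) := by
    intro p
    rw [Fin.prod_univ_four, G_eq l hl, G_eq l hl, G_eq l hl, G_eq l hl]
    by_cases hp : p = 0
    · rw [hp, XX_zero, if_pos rfl]
      simp [ch_zero]
      ring
    · rw [if_neg hp, zero_add]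
      have hd : ∀ i j : Fin 4, i ≠ j → (if p.1 + m i * p.2 = 0 then (l : ℂ) else 0) * (if p.1 + m j * p.2 = 0 then (l : ℂ) else 0) = 0 := by
        intro i j hij
        by_cases h1 : p.1 + m i * p.2 = 0
        · by_cases h2 : p.1 + m j * p.2 = 0
          · exfalso
            have h3 : (m i - m j) * p.2 = 0 := by linear_combination h1 - h2
            rcases mul_eq_zero.1 h3 with h4 | h4
            · exact hij (hm (sub_eq_zero.1 h4))
            · apply hp
              rw [h4, mul_zero, add_zero] at h1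
              exact Prod.ext h1 h4
          · rw [if_neg h2, mul_zero]
        · rw [if_neg h1, zero_mul]
      rw [expand_prod (hd 0 1 (by decide)) (hd 0 2 (by decide)) (hd 0 3 (by decide)) (hd 1 2 (by decide)) (hd 1 3 (by decide)) (hd 2 3 (by decide))]
      unfold XX
      rw [← hg]
      ring
  have h3 : (NN l m n τ : ℂ) * (l : ℂ) ^ 2 - (l : ℂ) ^ 4 =
      g ^ 4 * (∑ p : ZMod l × ZMod l, ps l (-(p.1 * n + p.2 * τ)) * XX l m p) +
      g ^ 3 * (∑ p : ZMod l × ZMod l, ps l (-(p.1 * n + p.2 * τ)) * ((if p.1 + m 0 * p.2 = 0 then (l : ℂ) else 0) *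
        (ch l (p.1 + (m 0 + (m 1 - m 0)) * p.2) * ch l (p.1 + (m 0 + (m 2 - m 0)) * p.2) * ch l (p.1 + (m 0 + (m 3 - m 0)) * p.2)))) +
      g ^ 3 * (∑ p : ZMod l × ZMod l, ps l (-(p.1 * n + p.2 * τ)) * ((if p.1 + m 1 * p.2 = 0 then (l : ℂ) else 0) *
        (ch l (p.1 + (m 1 + (m 0 - m 1)) * p.2) * ch l (p.1 + (m 1 + (m 2 - m 1)) * p.2) * ch l (p.1 + (m 1 + (m 3 - m 1)) * p.2)))) +
      g ^ 3 * (∑ p : ZMod l × ZMod l, ps l (-(p.1 * n + p.2 * τ)) * ((if p.1 + m 2 * p.2 = 0 then (l : ℂ) else 0) *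
        (ch l (p.1 + (m 2 + (m 0 - m 2)) * p.2) * ch l (p.1 + (m 2 + (m 1 - m 2)) * p.2) * ch l (p.1 + (m 2 + (m 3 - m 2)) * p.2)))) +
      g ^ 3 * (∑ p : ZMod l × ZMod l, ps l (-(p.1 * n + p.2 * τ)) * ((if p.1 + m 3 * p.2 = 0 then (l : ℂ) else 0) *
        (ch l (p.1 + (m 3 + (m 0 - m 3)) * p.2) * ch l (p.1 + (m 3 + (m 1 - m 3)) * p.2) * ch l (p.1 + (m 3 + (m 2 - m 3)) * p.2)))) := by
    have h4 : ∑ p : ZMod l × ZMod l, ps l (-(p.1 * n + p.2 * τ)) * (if p = 0 then (l : ℂ) ^ 4 else 0) = (l : ℂ) ^ 4 := by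
      rw [Finset.sum_eq_single (0 : ZMod l × ZMod l)]
      · simp
      · intro p _ hp; rw [if_neg hp, mul_zero]
      · intro h; exact absurd (Finset.mem_univ _) h
    rw [h1, sub_eq_iff_eq_add', ← h4]
    simp only [add_sub_cancel]
    rw [Finset.mul_sum, Finset.mul_sum, Finset.mul_sum, Finset.mul_sum, Finset.mul_sum, ← Finset.sum_add_distrib, ← Finset.sum_add_distrib,
      ← Finset.sum_add_distrib, ← Finset.sum_add_distrib, ← Finset.sum_add_distrib]
    refine Finset.sum_congr rfl fun p _ => ?_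
    rw [h2 p]
    ring
  have hgn : ‖g‖ ^ 2 = l := gg_norm l hl
  have hg0 : 0 ≤ ‖g‖ := norm_nonneg _
  have h5 : ‖(NN l m n τ : ℂ) * (l : ℂ) ^ 2 - (l : ℂ) ^ 4‖ ≤ 6 * (l : ℝ) ^ 3 := by
    rw [h3]
    have A := plane l m h
    have B0 := line l hl (m 0) (m 1 - m 0) (m 2 - m 0) (m 3 - m 0) n τ
    have B1 := line l hl (m 1) (m 0 - m 1) (m 2 - m 1) (m 3 - m 1) n τ
    have B2 := line l hl (m 2) (m 0 - m 2) (m 1 - m 2) (m 3 - m 2) n τ
    have B3 := line l hl (m 3) (m 0 - m 3) (m 1 - m 3) (m 2 - m 3) n τ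
    rw [← hg] at B0 B1 B2 B3
    have g4 : ‖g‖ ^ 4 = (l : ℝ) ^ 2 := by rw [← hgn]; ring
    have key : ∀ z : ℂ, ‖z‖ ≤ l * ‖g‖ → ‖g ^ 3 * z‖ ≤ (l : ℝ) ^ 3 := by
      intro z hz
      rw [norm_mul, norm_pow]
      calc ‖g‖ ^ 3 * ‖z‖ ≤ ‖g‖ ^ 3 * (l * ‖g‖) := mul_le_mul_of_nonneg_left hz (by positivity)
        _ = l * ‖g‖ ^ 4 := by ring
        _ = _ := by rw [g4]; ring
    have key4 : ∀ z : ℂ, ‖z‖ ≤ 2 * l → ‖g ^ 4 * z‖ ≤ 2 * (l : ℝ) ^ 3 := by
      intro z hz
      rw [norm_mul, norm_pow, g4]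
      calc (l : ℝ) ^ 2 * ‖z‖ ≤ (l : ℝ) ^ 2 * (2 * l) := mul_le_mul_of_nonneg_left hz (by positivity)
        _ = _ := by ring
    have e1 := key4 _ A
    have e2 := key _ B0
    have e3 := key _ B1
    have e4 := key _ B2
    have e5 := key _ B3
    refine (norm_add_le _ _).trans ?_
    refine (add_le_add ((norm_add_le _ _).trans (add_le_add ((norm_add_le _ _).trans (add_le_add ((norm_add_le _ _).trans
      (add_le_add e1 e2)) e3)) e4)) e5).trans ?_
    linarith
  have h6 : ‖(NN l m n τ : ℂ) * (l : ℂ) ^ 2 - (l : ℂ) ^ 4‖ = |(NN l m n τ : ℝ) - (l : ℝ) ^ 2| * (l : ℝ) ^ 2 := by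
    have : (NN l m n τ : ℂ) * (l : ℂ) ^ 2 - (l : ℂ) ^ 4 = ((((NN l m n τ : ℝ) - (l : ℝ) ^ 2) * (l : ℝ) ^ 2 : ℝ) : ℂ) := by
      push_cast; ring
    rw [this, Complex.norm_real, Real.norm_eq_abs, abs_mul, abs_of_nonneg (by positivity : (0 : ℝ) ≤ (l : ℝ) ^ 2)]
  rw [h6] at h5
  have h7 : 0 < (l : ℝ) ^ 2 := by positivity
  have h8 : |(NN l m n τ : ℝ) - (l : ℝ) ^ 2| * (l : ℝ) ^ 2 ≤ 6 * l * (l : ℝ) ^ 2 := by
    calc _ ≤ 6 * (l : ℝ) ^ 3 := h5
      _ = _ := by ring
  exact le_of_mul_le_mul_right h8 h7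

end Pool.Agent.Q117.FQ.CNT
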